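import Mathlib

/-! # MP_06b34c, counterexample: counting zeros modulo `p`

`PD n d F`: the function `F` of `n` variables is a polynomial of total degree at most `d`.
`cnt K P`: the number of points with property `P`, as an element of `K`. -/

namespace MP06b.CX

open Finset

section deg
variable {K : Type*} [Field K]

/-- `F` is given by a polynomial of total degree at most `d` -/
def PD (n d : ℕ) (F : (Fin n → K) → K) : Prop :=
  ∃ P : MvPolynomial (Fin n) K, P.totalDegree ≤ d ∧ ∀ x, MvPolynomial.eval x P = F x

variable {n d d' : ℕ} {F G : (Fin n → K) → K}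

theorem PD.const (c : K) : PD n 0 (fun _ => c) :=
  ⟨MvPolynomial.C c, by simp, by simp⟩

theorem PD.var (i : Fin n) : PD n 1 (fun w : Fin n → K => w i) :=
  ⟨MvPolynomial.X i, by simp, by simp⟩

theorem PD.mono (h : PD n d F) (hd : d ≤ d') : PD n d' F := by
  obtain ⟨P, h1, h2⟩ := h
  exact ⟨P, h1.trans hd, h2⟩

theorem PD.add (hF : PD n d F) (hG : PD n d' G) : PD n (max d d') (fun w => F w + G w) := by
  obtain ⟨P, h1, h2⟩ := hF
  obtain ⟨Q, h3, h4⟩ := hG
  exact ⟨P + Q, (MvPolynomial.totalDegree_add P Q).trans (max_le_max h1 h3), by simp [h2, h4]⟩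

theorem PD.sub (hF : PD n d F) (hG : PD n d' G) : PD n (max d d') (fun w => F w - G w) := by
  obtain ⟨P, h1, h2⟩ := hF
  obtain ⟨Q, h3, h4⟩ := hG
  exact ⟨P - Q, (MvPolynomial.totalDegree_sub P Q).trans (max_le_max h1 h3), by simp [h2, h4]⟩

theorem PD.mul (hF : PD n d F) (hG : PD n d' G) : PD n (d + d') (fun w => F w * G w) := by
  obtain ⟨P, h1, h2⟩ := hF
  obtain ⟨Q, h3, h4⟩ := hG
  exact ⟨P * Q, (MvPolynomial.totalDegree_mul P Q).trans (add_le_add h1 h3), by simp [h2, h4]⟩

theorem PD.neg (hF : PD n d F) : PD n d (fun w => -F w) := by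
  obtain ⟨P, h1, h2⟩ := hF
  exact ⟨-P, by rwa [MvPolynomial.totalDegree_neg], by simp [h2]⟩

end deg

section count
variable (K : Type*) [Field K]

open Classical in
/-- the number of points with property `P`, as an element of `K` -/
noncomputable def cnt {α : Type*} [Fintype α] (P : α → Prop) : K := ∑ x, if P x then 1 else 0

variable {K}

theorem cnt_eq_card {α : Type*} [Fintype α] (P : α → Prop) :
    cnt K P = (Nat.card {x // P x} : K) := by
  classical
  unfold cnt
  rw [Finset.sum_boole, Nat.card_eq_fintype_card, Fintype.card_subtype]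

theorem cnt_congr {α : Type*} [Fintype α] {P Q : α → Prop} (h : ∀ x, P x ↔ Q x) :
    cnt K P = cnt K Q := by
  have : P = Q := funext fun x => propext (h x)
  rw [this]

theorem cnt_or {α : Type*} [Fintype α] (P Q : α → Prop) :
    cnt K (fun x => P x ∨ Q x) = cnt K P + cnt K Q - cnt K (fun x => P x ∧ Q x) := by
  classical
  unfold cnt
  rw [← Finset.sum_add_distrib, ← Finset.sum_sub_distrib]
  refine Finset.sum_congr rfl fun x _ => ?_
  by_cases h1 : P x <;> by_cases h2 : Q x <;> simp [h1, h2]

theorem cnt_not {α : Type*} [Fintype α] (P : α → Prop) :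
    cnt K (fun x => ¬ P x) = (Fintype.card α : K) - cnt K P := by
  classical
  unfold cnt
  rw [eq_sub_iff_add_eq, ← Finset.sum_add_distrib]
  rw [Finset.sum_congr rfl (g := fun _ => (1 : K))]
  · simp
  · intro x _
    by_cases h1 : P x <;> simp [h1]

/-- inclusion and exclusion for a product -/
theorem cnt_mul {α : Type*} [Fintype α] (F G : α → K) :
    cnt K (fun x => F x * G x = 0) =
      cnt K (fun x => F x = 0) + cnt K (fun x => G x = 0) -
        cnt K (fun x => F x = 0 ∧ G x = 0) := by
  rw [← cnt_or]
  exact cnt_congr fun x => mul_eq_zero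

theorem sum_cons {n : ℕ} {M : Type*} [AddCommMonoid M] [Fintype K]
    (g : (Fin (n + 1) → K) → M) : ∑ v, g v = ∑ w : Fin n → K, ∑ x : K, g (Fin.cons x w) := by
  rw [Finset.sum_comm, ← Fintype.sum_prod_type']
  exact (Fintype.sum_equiv (Fin.consEquiv fun _ => K) _ _ fun y => rfl).symm

theorem cnt_cons {n : ℕ} [Fintype K] (P : (Fin (n + 1) → K) → Prop) :
    cnt K P = ∑ w : Fin n → K, cnt K (fun x : K => P (Fin.cons x w)) := by
  unfold cnt
  rw [sum_cons]

variable [Fintype K]

theorem card_eq_zero' (K : Type*) [Field K] [Fintype K] : (Fintype.card K : K) = 0 :=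
  FiniteField.cast_card_eq_zero K

/-- the property does not depend on the first variable -/
theorem cnt_free {n : ℕ} (P : (Fin (n + 1) → K) → Prop) (Q : (Fin n → K) → Prop)
    (h : ∀ x w, P (Fin.cons x w) ↔ Q w) : cnt K P = 0 := by
  classical
  rw [cnt_cons]
  refine Finset.sum_eq_zero fun w _ => ?_
  rw [cnt_congr (Q := fun _ => Q w) (fun x => h x w)]
  unfold cnt
  by_cases hq : Q w
  · simp [hq, FiniteField.cast_card_eq_zero]
  · simp [hq]

open Classical in
theorem cnt_lin (a b : K) : cnt K (fun x : K => a * x + b = 0) = if a = 0 then 0 else 1 := by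
  by_cases ha : a = 0
  · subst ha
    unfold cnt
    by_cases hb : b = 0
    · simp [hb, FiniteField.cast_card_eq_zero]
    · simp [hb]
  · rw [if_neg ha, cnt_congr (Q := fun x => x = -b / a)]
    · unfold cnt
      simp
    · intro x
      rw [eq_div_iff ha]
      constructor
      · intro h; linear_combination h
      · intro h; linear_combination h

/-- one equation, linear in the first variable -/
theorem cnt_step1 {n : ℕ} (hn : 0 < n) (P : (Fin (n + 1) → K) → Prop) (A B : (Fin n → K) → K)
    (h : ∀ x w, P (Fin.cons x w) ↔ A w * x + B w = 0) :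
    cnt K P = - cnt K (fun w => A w = 0) := by
  classical
  rw [cnt_cons]
  have h1 : ∀ w : Fin n → K, cnt K (fun x : K => P (Fin.cons x w)) =
      if ¬ A w = 0 then 1 else 0 := by
    intro w
    rw [cnt_congr (Q := fun x => A w * x + B w = 0) (fun x => h x w), cnt_lin]
    by_cases ha : A w = 0 <;> simp [ha]
  rw [Finset.sum_congr rfl fun w _ => h1 w]
  have h2 := cnt_not (K := K) (α := Fin n → K) (fun w => A w = 0)
  have h3 : (Fintype.card (Fin n → K) : K) = 0 := by
    rw [Fintype.card_fun, Fintype.card_fin, Nat.cast_pow, FiniteField.cast_card_eq_zero]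
    exact zero_pow hn.ne'
  rw [h3, zero_sub] at h2
  rw [← h2]
  unfold cnt
  refine Finset.sum_congr rfl fun w _ => ?_
  congr

/-- two equations, linear in the first variable -/
theorem cnt_step2 {n : ℕ} (P : (Fin (n + 1) → K) → Prop) (A B C D : (Fin n → K) → K)
    (h : ∀ x w, P (Fin.cons x w) ↔ A w * x + B w = 0 ∧ C w * x + D w = 0) :
    cnt K P = cnt K (fun w => A w * D w - B w * C w = 0) -
      cnt K (fun w => A w = 0 ∧ C w = 0) := by
  classical
  have key : ∀ w : Fin n → K, cnt K (fun x : K => P (Fin.cons x w)) =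
      (if A w * D w - B w * C w = 0 then 1 else 0) - (if A w = 0 ∧ C w = 0 then 1 else 0) := by
    intro w
    rw [cnt_congr (Q := fun x => A w * x + B w = 0 ∧ C w * x + D w = 0) (fun x => h x w)]
    by_cases ha : A w = 0
    · by_cases hc : C w = 0
      · -- both zero
        rw [if_pos (by rw [ha, hc]; ring), if_pos ⟨ha, hc⟩, sub_self]
        unfold cnt
        by_cases hb : B w = 0 <;> by_cases hd : D w = 0 <;>
          simp [ha, hb, hc, hd]
      · by_cases hb : B w = 0
        · rw [if_pos (by rw [ha, hb]; ring), if_neg (fun h => hc h.2), sub_zero]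
          rw [cnt_congr (Q := fun x => C w * x + D w = 0) (fun x => by simp [ha, hb]), cnt_lin,
            if_neg hc]
        · rw [if_neg (by simp [ha, hb, hc]), if_neg (fun h => hc h.2), sub_zero]
          unfold cnt
          simp [ha, hb]
    · by_cases hdet : A w * D w - B w * C w = 0
      · rw [if_pos hdet, if_neg (fun h => ha h.1), sub_zero]
        rw [cnt_congr (Q := fun x => A w * x + B w = 0), cnt_lin, if_neg ha]
        intro x
        constructor
        · exact fun h => h.1
        · intro hx
          refine ⟨hx, ?_⟩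
          have : A w * (C w * x + D w) = 0 := by linear_combination C w * hx + hdet
          exact (mul_eq_zero.mp this).resolve_left ha
      · rw [if_neg hdet, if_neg (fun h => ha h.1), sub_zero]
        unfold cnt
        refine Finset.sum_eq_zero fun x _ => if_neg ?_
        rintro ⟨h1, h2⟩
        exact hdet (by linear_combination A w * h2 - C w * h1)
  rw [cnt_cons, Finset.sum_congr rfl fun w _ => key w, Finset.sum_sub_distrib]
  unfold cnt
  congr 1 <;> refine Finset.sum_congr rfl fun w _ => ?_ <;> congr

end count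

section cw
variable {p : ℕ} [Fact p.Prime] {n d d' : ℕ} {F G : (Fin n → ZMod p) → ZMod p}

/-- Chevalley and Warning, one polynomial -/
theorem cw1 (hF : PD n d F) (h : d < n) : cnt (ZMod p) (fun w => F w = 0) = 0 := by
  classical
  obtain ⟨P, h1, h2⟩ := hF
  have h3 := char_dvd_card_solutions (K := ZMod p) p (f := P)
    (by rw [Fintype.card_fin]; exact h1.trans_lt h)
  rw [cnt_eq_card, ZMod.natCast_eq_zero_iff, Nat.card_eq_fintype_card]
  convert h3 using 3
  simp [h2]

/-- Chevalley and Warning, two polynomials -/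
theorem cw2 (hF : PD n d F) (hG : PD n d' G) (h : d + d' < n) :
    cnt (ZMod p) (fun w => F w = 0 ∧ G w = 0) = 0 := by
  classical
  obtain ⟨P, h1, h2⟩ := hF
  obtain ⟨Q, h3, h4⟩ := hG
  have h5 := char_dvd_card_solutions_of_add_lt (K := ZMod p) p (f₁ := P) (f₂ := Q)
    (by rw [Fintype.card_fin]; omega)
  rw [cnt_eq_card, ZMod.natCast_eq_zero_iff, Nat.card_eq_fintype_card]
  convert h5 using 3
  simp [h2, h4]

end cw

end MP06b.CX
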