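import Pool.Agent.Lib.MP_06b34c_co.CX.Rel
import Pool.Agent.Lib.MP_06b34c_co.CX.Count

/-! # MP_06b34c, counterexample: the points with `nt = 0` on a tangent

Let `m = c5 + cB`, `n = c7 + cB`, so `m * n = cB ^ 2` and `c5 + c7 = m + n - 2 * cB`.
Write `v = Fin.cons e w`: `nt v = e * mt + (m5 + m7)`,
`n5 * m + n7 * n + nB * (c5 + c7) = e * A + (c5 + c7) * mn`,
`A = m5 * m + m7 * n + mB * (c5 + c7)`. `cnt_step2`: the count is `cnt (D = 0) - cnt (mt = 0 ∧ A = 0)`,
the second is 0 by `cw2` (5 + 6 < 12), and by `m_rel`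
`D = mt * ((c5 + c7) * mn) - (m5 + m7) * A = - (m * m5 ^ 2 + 2 * cB * m5 * m7 + n * m7 ^ 2)`.
If `m ≠ 0`: `m * D = - (m * m5 + cB * m7) ^ 2`, so `D = 0` iff `m * m5 + cB * m7 = 0`: `cw1` (6 < 12).
If `m = 0`: `cB = 0`, `D = - n * m7 ^ 2`: if `n ≠ 0` it is `m7 = 0`: `cw1` (6 < 12); if `n = 0` the
condition is always true and the count is `P ^ 12 = 0` in `ZMod P`.

Degrees: after `simp only` with all the definitions (`mt, top, zz, ...`, `B12, mkB`) the proof is
`refine PD.mono (by repeat' first | exact PD.var _ | exact PD.const _ | apply PD.add | apply PD.sub |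
apply PD.mul) (by decide)`. -/

namespace MP06b.CX

variable {p : ℕ} [Fact p.Prime]

private def Wt (w : Fin 12 → ZMod p) : ZMod p := mt (B12 w) (w 0) (w 1) (w 2) (w 3) (w 4) (w 5)
private def W5 (w : Fin 12 → ZMod p) : ZMod p := m5 (B12 w) (w 0) (w 1) (w 2) (w 3) (w 4) (w 5)
private def W7 (w : Fin 12 → ZMod p) : ZMod p := m7 (B12 w) (w 0) (w 1) (w 2) (w 3) (w 4) (w 5)
private def WB (w : Fin 12 → ZMod p) : ZMod p := mB (B12 w) (w 0) (w 1) (w 2) (w 3) (w 4) (w 5)
private def Wn (w : Fin 12 → ZMod p) : ZMod p := mn (B12 w) (w 0) (w 1) (w 2) (w 3) (w 4) (w 5)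

private theorem W_rel (w : Fin 12 → ZMod p) :
    Wt w * Wn w = W5 w * W7 w + (W5 w + W7 w) * WB w :=
  m_rel (B12 w) (mkB_rel _ _ _ _ _ _) _ _ _ _ _ _

private theorem PD_Wt : PD 12 5 (Wt (p := p)) := by
  change PD 12 5 (fun w => mt (B12 w) (w 0) (w 1) (w 2) (w 3) (w 4) (w 5))
  simp only [mt, U1, U2, U3, top, zz, B12, mkB]
  exact PD.mono (by
    repeat' first
      | exact PD.var _
      | exact PD.const _
      | apply PD.add
      | apply PD.sub
      | apply PD.mul) (by decide)

private theorem PD_W5 : PD 12 6 (W5 (p := p)) := by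
  change PD 12 6 (fun w => m5 (B12 w) (w 0) (w 1) (w 2) (w 3) (w 4) (w 5))
  simp only [m5, X1, X3, ZZ, top, zz, B12, mkB]
  exact PD.mono (by
    repeat' first
      | exact PD.var _
      | exact PD.const _
      | apply PD.add
      | apply PD.sub
      | apply PD.mul) (by decide)

private theorem PD_W7 : PD 12 6 (W7 (p := p)) := by
  change PD 12 6 (fun w => m7 (B12 w) (w 0) (w 1) (w 2) (w 3) (w 4) (w 5))
  simp only [m7, Y1, Y3, ZZ, top, zz, B12, mkB]
  exact PD.mono (by
    repeat' first
      | exact PD.var _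
      | exact PD.const _
      | apply PD.add
      | apply PD.sub
      | apply PD.mul) (by decide)

private theorem PD_WB : PD 12 6 (WB (p := p)) := by
  change PD 12 6 (fun w => mB (B12 w) (w 0) (w 1) (w 2) (w 3) (w 4) (w 5))
  simp only [mB, Q57a, Q5a7, Qall, b1, zz, B12, mkB]
  exact PD.mono (by
    repeat' first
      | exact PD.var _
      | exact PD.const _
      | apply PD.add
      | apply PD.sub
      | apply PD.mul) (by decide)

theorem card_Del (c5 c7 cB : ZMod p) (h : c5 * c7 + (c5 + c7) * cB = 0) :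
    cnt (ZMod p) (fun v : Fin 13 → ZMod p => nt v = 0 ∧
      n5 v * (c5 + cB) + n7 v * (c7 + cB) + nB v * (c5 + c7) = 0) = 0 := by
  rw [cnt_step2 (K := ZMod p) (n := 12) _ (Wt (p := p)) (fun w => W5 w + W7 w)
    (fun w => W5 w * (c5 + cB) + W7 w * (c7 + cB) + WB w * (c5 + c7))
    (fun w => (c5 + c7) * Wn w) ?_]
  · have e2 : cnt (ZMod p) (fun w : Fin 12 → ZMod p => Wt w = 0 ∧
        W5 w * (c5 + cB) + W7 w * (c7 + cB) + WB w * (c5 + c7) = 0) = 0 := by
      refine cw2 (d := 5) (d' := 6) PD_Wt ?_ (by norm_num)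
      exact PD.mono (((PD_W5.mul (PD.const _)).add (PD_W7.mul (PD.const _))).add
        (PD_WB.mul (PD.const _))) (by decide)
    rw [e2, sub_zero]
    by_cases hm : c5 + cB = 0
    · have hc : cB = 0 := by
        have : cB * cB = 0 := by linear_combination (c7 + cB) * hm - h
        exact mul_self_eq_zero.mp this
      have h5 : c5 = 0 := by rw [hc, add_zero] at hm; exact hm
      subst hc
      subst h5
      by_cases hn : c7 = 0
      · subst hn
        rw [cnt_congr (Q := fun _ => True)
          (fun w => ⟨fun _ => trivial, fun _ => by ring⟩)]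
        unfold cnt
        simp
      · rw [cnt_congr (Q := fun w => W7 w = 0)]
        · exact cw1 PD_W7 (by norm_num)
        · intro w
          have hr := W_rel w
          constructor
          · intro hw
            have h1 : c7 * (W7 w * W7 w) = 0 := by linear_combination c7 * hr - hw
            exact mul_self_eq_zero.mp ((mul_eq_zero.mp h1).resolve_left hn)
          · intro hw
            linear_combination c7 * hr - c7 * W7 w * hw
    · rw [cnt_congr (Q := fun w => (c5 + cB) * W5 w + cB * W7 w = 0)]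
      · refine cw1 (d := 6) ?_ (by norm_num)
        exact PD.mono (((PD.const _).mul PD_W5).add ((PD.const _).mul PD_W7)) (by decide)
      · intro w
        have hr := W_rel w
        have key : (c5 + cB) * (Wt w * ((c5 + c7) * Wn w) - (W5 w + W7 w) *
            (W5 w * (c5 + cB) + W7 w * (c7 + cB) + WB w * (c5 + c7))) =
            - (((c5 + cB) * W5 w + cB * W7 w) * ((c5 + cB) * W5 w + cB * W7 w)) := by
          linear_combination (c5 + cB) * (c5 + c7) * hr - W7 w ^ 2 * h
        constructor
        · intro hw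
          rw [hw, mul_zero] at key
          exact mul_self_eq_zero.mp (neg_eq_zero.mp key.symm)
        · intro hw
          rw [hw, mul_zero, neg_zero] at key
          exact (mul_eq_zero.mp key).resolve_left hm
  · intro x w
    have e1 : nt (Fin.cons x w : Fin 13 → ZMod p) = x * Wt w + W5 w + W7 w := rfl
    have e5 : n5 (Fin.cons x w : Fin 13 → ZMod p) = x * W5 w := rfl
    have e7 : n7 (Fin.cons x w : Fin 13 → ZMod p) = x * W7 w := rfl
    have eB : nB (Fin.cons x w : Fin 13 → ZMod p) = x * WB w + Wn w := rfl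
    rw [e1, e5, e7, eB]
    refine and_congr ?_ ?_
    · constructor <;> intro hx <;> linear_combination hx
    · constructor <;> intro hx <;> linear_combination hx

end MP06b.CX
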