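import Pool.Agent.Lib.MP_06b34c_co.CX.Rel
import Pool.Agent.Lib.MP_06b34c_co.CX.Count

/-! # MP_06b34c, counterexample: the number of points with `nt ≠ 0`

`nt v = v 0 * mt + m5 + m7`. The number of `v = Fin.cons e w` with `nt v = 0` is
(as a natural number) `#{w | mt ≠ 0} + P * #{w | mt = 0 ∧ m5 + m7 = 0}` (`P` the prime), so
`#{v | nt v ≠ 0} = P ^ 13 - #{nt = 0}` is divisible by `P ^ 2` if `P ^ 2 ∣ #{w | mt ≠ 0}` and
`P ∣ #{w | mt = 0 ∧ m5 + m7 = 0}`. The second is `cw2` (degrees 5 + 6 < 12) with `cnt_eq_card`. For the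
first: `mt` depends only on `p + q`, `r + s` and the other 8 variables
(`mt (B12 w) (w 0) (w 1) ...` with `p = w 8`, `q = w 0`, `r = w 6`, `s = w 1`; `top, U1, U2, U3` do not
depend on `p, r`): write `w` as `(q, s, rest)`; the map `(q, s, rest) ↦ (q, s, rest with p replaced by
p - q and r by r - s)` is a bijection, and after it the condition `mt ≠ 0` does not
depend on the first two coordinates; so the number is `P ^ 2 * #{...}`. -/

namespace MP06b.CX

variable {p : ℕ} [Fact p.Prime]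

private def mtw {R : Type*} [CommRing R] (w : Fin 12 → R) : R :=
  mt (B12 w) (w 0) (w 1) (w 2) (w 3) (w 4) (w 5)

private def msw {R : Type*} [CommRing R] (w : Fin 12 → R) : R :=
  m5 (B12 w) (w 0) (w 1) (w 2) (w 3) (w 4) (w 5) + m7 (B12 w) (w 0) (w 1) (w 2) (w 3) (w 4) (w 5)

private theorem PD_mtw : PD 12 5 (fun w : Fin 12 → ZMod p => mtw w) := by
  simp only [mtw, mt, top, zz, U1, U2, U3, B12, mkB]
  refine PD.mono (by repeat' first | exact PD.var _ | exact PD.const _ | apply PD.add | apply PD.sub | apply PD.mul) (by decide)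

private theorem PD_msw : PD 12 6 (fun w : Fin 12 → ZMod p => msw w) := by
  simp only [msw, m5, m7, X1, X3, Y1, Y3, ZZ, top, zz, B12, mkB]
  refine PD.mono (by repeat' first | exact PD.var _ | exact PD.const _ | apply PD.add | apply PD.sub | apply PD.mul) (by decide)

private theorem nt_cons {R : Type*} [CommRing R] (x : R) (w : Fin 12 → R) :
    nt (Fin.cons x w : Fin 13 → R) = mtw w * x + msw w := by
  change x * mt (B12 w) (w 0) (w 1) (w 2) (w 3) (w 4) (w 5) +
    m5 (B12 w) (w 0) (w 1) (w 2) (w 3) (w 4) (w 5) +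
    m7 (B12 w) (w 0) (w 1) (w 2) (w 3) (w 4) (w 5) = _
  rw [mul_comm x, add_assoc]
  rfl

/-- the shift by `(a, b)` -/
private def sh {R : Type*} [CommRing R] (a b : R) (w : Fin 12 → R) : Fin 12 → R :=
  ![w 0 + a, w 1 + b, w 2, w 3, w 4, w 5, w 6 - b, w 7, w 8 - a, w 9, w 10, w 11]

private theorem mtw_sh {R : Type*} [CommRing R] (a b : R) (w : Fin 12 → R) :
    mtw (sh a b w) = mtw w := by
  have e0 : sh a b w 0 = w 0 + a := rfl
  have e1 : sh a b w 1 = w 1 + b := rfl
  have e2 : sh a b w 2 = w 2 := rfl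
  have e3 : sh a b w 3 = w 3 := rfl
  have e4 : sh a b w 4 = w 4 := rfl
  have e5 : sh a b w 5 = w 5 := rfl
  have e6 : sh a b w 6 = w 6 - b := rfl
  have e7 : sh a b w 7 = w 7 := rfl
  have e8 : sh a b w 8 = w 8 - a := rfl
  have e9 : sh a b w 9 = w 9 := rfl
  have e10 : sh a b w 10 = w 10 := rfl
  have e11 : sh a b w 11 = w 11 := rfl
  have h1 : w 8 - a + (w 0 + a) = w 8 + w 0 := by ring
  have h2 : w 6 - b + (w 1 + b) = w 6 + w 1 := by ring
  simp only [mtw, mt, top, zz, U1, U2, U3, B12, mkB, e0, e1, e2, e3, e4, e5, e6, e7, e8, e9, e10,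
    e11, h1, h2]

private theorem sh_sh {R : Type*} [CommRing R] (a b : R) (w : Fin 12 → R) :
    sh a b (sh (-a) (-b) w) = w := by
  funext i
  fin_cases i <;> simp [sh]

private def eqv : {w : Fin 12 → ZMod p // mtw w ≠ 0} ≃
    (ZMod p × ZMod p) × {w : Fin 12 → ZMod p // (w 0 = 0 ∧ w 1 = 0) ∧ mtw w ≠ 0} where
  toFun w := ((w.1 0, w.1 1), ⟨sh (-w.1 0) (-w.1 1) w.1, ⟨by simp [sh], by simp [sh]⟩, by
    rw [mtw_sh]; exact w.2⟩)
  invFun y := ⟨sh y.1.1 y.1.2 y.2.1, by rw [mtw_sh]; exact y.2.2.2⟩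
  left_inv w := Subtype.ext (sh_sh _ _ _)
  right_inv := by
    rintro ⟨⟨a, b⟩, w, ⟨h0, h1⟩, h2⟩
    have e0 : sh a b w 0 = a := by
      change w 0 + a = a
      rw [h0, zero_add]
    have e1 : sh a b w 1 = b := by
      change w 1 + b = b
      rw [h1, zero_add]
    refine Prod.ext (Prod.ext e0 e1) (Subtype.ext ?_)
    change sh (-(sh a b w 0)) (-(sh a b w 1)) (sh a b w) = w
    rw [e0, e1]
    have := sh_sh (-a) (-b) w
    rwa [neg_neg, neg_neg] at this

private theorem dvd_mt : p ^ 2 ∣ Nat.card {w : Fin 12 → ZMod p // mtw w ≠ 0} := by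
  rw [Nat.card_congr eqv, Nat.card_prod, Nat.card_prod, Nat.card_zmod, pow_two]
  exact Dvd.intro _ rfl

private theorem dvd_both : p ∣ Nat.card {w : Fin 12 → ZMod p // ¬ (mtw w = 0 ∧ msw w = 0)} := by
  have h := cw2 (p := p) PD_mtw PD_msw (by norm_num)
  have h2 := cnt_not (K := ZMod p) (α := Fin 12 → ZMod p) (fun w => mtw w = 0 ∧ msw w = 0)
  rw [h, sub_zero, cnt_eq_card] at h2
  have h3 : (Fintype.card (Fin 12 → ZMod p) : ZMod p) = 0 := by
    rw [Fintype.card_fun, Fintype.card_fin, Nat.cast_pow, FiniteField.cast_card_eq_zero]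
    exact zero_pow (by norm_num)
  rw [h3] at h2
  exact (ZMod.natCast_eq_zero_iff _ _).1 h2

open Classical in
private theorem inner (a b : ZMod p) :
    (∑ x : ZMod p, if a * x + b ≠ 0 then 1 else 0) + (if a ≠ 0 then 1 else 0) =
      p * (if ¬ (a = 0 ∧ b = 0) then 1 else 0) := by
  by_cases ha : a = 0
  · subst ha
    by_cases hb : b = 0
    · subst hb
      simp
    · simp [hb, ZMod.card]
  · have h1 : (∑ x : ZMod p, if a * x + b ≠ 0 then 1 else 0) +
        (∑ x : ZMod p, if a * x + b = 0 then 1 else 0) = p := by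
      rw [← Finset.sum_add_distrib]
      have : ∀ x : ZMod p, ((if a * x + b ≠ 0 then 1 else 0) +
          (if a * x + b = 0 then 1 else 0) : ℕ) = 1 := by
        intro x
        by_cases h : a * x + b = 0 <;> simp [h]
      rw [Finset.sum_congr rfl fun x _ => this x]
      simp [ZMod.card]
    have h2 : (∑ x : ZMod p, if a * x + b = 0 then 1 else 0) = 1 := by
      rw [Finset.sum_eq_single (-b / a)]
      · rw [if_pos]
        rw [mul_div_cancel₀ _ ha]
        ring
      · intro x _ hx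
        rw [if_neg]
        intro h
        apply hx
        rw [eq_div_iff ha]
        linear_combination h
      · intro h
        exact absurd (Finset.mem_univ _) h
    rw [h2] at h1
    rw [if_pos ha, if_pos (fun h => ha h.1), mul_one]
    exact h1

theorem card_U : p ^ 2 ∣ Nat.card {v : Fin 13 → ZMod p // nt v ≠ 0} := by
  classical
  have key : Nat.card {v : Fin 13 → ZMod p // nt v ≠ 0} +
      Nat.card {w : Fin 12 → ZMod p // mtw w ≠ 0} =
      p * Nat.card {w : Fin 12 → ZMod p // ¬ (mtw w = 0 ∧ msw w = 0)} := by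
    have e1 : Nat.card {v : Fin 13 → ZMod p // nt v ≠ 0} =
        ∑ v : Fin 13 → ZMod p, if nt v ≠ 0 then 1 else 0 := by
      rw [Nat.card_eq_fintype_card, Fintype.card_subtype, Finset.card_filter]
    have e2 : Nat.card {w : Fin 12 → ZMod p // mtw w ≠ 0} =
        ∑ w : Fin 12 → ZMod p, if mtw w ≠ 0 then 1 else 0 := by
      rw [Nat.card_eq_fintype_card, Fintype.card_subtype, Finset.card_filter]
    have e3 : Nat.card {w : Fin 12 → ZMod p // ¬ (mtw w = 0 ∧ msw w = 0)} =
        ∑ w : Fin 12 → ZMod p, if ¬ (mtw w = 0 ∧ msw w = 0) then 1 else 0 := by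
      rw [Nat.card_eq_fintype_card, Fintype.card_subtype, Finset.card_filter]
    rw [e1, e2, e3, sum_cons, Finset.mul_sum, ← Finset.sum_add_distrib]
    refine Finset.sum_congr rfl fun w _ => ?_
    rw [← inner (mtw w) (msw w)]
    congr 1
    refine Finset.sum_congr rfl fun x _ => ?_
    rw [nt_cons]
  have h1 : p ^ 2 ∣ p * Nat.card {w : Fin 12 → ZMod p // ¬ (mtw w = 0 ∧ msw w = 0)} := by
    rw [pow_two]
    exact mul_dvd_mul_left p dvd_both
  rw [← key] at h1
  exact (Nat.dvd_add_left dvd_mt).1 h1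

end MP06b.CX
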