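import Pool.Agent.Lib.MP_06b34c_co.CX.GraphDefs

/-! # MP_06b34c, counterexample: properties of `K_5` descendants

`desc_regular`: induction. `K_5` is four-regular. For an expansion the neighbours of `none` are the
four different vertices `v₁ ... v₄`; the neighbours of `some a` are the `some b` with `b` adjacent to
`a` in `G`, except the removed one when `a` is one of the `v_i` (`v₁ ↔ v₃`, `v₂ ↔ v₄`; only one edge at
`a` is removed as the four vertices are different), and then `none` in its place: so the number is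
the same. (E.g. the map `y ↦` (if `y = none` then the partner of `a`, `some b ↦ b`) is a bijection
of the neighbour sets.) Isomorphisms preserve `ncard` of neighbour sets.

`desc_double`: in `K_5` clear; in an expansion `a = none`, `b = some v₂`, with the common neighbours
`some v₁` and `some v₃` (the edges `v₁v₂`, `v₂v₃` are kept as the four vertices are different). -/

namespace MP06b.CX

private theorem dsc_ncard_iso {V W : Type} {G : SimpleGraph V} {H : SimpleGraph W} (e : G ≃g H)
    (x : V) : (H.neighborSet (e x)).ncard = (G.neighborSet x).ncard := by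
  have h : H.neighborSet (e x) = e '' G.neighborSet x := by
    ext y
    simp only [SimpleGraph.mem_neighborSet, Set.mem_image]
    constructor
    · intro hy
      refine ⟨e.symm y, ?_, by simp⟩
      rw [← e.map_adj_iff]
      simpa using hy
    · rintro ⟨z, hz, rfl⟩
      exact e.map_adj_iff.2 hz
  rw [h, Set.ncard_image_of_injective _ e.injective]

private theorem exp_some_some {V : Type} (G : SimpleGraph V) (v₁ v₂ v₃ v₄ a b : V) :
    (expansion G v₁ v₂ v₃ v₄).Adj (some a) (some b) ↔
      G.Adj a b ∧ s(a, b) ≠ s(v₁, v₃) ∧ s(a, b) ≠ s(v₂, v₄) := by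
  rw [expansion, SimpleGraph.fromRel_adj]
  constructor
  · rintro ⟨-, h | h⟩
    · rcases h with ⟨a', b', ha, hb, h⟩ | ⟨h, -⟩
      · rw [Option.some_inj] at ha hb
        subst ha
        subst hb
        exact h
      · exact absurd h (by simp)
    · rcases h with ⟨a', b', ha, hb, h⟩ | ⟨h, -⟩
      · rw [Option.some_inj] at ha hb
        subst ha
        subst hb
        refine ⟨h.1.symm, ?_, ?_⟩
        · rw [Sym2.eq_swap]
          exact h.2.1
        · rw [Sym2.eq_swap]
          exact h.2.2
      · exact absurd h (by simp)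
  · intro h
    refine ⟨?_, Or.inl (Or.inl ⟨a, b, rfl, rfl, h⟩)⟩
    intro hab
    rw [Option.some_inj] at hab
    exact h.1.ne hab

private theorem exp_none_some {V : Type} (G : SimpleGraph V) (v₁ v₂ v₃ v₄ b : V) :
    (expansion G v₁ v₂ v₃ v₄).Adj none (some b) ↔ b = v₁ ∨ b = v₂ ∨ b = v₃ ∨ b = v₄ := by
  rw [expansion, SimpleGraph.fromRel_adj]
  constructor
  · rintro ⟨-, h | h⟩
    · rcases h with ⟨a', b', ha, -⟩ | ⟨-, h⟩
      · exact absurd ha (by simp)
      · simpa only [Option.some_inj] using h
    · rcases h with ⟨a', b', -, hb, -⟩ | ⟨h, -⟩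
      · exact absurd hb (by simp)
      · exact absurd h (by simp)
  · intro h
    refine ⟨by simp, Or.inl (Or.inr ⟨rfl, ?_⟩)⟩
    simpa only [Option.some_inj] using h

theorem desc_finite {V : Type} {G : SimpleGraph V} (h : IsK5Descendant G) : Finite V := by
  induction h with
  | base G e => exact Finite.of_equiv _ e.symm.toEquiv
  | step G G' v₁ v₂ v₃ v₄ h hd h12 h23 h13 h24 e ih =>
    have := ih
    exact Finite.of_equiv _ e.symm.toEquiv

private theorem exp_regular {V : Type} (G : SimpleGraph V) (v₁ v₂ v₃ v₄ : V)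
    (hd : [v₁, v₂, v₃, v₄].Nodup) (h13 : G.Adj v₁ v₃) (h24 : G.Adj v₂ v₄)
    (ih : ∀ x, (G.neighborSet x).ncard = 4) (x : Option V) :
    ((expansion G v₁ v₂ v₃ v₄).neighborSet x).ncard = 4 := by
  classical
  simp only [List.nodup_cons, List.mem_cons, List.not_mem_nil, or_false, not_or,
    List.nodup_nil, and_true, not_false_eq_true] at hd
  obtain ⟨⟨n12, n13, n14⟩, ⟨n23, n24⟩, n34⟩ := hd
  cases x with
  | none =>
    have h : (expansion G v₁ v₂ v₃ v₄).neighborSet none =
        (({some v₁, some v₂, some v₃, some v₄} : Finset (Option V)) : Set (Option V)) := by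
      ext y
      rw [SimpleGraph.mem_neighborSet]
      cases y with
      | none => simp
      | some b =>
        rw [exp_none_some]
        simp
    rw [h, Set.ncard_coe_finset]
    rw [Finset.card_insert_of_notMem (by simp [n12, n13, n14]),
      Finset.card_insert_of_notMem (by simp [n23, n24]),
      Finset.card_insert_of_notMem (by simp [n34]), Finset.card_singleton]
  | some a =>
    have h : (expansion G v₁ v₂ v₃ v₄).neighborSet (some a) =
        (fun y => if s(a, y) = s(v₁, v₃) ∨ s(a, y) = s(v₂, v₄) then none else some y) ''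
          G.neighborSet a := by
      ext y
      rw [SimpleGraph.mem_neighborSet, Set.mem_image]
      cases y with
      | none =>
        rw [SimpleGraph.adj_comm, exp_none_some]
        constructor
        · rintro (rfl | rfl | rfl | rfl)
          · exact ⟨v₃, h13, if_pos (Or.inl rfl)⟩
          · exact ⟨v₄, h24, if_pos (Or.inr rfl)⟩
          · exact ⟨v₁, h13.symm, if_pos (Or.inl Sym2.eq_swap)⟩
          · exact ⟨v₂, h24.symm, if_pos (Or.inr Sym2.eq_swap)⟩
        · rintro ⟨y, -, hy⟩
          have hy' : s(a, y) = s(v₁, v₃) ∨ s(a, y) = s(v₂, v₄) := by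
            by_contra hc
            rw [if_neg hc] at hy
            exact absurd hy (by simp)
          rcases hy' with h | h
          · rcases Sym2.eq_iff.1 h with ⟨h, -⟩ | ⟨h, -⟩
            · exact Or.inl h
            · exact Or.inr (Or.inr (Or.inl h))
          · rcases Sym2.eq_iff.1 h with ⟨h, -⟩ | ⟨h, -⟩
            · exact Or.inr (Or.inl h)
            · exact Or.inr (Or.inr (Or.inr h))
      | some b =>
        rw [exp_some_some]
        constructor
        · rintro ⟨h1, h2, h3⟩
          exact ⟨b, h1, if_neg (by rintro (h | h); exacts [h2 h, h3 h])⟩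
        · rintro ⟨y, hy1, hy2⟩
          have hc : ¬ (s(a, y) = s(v₁, v₃) ∨ s(a, y) = s(v₂, v₄)) := by
            intro hc
            rw [if_pos hc] at hy2
            exact absurd hy2 (by simp)
          rw [if_neg hc, Option.some_inj] at hy2
          subst hy2
          exact ⟨hy1, fun h => hc (Or.inl h), fun h => hc (Or.inr h)⟩
    rw [h, Set.ncard_image_of_injOn, ih a]
    intro y _ z _ hyz
    have hno : ∀ y z : V, s(a, y) = s(v₁, v₃) → s(a, z) = s(v₂, v₄) → False := by
      intro y z h1 h2
      rcases Sym2.eq_iff.1 h1 with ⟨h1, -⟩ | ⟨h1, -⟩ <;>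
        rcases Sym2.eq_iff.1 h2 with ⟨h2, -⟩ | ⟨h2, -⟩
      · exact n12 (h1.symm.trans h2)
      · exact n14 (h1.symm.trans h2)
      · exact n23 (h2.symm.trans h1)
      · exact n34 (h1.symm.trans h2)
    by_cases hy : s(a, y) = s(v₁, v₃) ∨ s(a, y) = s(v₂, v₄)
    · by_cases hz : s(a, z) = s(v₁, v₃) ∨ s(a, z) = s(v₂, v₄)
      · rcases hy with hy | hy <;> rcases hz with hz | hz
        · exact Sym2.congr_right.1 (hy.trans hz.symm)
        · exact (hno y z hy hz).elim
        · exact (hno z y hz hy).elim
        · exact Sym2.congr_right.1 (hy.trans hz.symm)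
      · simp only [if_pos hy, if_neg hz] at hyz
        exact absurd hyz (by simp)
    · by_cases hz : s(a, z) = s(v₁, v₃) ∨ s(a, z) = s(v₂, v₄)
      · simp only [if_neg hy, if_pos hz] at hyz
        exact absurd hyz (by simp)
      · simp only [if_neg hy, if_neg hz, Option.some_inj] at hyz
        exact hyz

theorem desc_regular {V : Type} {G : SimpleGraph V} (h : IsK5Descendant G) (x : V) :
    (G.neighborSet x).ncard = 4 := by
  induction h with
  | base G e =>
    rw [← dsc_ncard_iso e]
    have h1 : (⊤ : SimpleGraph (Fin 5)).neighborSet (e x) =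
        ((Finset.univ.erase (e x) : Finset (Fin 5)) : Set (Fin 5)) := by
      ext y
      simp only [SimpleGraph.mem_neighborSet, SimpleGraph.top_adj, Finset.coe_erase,
        Finset.coe_univ, Set.mem_sdiff, Set.mem_univ, true_and, Set.mem_singleton_iff]
      exact ne_comm
    rw [h1, Set.ncard_coe_finset, Finset.card_erase_of_mem (Finset.mem_univ _), Finset.card_univ,
      Fintype.card_fin]
  | step G G' v₁ v₂ v₃ v₄ h hd h12 h23 h13 h24 e ih =>
    rw [← dsc_ncard_iso e]
    exact exp_regular G v₁ v₂ v₃ v₄ hd h13 h24 ih (e x)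

/-- there is an edge in two triangles -/
theorem desc_double {V : Type} {G : SimpleGraph V} (h : IsK5Descendant G) :
    ∃ a b c d, G.Adj a b ∧ c ≠ d ∧ G.Adj a c ∧ G.Adj b c ∧ G.Adj a d ∧ G.Adj b d := by
  induction h with
  | base G e =>
    have key : ∀ i j : Fin 5, i ≠ j → G.Adj (e.symm i) (e.symm j) := by
      intro i j hij
      rw [e.symm.map_adj_iff]
      exact hij
    refine ⟨e.symm 0, e.symm 1, e.symm 2, e.symm 3, key _ _ (by decide), ?_, key _ _ (by decide),
      key _ _ (by decide), key _ _ (by decide), key _ _ (by decide)⟩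
    intro h
    exact absurd (e.symm.injective h) (by decide)
  | step G G' v₁ v₂ v₃ v₄ h hd h12 h23 h13 h24 e ih =>
    simp only [List.nodup_cons, List.mem_cons, List.not_mem_nil, or_false, not_or,
      List.nodup_nil, and_true, not_false_eq_true] at hd
    obtain ⟨⟨n12, n13, n14⟩, ⟨n23, n24⟩, n34⟩ := hd
    have key : ∀ x y, (expansion G v₁ v₂ v₃ v₄).Adj x y → G'.Adj (e.symm x) (e.symm y) := by
      intro x y hxy
      rw [e.symm.map_adj_iff]
      exact hxy
    have a1 : (expansion G v₁ v₂ v₃ v₄).Adj none (some v₂) :=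
      (exp_none_some G v₁ v₂ v₃ v₄ v₂).2 (Or.inr (Or.inl rfl))
    have a2 : (expansion G v₁ v₂ v₃ v₄).Adj none (some v₁) :=
      (exp_none_some G v₁ v₂ v₃ v₄ v₁).2 (Or.inl rfl)
    have a3 : (expansion G v₁ v₂ v₃ v₄).Adj none (some v₃) :=
      (exp_none_some G v₁ v₂ v₃ v₄ v₃).2 (Or.inr (Or.inr (Or.inl rfl)))
    have a4 : (expansion G v₁ v₂ v₃ v₄).Adj (some v₂) (some v₁) := by
      refine (exp_some_some G v₁ v₂ v₃ v₄ v₂ v₁).2 ⟨h12.symm, ?_, ?_⟩
      · intro h
        rcases Sym2.eq_iff.1 h with ⟨h, -⟩ | ⟨h, -⟩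
        · exact n12 h.symm
        · exact n23 h
      · intro h
        rcases Sym2.eq_iff.1 h with ⟨-, h⟩ | ⟨h, -⟩
        · exact n14 h
        · exact n24 h
    have a5 : (expansion G v₁ v₂ v₃ v₄).Adj (some v₂) (some v₃) := by
      refine (exp_some_some G v₁ v₂ v₃ v₄ v₂ v₃).2 ⟨h23, ?_, ?_⟩
      · intro h
        rcases Sym2.eq_iff.1 h with ⟨h, -⟩ | ⟨h, -⟩
        · exact n12 h.symm
        · exact n23 h
      · intro h
        rcases Sym2.eq_iff.1 h with ⟨-, h⟩ | ⟨h, -⟩
        · exact n34 h
        · exact n24 h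
    refine ⟨e.symm none, e.symm (some v₂), e.symm (some v₁), e.symm (some v₃), key _ _ a1, ?_,
      key _ _ a2, key _ _ a4, key _ _ a3, key _ _ a5⟩
    intro h
    have h1 := e.symm.injective h
    rw [Option.some_inj] at h1
    exact n13 h1

end MP06b.CX
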