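import Pool.Agent.Lib.MP_06b34c_co.CX.Poly

/-! # MP_06b34c, counterexample: the number of zeros modulo `p ^ 3`

Let `ρ c = #{x | ft x ≠ 0 ∧ fB x = c * ft x}`, `U = #{ft ≠ 0}`. For fixed `x, y : A` count the pairs
`(a, b)` with `psi (x) (y) a b = 0`; write `f = f(x)`, `g = f(y)`, with `g8 = f5 y`, `g6 = f7 y`.
* `ft ≠ 0`, `gt ≠ 0`: multiply by `ft * gt`: with `P = f5 gt + a ft gt + ft g6`,
  `Q = f7 gt + b ft gt + ft g8`, `R = fB gt + ft gB` one has
  `ft * gt * psi = P Q + P R + Q R = (P + R) (Q + R) - R ^ 2` (by `hD` at `x` and at `y`);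
  `(a, b) ↦ (P + R, Q + R)` is a bijection, so the number is `p - 1` if `R ≠ 0`, `2 p - 1` if `R = 0`;
  `R = 0` iff `fB / ft = - gB / gt`.
* `ft = 0`, `gt ≠ 0`: `psi = a gt (f7 + fB) + b gt (f5 + fB) + const`; by `hD`,
  `f5 f7 + (f5 + f7) fB = 0`; if `f7 + fB = 0 = f5 + fB` then `fB ^ 2 = 0` and `f5 = f7 = fB = 0`, and
  `psi = fn gt`. So the number is `p` if `(f5, f7, fB) ≠ 0`, otherwise `p ^ 2` if `fn = 0` and 0 if not:
  in any case a multiple of `p`.
* `ft ≠ 0`, `gt = 0`: symmetric, a multiple of `p`.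
* `ft = gt = 0`: `psi` does not depend on `a, b`: `p ^ 2` if
  `f5 (g8 + gB) + f7 (g6 + gB) + fB (g6 + g8) = 0`, otherwise 0.
Total: `(p - 1) U ^ 2 + p * Σ_c ρ(c) ρ(-c) + p * (...) * U * 2 + p ^ 2 * Δ`. By `hU` (`p ^ 2 ∣ U`) the first and
the third terms are divisible by `p ^ 3`. `Δ = Σ_{y, gt = 0} #{x | ft = 0 ∧ ...}` is divisible by `p` by
`hΔ` (with `c5 = g8 = f5 y`, `c7 = g6 = f7 y`, `cB = fB y`, which satisfy the equation by `hD` at `y`).
Finally `ρ(c) = 1 + p k(c)` (integers) by `hρ`, `Σ_c ρ(c) = U ≡ 0 mod p ^ 2` so `Σ k(c) ≡ -1 mod p`, and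
`Σ_c ρ(c) ρ(-c) ≡ p + 2 p Σ k ≡ - p mod p ^ 2`. So the total is `≡ - p ^ 2 mod p ^ 3`. -/

namespace MP06b.CX

open Finset

private theorem card_ind {X : Type*} [Fintype X] (P : X → Prop) [DecidablePred P] :
    (Nat.card {x // P x} : ℤ) = ∑ x, if P x then (1 : ℤ) else 0 := by
  rw [Nat.card_eq_fintype_card, Fintype.card_subtype, Finset.card_filter]
  push_cast
  rfl

variable {p : ℕ} [Fact p.Prime]

private theorem lin_count (α β : ZMod p) :
    ∑ b : ZMod p, (if α * b + β = 0 then (1 : ℤ) else 0) =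
      if α = 0 then (if β = 0 then (p : ℤ) else 0) else 1 := by
  by_cases hα : α = 0
  · by_cases hβ : β = 0
    · simp [hα, hβ]
    · simp [hα, hβ]
  · rw [if_neg hα, Finset.sum_eq_single (-β / α)]
    · rw [if_pos]
      field_simp
      ring
    · intro b _ hb
      rw [if_neg]
      intro h
      apply hb
      field_simp
      linear_combination h
    · simp

/-- the number of pairs -/
private def NN (ft f5 f7 fB fn gt g8 g6 gB gn : ZMod p) : ℤ :=
  ∑ a : ZMod p, ∑ b : ZMod p,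
    (if psi ft f5 f7 fB fn gt g8 g6 gB gn a b = 0 then (1 : ℤ) else 0)

private theorem NN_symm (ft f5 f7 fB fn gt g8 g6 gB gn : ZMod p) :
    NN ft f5 f7 fB fn gt g8 g6 gB gn = NN gt g8 g6 gB gn ft f5 f7 fB fn := by
  unfold NN
  rw [Finset.sum_comm]
  refine Finset.sum_congr rfl fun b _ => Finset.sum_congr rfl fun a _ => ?_
  have : psi ft f5 f7 fB fn gt g8 g6 gB gn a b = psi gt g8 g6 gB gn ft f5 f7 fB fn b a := by
    unfold psi
    ring
  rw [this]

private theorem NN_lin (ft f5 f7 fB fn gt g8 g6 gB gn : ZMod p) :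
    NN ft f5 f7 fB fn gt g8 g6 gB gn =
      ∑ a : ZMod p, if (ft * gt) * a + (ft * (g6 + gB) + (f5 + fB) * gt) = 0 then
        (if a * (ft * (g8 + gB) + (f7 + fB) * gt) +
          (ft * gn + f5 * (g8 + gB) + f7 * (g6 + gB) + fB * (g6 + g8) + fn * gt) = 0
          then (p : ℤ) else 0) else 1 := by
  unfold NN
  refine Finset.sum_congr rfl fun a _ => ?_
  rw [← lin_count]
  refine Finset.sum_congr rfl fun b _ => ?_
  have : psi ft f5 f7 fB fn gt g8 g6 gB gn a b =
      ((ft * gt) * a + (ft * (g6 + gB) + (f5 + fB) * gt)) * b +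
        (a * (ft * (g8 + gB) + (f7 + fB) * gt) +
          (ft * gn + f5 * (g8 + gB) + f7 * (g6 + gB) + fB * (g6 + g8) + fn * gt)) := by
    unfold psi
    ring
  rw [this]

private theorem NN_1 (ft f5 f7 fB fn gt g8 g6 gB gn : ZMod p)
    (hf : ft * fn = f5 * f7 + (f5 + f7) * fB) (hg : gt * gn = g8 * g6 + (g8 + g6) * gB)
    (h1 : ft ≠ 0) (h2 : gt ≠ 0) :
    NN ft f5 f7 fB fn gt g8 g6 gB gn =
      ((p : ℤ) - 1) + if fB * gt + ft * gB = 0 then (p : ℤ) else 0 := by
  rw [NN_lin]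
  have hfg : ft * gt ≠ 0 := mul_ne_zero h1 h2
  obtain ⟨a0, ha0⟩ : ∃ a0 : ZMod p,
      (ft * gt) * a0 + (ft * (g6 + gB) + (f5 + fB) * gt) = 0 := by
    refine ⟨-(ft * (g6 + gB) + (f5 + fB) * gt) / (ft * gt), ?_⟩
    field_simp
    ring
  have key : ft * gt * (a0 * (ft * (g8 + gB) + (f7 + fB) * gt) +
      (ft * gn + f5 * (g8 + gB) + f7 * (g6 + gB) + fB * (g6 + g8) + fn * gt)) =
      - (fB * gt + ft * gB) ^ 2 := by
    linear_combination (ft * (g8 + gB) + (f7 + fB) * gt) * ha0 + ft ^ 2 * hg + gt ^ 2 * hf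
  have hiff : (a0 * (ft * (g8 + gB) + (f7 + fB) * gt) +
      (ft * gn + f5 * (g8 + gB) + f7 * (g6 + gB) + fB * (g6 + g8) + fn * gt) = 0) ↔
      fB * gt + ft * gB = 0 := by
    constructor
    · intro h
      rw [h, mul_zero] at key
      have : (fB * gt + ft * gB) ^ 2 = 0 := by linear_combination key
      exact pow_eq_zero_iff (two_ne_zero) |>.1 this
    · intro h
      rw [h] at key
      have : ft * gt * (a0 * (ft * (g8 + gB) + (f7 + fB) * gt) +
        (ft * gn + f5 * (g8 + gB) + f7 * (g6 + gB) + fB * (g6 + g8) + fn * gt)) = 0 := by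
        rw [key]; ring
      exact (mul_eq_zero.1 this).resolve_left hfg
  have hne : ∀ a : ZMod p, a ≠ a0 →
      (ft * gt) * a + (ft * (g6 + gB) + (f5 + fB) * gt) ≠ 0 := by
    intro a ha h
    apply ha
    have : ft * gt * (a - a0) = 0 := by linear_combination h - ha0
    have := (mul_eq_zero.1 this).resolve_left hfg
    exact sub_eq_zero.1 this
  rw [← Finset.add_sum_erase _ _ (Finset.mem_univ a0), if_pos ha0]
  have hs : ∑ a ∈ (Finset.univ : Finset (ZMod p)).erase a0,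
      (if (ft * gt) * a + (ft * (g6 + gB) + (f5 + fB) * gt) = 0 then
        (if a * (ft * (g8 + gB) + (f7 + fB) * gt) +
          (ft * gn + f5 * (g8 + gB) + f7 * (g6 + gB) + fB * (g6 + g8) + fn * gt) = 0
          then (p : ℤ) else 0) else 1) = (p : ℤ) - 1 := by
    rw [Finset.sum_congr rfl (g := fun _ => (1 : ℤ))]
    · rw [Finset.sum_const, Finset.card_erase_of_mem (Finset.mem_univ _), Finset.card_univ,
        ZMod.card]
      have hp : 1 ≤ p := (Fact.out : p.Prime).one_lt.le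
      simp [Nat.cast_sub hp]
    · intro a ha
      rw [if_neg (hne a (Finset.ne_of_mem_erase ha))]
  rw [hs]
  by_cases hR : fB * gt + ft * gB = 0
  · rw [if_pos hR, if_pos (hiff.2 hR)]
    ring
  · rw [if_neg hR, if_neg (fun h => hR (hiff.1 h))]
    ring

/-- the number for `ft = 0`, `gt ≠ 0`, divided by `p` -/
private def n2 (f5 f7 fB fn : ZMod p) : ℤ :=
  if f5 + fB = 0 ∧ f7 + fB = 0 then (if fn = 0 then (p : ℤ) else 0) else 1

private theorem NN_2 (f5 f7 fB fn gt g8 g6 gB gn : ZMod p)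
    (hf : 0 = f5 * f7 + (f5 + f7) * fB) (h2 : gt ≠ 0) :
    NN 0 f5 f7 fB fn gt g8 g6 gB gn = (p : ℤ) * n2 f5 f7 fB fn := by
  rw [NN_lin]
  unfold n2
  by_cases h5 : f5 + fB = 0
  · have e1 : ∀ a : ZMod p, ((0 : ZMod p) * gt) * a + (0 * (g6 + gB) + (f5 + fB) * gt) = 0 := by
      intro a
      rw [h5]; ring
    by_cases h7 : f7 + fB = 0
    · have hB : fB = 0 := by
        have e5 : f5 = -fB := by linear_combination h5
        have e7 : f7 = -fB := by linear_combination h7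
        rw [e5, e7] at hf
        have : fB ^ 2 = 0 := by linear_combination hf
        exact pow_eq_zero_iff (two_ne_zero) |>.1 this
      have e5 : f5 = 0 := by rw [hB] at h5; simpa using h5
      have e7 : f7 = 0 := by rw [hB] at h7; simpa using h7
      rw [if_pos ⟨h5, h7⟩]
      subst hB e5 e7
      by_cases hn : fn = 0
      · subst hn
        simp
      · simp [hn, h2]
    · rw [if_neg (fun h => h7 h.2)]
      have hc : (f7 + fB) * gt ≠ 0 := mul_ne_zero h7 h2
      have e2 : ∀ a : ZMod p, (if ((0 : ZMod p) * gt) * a +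
          (0 * (g6 + gB) + (f5 + fB) * gt) = 0 then
        (if a * (0 * (g8 + gB) + (f7 + fB) * gt) +
          (0 * gn + f5 * (g8 + gB) + f7 * (g6 + gB) + fB * (g6 + g8) + fn * gt) = 0
          then (p : ℤ) else 0) else 1) =
          (p : ℤ) * (if ((f7 + fB) * gt) * a +
          (f5 * (g8 + gB) + f7 * (g6 + gB) + fB * (g6 + g8) + fn * gt) = 0 then 1 else 0) := by
        intro a
        rw [if_pos (e1 a)]
        have : a * (0 * (g8 + gB) + (f7 + fB) * gt) +
          (0 * gn + f5 * (g8 + gB) + f7 * (g6 + gB) + fB * (g6 + g8) + fn * gt) =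
          ((f7 + fB) * gt) * a +
          (f5 * (g8 + gB) + f7 * (g6 + gB) + fB * (g6 + g8) + fn * gt) := by ring
        rw [this]
        split_ifs <;> simp
      rw [Finset.sum_congr rfl fun a _ => e2 a, ← Finset.mul_sum, lin_count, if_neg hc]
  · rw [if_neg (fun h => h5 h.1)]
    have hc : (f5 + fB) * gt ≠ 0 := mul_ne_zero h5 h2
    have e2 : ∀ a : ZMod p, (if ((0 : ZMod p) * gt) * a +
          (0 * (g6 + gB) + (f5 + fB) * gt) = 0 then
        (if a * (0 * (g8 + gB) + (f7 + fB) * gt) +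
          (0 * gn + f5 * (g8 + gB) + f7 * (g6 + gB) + fB * (g6 + g8) + fn * gt) = 0
          then (p : ℤ) else 0) else 1) = 1 := by
      intro a
      rw [if_neg]
      simpa using ⟨h5, h2⟩
    rw [Finset.sum_congr rfl fun a _ => e2 a]
    simp

private theorem NN_3 (f5 f7 fB fn g8 g6 gB gn : ZMod p) :
    NN 0 f5 f7 fB fn 0 g8 g6 gB gn = (p : ℤ) ^ 2 *
      if f5 * (g8 + gB) + f7 * (g6 + gB) + fB * (g8 + g6) = 0 then 1 else 0 := by
  rw [NN_lin]
  have : f5 * (g8 + gB) + f7 * (g6 + gB) + fB * (g6 + g8) =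
    f5 * (g8 + gB) + f7 * (g6 + gB) + fB * (g8 + g6) := by ring
  by_cases h : f5 * (g8 + gB) + f7 * (g6 + gB) + fB * (g8 + g6) = 0
  · simp [h, this]
    ring
  · simp [h, this]

theorem final_count {p : ℕ} [Fact p.Prime] {A : Type*} [Fintype A]
    (ft f5 f7 fB fn : A → ZMod p)
    (hD : ∀ x, ft x * fn x = f5 x * f7 x + (f5 x + f7 x) * fB x)
    (hU : p ^ 2 ∣ Nat.card {x // ft x ≠ 0})
    (hρ : ∀ c : ZMod p, (Nat.card {x // ft x ≠ 0 ∧ fB x = c * ft x} : ZMod p) = 1)
    (hΔ : ∀ c5 c7 cB : ZMod p, c5 * c7 + (c5 + c7) * cB = 0 →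
      (Nat.card {x // ft x = 0 ∧
        f5 x * (c5 + cB) + f7 x * (c7 + cB) + fB x * (c5 + c7) = 0} : ZMod p) = 0) :
    ∃ k : ℕ, Nat.card {z : A × A × ZMod p × ZMod p //
      psi (ft z.1) (f5 z.1) (f7 z.1) (fB z.1) (fn z.1) (ft z.2.1) (f5 z.2.1) (f7 z.2.1) (fB z.2.1)
        (fn z.2.1) z.2.2.1 z.2.2.2 = 0} + p ^ 2 = p ^ 3 * k := by
  have hT : (Nat.card {z : A × A × ZMod p × ZMod p //
      psi (ft z.1) (f5 z.1) (f7 z.1) (fB z.1) (fn z.1) (ft z.2.1) (f5 z.2.1) (f7 z.2.1) (fB z.2.1)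
        (fn z.2.1) z.2.2.1 z.2.2.2 = 0} : ℤ) =
      ∑ x, ∑ y, NN (ft x) (f5 x) (f7 x) (fB x) (fn x) (ft y) (f5 y) (f7 y) (fB y) (fn y) := by
    rw [card_ind, Fintype.sum_prod_type]
    refine Finset.sum_congr rfl fun x _ => ?_
    rw [Fintype.sum_prod_type]
    refine Finset.sum_congr rfl fun y _ => ?_
    rw [Fintype.sum_prod_type]
    rfl
  -- indicator functions
  obtain ⟨I, hI⟩ : ∃ I : A → ℤ, ∀ x, I x = if ft x ≠ 0 then 1 else 0 := ⟨_, fun _ => rfl⟩
  obtain ⟨J, hJ⟩ : ∃ J : A → ℤ, ∀ x, J x = if ft x = 0 then 1 else 0 := ⟨_, fun _ => rfl⟩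
  obtain ⟨r, hr⟩ : ∃ r : ZMod p → A → ℤ, ∀ c x, r c x =
      if ft x ≠ 0 ∧ fB x = c * ft x then 1 else 0 := ⟨_, fun _ _ => rfl⟩
  obtain ⟨m, hm⟩ : ∃ m : A → ℤ, ∀ x, m x = J x * n2 (f5 x) (f7 x) (fB x) (fn x) :=
    ⟨_, fun _ => rfl⟩
  obtain ⟨E, hE⟩ : ∃ E : A → A → ℤ, ∀ x y, E x y =
      if ft x = 0 ∧ f5 x * (f5 y + fB y) + f7 x * (f7 y + fB y) + fB x * (f5 y + f7 y) = 0
      then 1 else 0 := ⟨_, fun _ _ => rfl⟩
  have hpt : ∀ x y, NN (ft x) (f5 x) (f7 x) (fB x) (fn x) (ft y) (f5 y) (f7 y) (fB y) (fn y) =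
      ((p : ℤ) - 1) * (I x * I y) + p * (∑ c : ZMod p, r c x * r (-c) y) + p * (m x * I y) +
        p * (I x * m y) + (p : ℤ) ^ 2 * (J y * E x y) := by
    intro x y
    have hx := hD x
    have hy := hD y
    by_cases h1 : ft x = 0
    · have hr0 : ∀ c, r c x = 0 := fun c => by rw [hr]; simp [h1]
      have hI0 : I x = 0 := by rw [hI]; simp [h1]
      have hJ1 : J x = 1 := by rw [hJ]; simp [h1]
      simp only [hr0, hI0, zero_mul, Finset.sum_const_zero, mul_zero, zero_add, add_zero]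
      by_cases h2 : ft y = 0
      · have hI0' : I y = 0 := by rw [hI]; simp [h2]
        have hJ1' : J y = 1 := by rw [hJ]; simp [h2]
        rw [hI0', hJ1', h1, h2, NN_3, hE]
        simp [h1]
      · have hI1' : I y = 1 := by rw [hI]; simp [h2]
        have hJ0' : J y = 0 := by rw [hJ]; simp [h2]
        rw [h1] at hx ⊢
        rw [NN_2 _ _ _ _ _ _ _ _ _ (by linear_combination hx) h2, hI1', hJ0', hm, hJ1]
        ring
    · have hI1 : I x = 1 := by rw [hI]; simp [h1]
      have hJ0 : J x = 0 := by rw [hJ]; simp [h1]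
      have hm0 : m x = 0 := by rw [hm, hJ0, zero_mul]
      have hE0 : E x y = 0 := by rw [hE]; simp [h1]
      simp only [hI1, hm0, hE0, zero_mul, mul_zero, one_mul, add_zero]
      by_cases h2 : ft y = 0
      · have hr0 : ∀ c, r c y = 0 := fun c => by rw [hr]; simp [h2]
        have hI0' : I y = 0 := by rw [hI]; simp [h2]
        have hJ1' : J y = 1 := by rw [hJ]; simp [h2]
        rw [NN_symm]
        rw [h2] at hy ⊢
        rw [NN_2 _ _ _ _ _ _ _ _ _ (by linear_combination hy) h1, hI0', hm, hJ1']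
        simp [hr0]
      · have hI1' : I y = 1 := by rw [hI]; simp [h2]
        have hm0' : m y = 0 := by rw [hm, hJ, if_neg h2, zero_mul]
        rw [NN_1 _ _ _ _ _ _ _ _ _ _ (by linear_combination hx) (by linear_combination hy) h1 h2,
          hI1', hm0']
        have hsum : ∑ c : ZMod p, r c x * r (-c) y =
            if fB x * ft y + ft x * fB y = 0 then 1 else 0 := by
          rw [Finset.sum_eq_single (fB x / ft x)]
          · rw [hr, hr, if_pos ⟨h1, by field_simp⟩, one_mul]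
            have : (ft y ≠ 0 ∧ fB y = -(fB x / ft x) * ft y) ↔
                fB x * ft y + ft x * fB y = 0 := by
              constructor
              · rintro ⟨_, h⟩
                rw [h]
                field_simp
                ring
              · intro h
                refine ⟨h2, ?_⟩
                field_simp
                linear_combination h
            simp only [this]
          · intro c _ hc
            rw [hr, if_neg, zero_mul]
            rintro ⟨_, h⟩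
            apply hc
            rw [h]
            field_simp
          · simp
        rw [hsum]
        split_ifs <;> ring
  have hUI : (Nat.card {x // ft x ≠ 0} : ℤ) = ∑ x, I x := by
    rw [card_ind]
    exact Finset.sum_congr rfl fun x _ => (hI x).symm
  have hρr : ∀ c, (Nat.card {x // ft x ≠ 0 ∧ fB x = c * ft x} : ℤ) = ∑ x, r c x := by
    intro c
    rw [card_ind]
    exact Finset.sum_congr rfl fun x _ => (hr c x).symm
  obtain ⟨u, hu⟩ : ∃ u : ℤ, ∑ x, I x = (p : ℤ) ^ 2 * u := by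
    rw [← hUI]
    obtain ⟨u, hu⟩ := hU
    exact ⟨u, by rw [hu]; push_cast; ring⟩
  have hk : ∀ c, ∃ k : ℤ, ∑ x, r c x = 1 + p * k := by
    intro c
    rw [← hρr]
    have h1 := hρ c
    have h2 : (((Nat.card {x // ft x ≠ 0 ∧ fB x = c * ft x} : ℤ) - 1 : ℤ) : ZMod p) = 0 := by
      push_cast
      rw [h1, sub_self]
    obtain ⟨k, hk⟩ := (ZMod.intCast_zmod_eq_zero_iff_dvd _ _).1 h2
    exact ⟨k, by linear_combination hk⟩
  choose k hk using hk
  have hEy : ∀ y, ∃ d : ℤ, J y * ∑ x, E x y = p * d := by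
    intro y
    by_cases h2 : ft y = 0
    · have h3 : ∑ x, E x y = (Nat.card {x // ft x = 0 ∧
        f5 x * (f5 y + fB y) + f7 x * (f7 y + fB y) + fB x * (f5 y + f7 y) = 0} : ℤ) := by
        rw [card_ind]
        exact Finset.sum_congr rfl fun x _ => hE x y
      have h4 := hΔ (f5 y) (f7 y) (fB y) (by
        have := hD y
        rw [h2] at this
        linear_combination -this)
      have h5 : ((∑ x, E x y : ℤ) : ZMod p) = 0 := by
        rw [h3]
        push_cast
        exact h4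
      obtain ⟨d, hd⟩ := (ZMod.intCast_zmod_eq_zero_iff_dvd _ _).1 h5
      exact ⟨J y * d, by rw [hd]; ring⟩
    · exact ⟨0, by rw [hJ, if_neg h2]; ring⟩
  choose d hd using hEy
  have hρU : ∑ c : ZMod p, ∑ x, r c x = ∑ x, I x := by
    rw [Finset.sum_comm]
    refine Finset.sum_congr rfl fun x _ => ?_
    rw [hI]
    by_cases h1 : ft x = 0
    · rw [if_neg (by simpa using h1)]
      exact Finset.sum_eq_zero fun c _ => by rw [hr]; simp [h1]
    · rw [if_pos h1, Finset.sum_eq_single (fB x / ft x)]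
      · rw [hr, if_pos ⟨h1, by field_simp⟩]
      · intro c _ hc
        rw [hr, if_neg]
        rintro ⟨_, h⟩
        apply hc
        rw [h]
        field_simp
      · simp
  have hK : 1 + ∑ c : ZMod p, k c = p * u := by
    have h1 : ∑ c : ZMod p, ∑ x, r c x = ∑ c : ZMod p, (1 + (p : ℤ) * k c) :=
      Finset.sum_congr rfl fun c _ => hk c
    rw [Finset.sum_add_distrib, ← Finset.mul_sum, hρU, hu] at h1
    simp only [Finset.sum_const, Finset.card_univ, ZMod.card, nsmul_eq_mul, mul_one] at h1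
    have hp : (p : ℤ) ≠ 0 := by exact_mod_cast (Fact.out : p.Prime).ne_zero
    apply mul_left_cancel₀ hp
    linear_combination -h1
  have hKn : ∑ c : ZMod p, k (-c) = ∑ c : ZMod p, k c := by
    exact Equiv.sum_comp (Equiv.neg (ZMod p)) k
  have hS : ∑ c : ZMod p, (∑ x, r c x) * (∑ y, r (-c) y) =
      p + 2 * p * (∑ c : ZMod p, k c) + (p : ℤ) ^ 2 * ∑ c : ZMod p, k c * k (-c) := by
    have h1 : ∀ c : ZMod p, (∑ x, r c x) * (∑ y, r (-c) y) =
        1 + p * k c + p * k (-c) + (p : ℤ) ^ 2 * (k c * k (-c)) := by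
      intro c
      rw [hk, hk]
      ring
    rw [Finset.sum_congr rfl fun c _ => h1 c]
    simp only [Finset.sum_add_distrib, ← Finset.mul_sum, hKn, Finset.sum_const, Finset.card_univ,
      ZMod.card, nsmul_eq_mul, mul_one]
    ring
  -- the sum
  have hsum : ∑ x, ∑ y, NN (ft x) (f5 x) (f7 x) (fB x) (fn x) (ft y) (f5 y) (f7 y) (fB y) (fn y) =
      ((p : ℤ) - 1) * ((∑ x, I x) * (∑ y, I y)) +
        p * (∑ c : ZMod p, (∑ x, r c x) * (∑ y, r (-c) y)) +
        p * ((∑ x, m x) * (∑ y, I y)) + p * ((∑ x, I x) * (∑ y, m y)) +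
        (p : ℤ) ^ 2 * (∑ y, J y * ∑ x, E x y) := by
    rw [Finset.sum_congr rfl fun x _ => Finset.sum_congr rfl fun y _ => hpt x y]
    simp only [Finset.sum_add_distrib]
    have e1 : ∑ x, ∑ y, ((p : ℤ) - 1) * (I x * I y) =
        ((p : ℤ) - 1) * ((∑ x, I x) * (∑ y, I y)) := by
      rw [Finset.sum_mul_sum]
      simp only [Finset.mul_sum]
    have e2 : ∑ x, ∑ y, (p : ℤ) * (∑ c : ZMod p, r c x * r (-c) y) =
        p * (∑ c : ZMod p, (∑ x, r c x) * (∑ y, r (-c) y)) := by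
      simp only [← Finset.mul_sum]
      congr 1
      rw [Finset.sum_congr rfl fun x (_ : x ∈ Finset.univ) =>
        Finset.sum_comm (s := Finset.univ) (t := Finset.univ) (f := fun y c => r c x * r (-c) y)]
      rw [Finset.sum_comm]
      refine Finset.sum_congr rfl fun c _ => ?_
      rw [Finset.sum_mul_sum]
    have e3 : ∑ x, ∑ y, (p : ℤ) * (m x * I y) = p * ((∑ x, m x) * (∑ y, I y)) := by
      rw [Finset.sum_mul_sum]
      simp only [Finset.mul_sum]
    have e4 : ∑ x, ∑ y, (p : ℤ) * (I x * m y) = p * ((∑ x, I x) * (∑ y, m y)) := by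
      rw [Finset.sum_mul_sum]
      simp only [Finset.mul_sum]
    have e5 : ∑ x, ∑ y, (p : ℤ) ^ 2 * (J y * E x y) = (p : ℤ) ^ 2 * (∑ y, J y * ∑ x, E x y) := by
      rw [Finset.sum_comm]
      simp only [Finset.mul_sum]
    rw [e1, e2, e3, e4, e5]
  have hfin : (Nat.card {z : A × A × ZMod p × ZMod p //
      psi (ft z.1) (f5 z.1) (f7 z.1) (fB z.1) (fn z.1) (ft z.2.1) (f5 z.2.1) (f7 z.2.1) (fB z.2.1)
        (fn z.2.1) z.2.2.1 z.2.2.2 = 0} : ℤ) + (p : ℤ) ^ 2 = (p : ℤ) ^ 3 *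
      (((p : ℤ) - 1) * p * u ^ 2 + 2 * u + (∑ c : ZMod p, k c * k (-c)) +
        2 * u * (∑ x, m x) + ∑ y, d y) := by
    rw [hT, hsum, hS, hu, Finset.sum_congr rfl fun y _ => hd y, ← Finset.mul_sum]
    linear_combination (2 * (p : ℤ) ^ 2) * hK
  have hdvd : p ^ 3 ∣ Nat.card {z : A × A × ZMod p × ZMod p //
      psi (ft z.1) (f5 z.1) (f7 z.1) (fB z.1) (fn z.1) (ft z.2.1) (f5 z.2.1) (f7 z.2.1) (fB z.2.1)
        (fn z.2.1) z.2.2.1 z.2.2.2 = 0} + p ^ 2 := by
    rw [← Int.natCast_dvd_natCast]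
    push_cast
    exact ⟨_, hfin⟩
  exact hdvd

end MP06b.CX
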