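import Mathlib

/-! # MP_06b34c, counterexample: the graph

`HX` has the vertices 0..14 and 28 edges: a left half (13 edges, inner vertices 0,9,10,2,12,
terminals 5,7,13), a right half (13 edges, inner vertices 4,14,3,1,11, terminals 8,6,13) and the
edges 5-6, 7-8. It is the graph `GX` (vertices 0..15) without the vertex 15, which is adjacent to
1, 2, 11, 12. -/

namespace MP06b.CX

/-- the edges of the left half -/
def endsL : Fin 13 → Sym2 (Fin 15) :=
  ![s(5, 7), s(5, 10), s(7, 10), s(9, 13), s(12, 13), s(12, 0), s(12, 10), s(7, 0), s(2, 10),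
    s(5, 9), s(2, 0), s(2, 9), s(0, 9)]

/-- the edges of the right half -/
def endsR : Fin 13 → Sym2 (Fin 15) :=
  ![s(8, 6), s(8, 3), s(6, 3), s(14, 13), s(11, 13), s(11, 4), s(11, 3), s(6, 4), s(1, 3),
    s(8, 14), s(1, 4), s(1, 14), s(4, 14)]

/-- the edges -/
def ends : Fin 13 ⊕ Fin 13 ⊕ Fin 2 → Sym2 (Fin 15) :=
  Sum.elim endsL (Sum.elim endsR ![s(5, 6), s(7, 8)])

theorem ends_inj : Function.Injective ends := by
  decide

theorem ends_diag (i : Fin 13 ⊕ Fin 13 ⊕ Fin 2) : ¬ (ends i).IsDiag := by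
  revert i
  decide

/-- the graph -/
def HX : SimpleGraph (Fin 15) := SimpleGraph.fromEdgeSet (Set.range ends)

end MP06b.CX
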