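import Mathlib

/-! # MP_06b34c, counterexample: the algebra of forests

`Q V R` is the commutative ring generated over `R` by elements `J R e` (`e` a pair of vertices,
`e : Sym2 V`) with the relations `J s(v,v) = 0` and `J s(u,v) J s(v,w) = J s(u,w) J s(v,w)`.
For a finite set `A` of vertices `tau A : Q V R → R` is the `R`-linear form whose value at a product
of `J`'s is 1 if these edges form a spanning tree of `A`, and 0 otherwise (`tau_prod`).
`Free v` is the subalgebra generated by the `J e` with `v ∉ e`.

Proofs. A multiset `m` of edges is a spanning tree of `A` (`TreeOn A m`) iff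
`card m + 1 = card A`, all ends are in `A`, and any two vertices of `A` are connected
(`Conn m x y`, the equivalence relation generated by the edges).
* `tau` on `MvPolynomial (Sym2 V) R`: the linear form given on the basis of monomials
  (`MvPolynomial.basisMonomials`, `Basis.constr`, or `Finsupp.lsum`) by
  `m ↦ if TreeOn A (Finsupp.toMultiset m) then 1 else 0`. It vanishes on the ideal spanned by the
  relations: by linearity it suffices to take a monomial times a relation. For `s(v,v) ∷ m` not a
  tree: a set `A` connected by a multiset `m'` of edges has `card A ≤ card m' + 1`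
  (`card_le_of_conn`), and a loop can be removed without changing `Conn`.
  For the second relation: `Conn (s(u,v) ∷ s(v,w) ∷ m) = Conn (s(u,w) ∷ s(v,w) ∷ m)`, and
  the set of ends is the same.
* `tau_elim0`: an element of `Free v` is a linear combination of products of `J e` with `v ∉ e`
  (`Algebra.adjoin_eq_span` and `Submonoid.closure_induction`), and such an edge set does not
  connect `v` with another vertex of `A`.
* `tau_elim1`: for an edge set `m` without `v`: `TreeOn A (s(v,u) ∷ m) ↔ TreeOn (A.erase v) m`.
  For the connectivity use the map that sends `v` to `u` and fixes all the other vertices.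
-/

namespace MP06b.CX

open MvPolynomial

/-- the relations -/
def rels (V : Type*) (R : Type*) [CommRing R] : Set (MvPolynomial (Sym2 V) R) :=
  {x | (∃ v : V, x = X s(v, v)) ∨
    ∃ u v w : V, x = X s(u, v) * X s(v, w) - X s(u, w) * X s(v, w)}

/-- the algebra of forests -/
abbrev Q (V : Type*) (R : Type*) [CommRing R] : Type _ :=
  MvPolynomial (Sym2 V) R ⧸ Ideal.span (rels V R)

section
variable {V : Type*} {R : Type*} [CommRing R]

/-- the element of an edge -/
noncomputable def J (R : Type*) [CommRing R] (e : Sym2 V) : Q V R :=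
  Ideal.Quotient.mk (Ideal.span (rels V R)) (X e)

theorem J_self (v : V) : J R s(v, v) = 0 :=
  Ideal.Quotient.eq_zero_iff_mem.2 (Ideal.subset_span (Or.inl ⟨v, rfl⟩))

theorem J_tri (u v w : V) : J R s(u, v) * J R s(v, w) = J R s(u, w) * J R s(v, w) := by
  unfold J
  rw [← map_mul, ← map_mul]
  exact Ideal.Quotient.eq.2 (Ideal.subset_span (Or.inr ⟨u, v, w, rfl⟩))

/-- the subalgebra generated by the edges without `v` -/
noncomputable def Free (R : Type*) [CommRing R] (v : V) : Subalgebra R (Q V R) :=
  Algebra.adjoin R {x | ∃ e : Sym2 V, v ∉ e ∧ x = J R e}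

theorem Free_J (v : V) (e : Sym2 V) (h : v ∉ e) : J R e ∈ Free R v :=
  Algebra.subset_adjoin ⟨e, h, rfl⟩

/-- the equivalence relation generated by the edges -/
def Conn (m : Multiset (Sym2 V)) (x y : V) : Prop :=
  Relation.EqvGen (fun a b => s(a, b) ∈ m) x y

/-- the edges in `m` form a spanning tree of `A` -/
def TreeOn (A : Finset V) (m : Multiset (Sym2 V)) : Prop :=
  Multiset.card m + 1 = A.card ∧ (∀ e ∈ m, ∀ x ∈ e, x ∈ A) ∧ ∀ x ∈ A, ∀ y ∈ A, Conn m x y

private theorem Conn.lift' {m m' : Multiset (Sym2 V)} (f : V → V)
    (h : ∀ a b, s(a, b) ∈ m → Conn m' (f a) (f b)) {x y : V} (hc : Conn m x y) :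
    Conn m' (f x) (f y) := by
  induction hc with
  | rel a b hab => exact h a b hab
  | refl a => exact Relation.EqvGen.refl _
  | symm a b _ ih => exact Relation.EqvGen.symm _ _ ih
  | trans a b c _ _ ih1 ih2 => exact Relation.EqvGen.trans _ _ _ ih1 ih2

private theorem Conn.mono' {m m' : Multiset (Sym2 V)} (h : ∀ a b, s(a, b) ∈ m → Conn m' a b)
    {x y : V} (hc : Conn m x y) : Conn m' x y := Conn.lift' id h hc

private theorem Conn.of_mem {m : Multiset (Sym2 V)} {x y : V} (h : s(x, y) ∈ m) : Conn m x y :=
  Relation.EqvGen.rel _ _ h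

private theorem Conn.symm' {m : Multiset (Sym2 V)} {x y : V} (h : Conn m x y) : Conn m y x :=
  Relation.EqvGen.symm _ _ h

private theorem Conn.trans' {m : Multiset (Sym2 V)} {x y z : V} (h : Conn m x y)
    (h' : Conn m y z) : Conn m x z := Relation.EqvGen.trans _ _ _ h h'

private theorem card_le_aux [DecidableEq V] (n : ℕ) : ∀ (A : Finset V) (m : Multiset (Sym2 V)),
    Multiset.card m = n → (∀ x ∈ A, ∀ y ∈ A, Conn m x y) → A.card ≤ n + 1 := by
  induction n with
  | zero =>
    intro A m hm h
    rw [Multiset.card_eq_zero] at hm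
    subst hm
    have : A.card ≤ 1 := by
      rw [Finset.card_le_one]
      intro x hx y hy
      have h1 : ∀ {a b : V}, Conn (0 : Multiset (Sym2 V)) a b → a = b := by
        intro a b hc
        induction hc with
        | rel a b hab => exact absurd hab (Multiset.notMem_zero _)
        | refl a => rfl
        | symm a b _ ih => exact ih.symm
        | trans a b c _ _ ih1 ih2 => exact ih1.trans ih2
      exact h1 (h x hx y hy)
    omega
  | succ n ih =>
    intro A m hm h
    obtain ⟨e, m', rfl⟩ : ∃ e m', m = e ::ₘ m' := by
      obtain ⟨e, he⟩ := Multiset.card_pos_iff_exists_mem.1 (by rw [hm]; omega : 0 < Multiset.card m)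
      exact ⟨e, Multiset.exists_cons_of_mem he |>.choose, Multiset.exists_cons_of_mem he |>.choose_spec⟩
    induction e with
    | _ u v =>
    rw [Multiset.card_cons] at hm
    set f : V → V := fun x => if x = u then v else x with hf
    have h1 : ∀ {x y : V}, Conn (s(u, v) ::ₘ m') x y → Conn (m'.map (Sym2.map f)) (f x) (f y) := by
      intro x y hc
      refine Conn.lift' f ?_ hc
      intro a b hab
      rw [Multiset.mem_cons] at hab
      rcases hab with hab | hab
      · have : f a = f b := by
          rw [Sym2.eq_iff] at hab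
          rcases hab with ⟨rfl, rfl⟩ | ⟨rfl, rfl⟩
          · simp only [hf, if_true]
            split_ifs <;> rfl
          · simp only [hf, if_true]
            split_ifs <;> rfl
        rw [this]
        exact Relation.EqvGen.refl _
      · apply Conn.of_mem
        rw [Multiset.mem_map]
        exact ⟨s(a, b), hab, rfl⟩
    have h2 := ih (A.image f) (m'.map (Sym2.map f)) (by rw [Multiset.card_map]; omega) (by
      intro x hx y hy
      rw [Finset.mem_image] at hx hy
      obtain ⟨x', hx', rfl⟩ := hx
      obtain ⟨y', hy', rfl⟩ := hy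
      exact h1 (h x' hx' y' hy'))
    have h3 : (A.erase u).card ≤ (A.image f).card := by
      have h4 : ((A.erase u).image f).card = (A.erase u).card := by
        apply Finset.card_image_of_injOn
        intro x hx y hy hxy
        have hx' : x ≠ u := (Finset.mem_erase.1 (Finset.mem_coe.1 hx)).1
        have hy' : y ≠ u := (Finset.mem_erase.1 (Finset.mem_coe.1 hy)).1
        simp only [hf, if_neg hx', if_neg hy'] at hxy
        exact hxy
      rw [← h4]
      exact Finset.card_le_card (Finset.image_subset_image (Finset.erase_subset _ _))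
    have h5 : A.card ≤ (A.erase u).card + 1 := by
      have := Finset.pred_card_le_card_erase (s := A) (a := u)
      omega
    omega

theorem card_le_of_conn [DecidableEq V] (A : Finset V) (m : Multiset (Sym2 V))
    (h1 : ∀ e ∈ m, ∀ x ∈ e, x ∈ A) (h2 : ∀ x ∈ A, ∀ y ∈ A, Conn m x y) :
    A.card ≤ Multiset.card m + 1 :=
  card_le_aux _ A m rfl h2

private theorem tree_loop [DecidableEq V] (A : Finset V) (m : Multiset (Sym2 V)) (v : V) :
    ¬ TreeOn A (s(v, v) ::ₘ m) := by
  rintro ⟨h1, h2, h3⟩
  have h4 := card_le_of_conn A m (fun e he => h2 e (Multiset.mem_cons_of_mem he)) (by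
    intro x hx y hy
    refine Conn.mono' ?_ (h3 x hx y hy)
    intro a b hab
    rw [Multiset.mem_cons] at hab
    rcases hab with hab | hab
    · rw [Sym2.eq_iff] at hab
      have : a = b := by
        rcases hab with ⟨rfl, rfl⟩ | ⟨rfl, rfl⟩ <;> rfl
      rw [this]
      exact Relation.EqvGen.refl _
    · exact Conn.of_mem hab)
  rw [Multiset.card_cons] at h1
  omega

private theorem tree_tri' [DecidableEq V] (A : Finset V) (m : Multiset (Sym2 V)) (u v w : V)
    (h : TreeOn A (s(u, v) ::ₘ s(v, w) ::ₘ m)) : TreeOn A (s(u, w) ::ₘ s(v, w) ::ₘ m) := by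
  obtain ⟨h1, h2, h3⟩ := h
  refine ⟨?_, ?_, ?_⟩
  · rw [Multiset.card_cons] at h1 ⊢
    exact h1
  · intro e he x hx
    rw [Multiset.mem_cons] at he
    rcases he with rfl | he
    · rw [Sym2.mem_iff] at hx
      rcases hx with rfl | rfl
      · exact h2 s(x, v) (Multiset.mem_cons_self _ _) x (Sym2.mem_mk_left _ _)
      · exact h2 s(v, x) (Multiset.mem_cons_of_mem (Multiset.mem_cons_self _ _)) x
          (Sym2.mem_mk_right _ _)
    · exact h2 e (Multiset.mem_cons_of_mem he) x hx
  · intro x hx y hy
    refine Conn.mono' ?_ (h3 x hx y hy)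
    have hvw : Conn (s(u, w) ::ₘ s(v, w) ::ₘ m) v w :=
      Conn.of_mem (Multiset.mem_cons_of_mem (Multiset.mem_cons_self _ _))
    have huw : Conn (s(u, w) ::ₘ s(v, w) ::ₘ m) u w := Conn.of_mem (Multiset.mem_cons_self _ _)
    have huv : Conn (s(u, w) ::ₘ s(v, w) ::ₘ m) u v := huw.trans' hvw.symm'
    intro a b hab
    rw [Multiset.mem_cons] at hab
    rcases hab with hab | hab
    · rw [Sym2.eq_iff] at hab
      rcases hab with ⟨rfl, rfl⟩ | ⟨rfl, rfl⟩
      · exact huv
      · exact huv.symm'
    · exact Conn.of_mem (Multiset.mem_cons_of_mem hab)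

private theorem tree_tri [DecidableEq V] (A : Finset V) (m : Multiset (Sym2 V)) (u v w : V) :
    TreeOn A (s(u, v) ::ₘ s(v, w) ::ₘ m) ↔ TreeOn A (s(u, w) ::ₘ s(v, w) ::ₘ m) := by
  refine ⟨tree_tri' A m u v w, fun h => ?_⟩
  have e1 : (s(w, v) : Sym2 V) = s(v, w) := Sym2.eq_swap
  have h1 : TreeOn A (s(u, w) ::ₘ s(w, v) ::ₘ m) := by
    rw [e1]
    exact h
  have h2 := tree_tri' A m u w v h1
  rw [e1] at h2
  exact h2

open Classical in
private noncomputable def tau0 (R : Type*) [CommRing R] (A : Finset V) :
    MvPolynomial (Sym2 V) R →ₗ[R] R :=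
  (MvPolynomial.basisMonomials (Sym2 V) R).constr R
    (fun m => if TreeOn A (Finsupp.toMultiset m) then 1 else 0)

open Classical in
private theorem tau0_monomial (A : Finset V) (m : Sym2 V →₀ ℕ) (r : R) :
    tau0 R A (monomial m r) = r * if TreeOn A (Finsupp.toMultiset m) then 1 else 0 := by
  have h1 : (monomial m r : MvPolynomial (Sym2 V) R) = r • monomial m 1 := by
    rw [smul_monomial, smul_eq_mul, mul_one]
  have h2 : (monomial m 1 : MvPolynomial (Sym2 V) R) = MvPolynomial.basisMonomials (Sym2 V) R m := by
    rw [coe_basisMonomials]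
  rw [h1, map_smul, h2]
  unfold tau0
  rw [Module.Basis.constr_basis, smul_eq_mul]

private theorem tau0_mul_rel [DecidableEq V] (A : Finset V) (x : MvPolynomial (Sym2 V) R)
    (hx : x ∈ rels V R) (q : MvPolynomial (Sym2 V) R) : tau0 R A (q * x) = 0 := by
  induction q using MvPolynomial.induction_on' with
  | add p q hp hq => rw [add_mul, map_add, hp, hq, add_zero]
  | monomial m r =>
    rcases hx with ⟨v, rfl⟩ | ⟨u, v, w, rfl⟩
    · have e1 : (monomial m r * X s(v, v) : MvPolynomial (Sym2 V) R) =
          monomial (m + Finsupp.single s(v, v) 1) r := by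
        rw [X, monomial_mul, mul_one]
      rw [e1, tau0_monomial, if_neg, mul_zero]
      rw [map_add, Finsupp.toMultiset_single, one_smul, add_comm, Multiset.singleton_add]
      exact tree_loop A _ v
    · have e1 : (monomial m r * (X s(u, v) * X s(v, w) - X s(u, w) * X s(v, w)) :
          MvPolynomial (Sym2 V) R) =
          monomial (m + (Finsupp.single s(u, v) 1 + Finsupp.single s(v, w) 1)) r -
          monomial (m + (Finsupp.single s(u, w) 1 + Finsupp.single s(v, w) 1)) r := by
        rw [mul_sub]
        simp only [X, monomial_mul, mul_one]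
      rw [e1, map_sub, tau0_monomial, tau0_monomial, ← mul_sub]
      have e2 : ∀ a b : Sym2 V, Finsupp.toMultiset (m + (Finsupp.single a 1 + Finsupp.single b 1)) =
          a ::ₘ b ::ₘ Finsupp.toMultiset m := by
        intro a b
        rw [map_add, map_add, Finsupp.toMultiset_single, Finsupp.toMultiset_single, one_smul,
          one_smul, add_comm, add_assoc, Multiset.singleton_add, Multiset.singleton_add]
      rw [e2, e2]
      have e3 := tree_tri A (Finsupp.toMultiset m) u v w
      by_cases h : TreeOn A (s(u, v) ::ₘ s(v, w) ::ₘ Finsupp.toMultiset m)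
      · rw [if_pos h, if_pos (e3.1 h), sub_self, mul_zero]
      · rw [if_neg h, if_neg (fun h' => h (e3.2 h')), sub_self, mul_zero]

private theorem tau0_ideal [DecidableEq V] (A : Finset V) (x : MvPolynomial (Sym2 V) R)
    (hx : x ∈ Ideal.span (rels V R)) : tau0 R A x = 0 := by
  have key : ∀ q : MvPolynomial (Sym2 V) R, tau0 R A (q * x) = 0 := by
    induction hx using Submodule.span_induction with
    | mem x hx => exact fun q => tau0_mul_rel A x hx q
    | zero =>
      intro q
      rw [mul_zero, map_zero]
    | add x y _ _ hx hy =>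
      intro q
      rw [mul_add, map_add, hx, hy, add_zero]
    | smul a x _ hx =>
      intro q
      rw [smul_eq_mul, ← mul_assoc]
      exact hx _
  have := key 1
  rwa [one_mul] at this

/-- the linear form -/
noncomputable def tau [DecidableEq V] (A : Finset V) : Q V R →ₗ[R] R :=
  (Submodule.liftQ ((Ideal.span (rels V R)).restrictScalars R) (tau0 R A) (fun x hx => by
    rw [LinearMap.mem_ker]
    exact tau0_ideal A x hx)) ∘ₗ
    (Submodule.Quotient.restrictScalarsEquiv R (Ideal.span (rels V R))).symm.toLinearMap

private theorem tau_mk [DecidableEq V] (A : Finset V) (x : MvPolynomial (Sym2 V) R) :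
    tau A (Ideal.Quotient.mk (Ideal.span (rels V R)) x) = tau0 R A x := rfl

private theorem prod_J (m : Multiset (Sym2 V)) :
    (m.map (J R)).prod = Ideal.Quotient.mk (Ideal.span (rels V R))
      (m.map (X : Sym2 V → MvPolynomial (Sym2 V) R)).prod := by
  rw [map_multiset_prod, Multiset.map_map]
  rfl

open Classical in
private theorem tau0_prod (A : Finset V) (m : Multiset (Sym2 V)) :
    tau0 R A (m.map (X : Sym2 V → MvPolynomial (Sym2 V) R)).prod =
      if TreeOn A m then 1 else 0 := by
  have h1 : (m.map (X : Sym2 V → MvPolynomial (Sym2 V) R)).prod =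
      monomial (Multiset.toFinsupp m) 1 := by
    induction m using Multiset.induction_on with
    | empty => simp
    | cons a m ih =>
      rw [Multiset.map_cons, Multiset.prod_cons, ih, X, monomial_mul, one_mul,
        ← Multiset.singleton_add, map_add, Multiset.toFinsupp_singleton]
  rw [h1, tau0_monomial, one_mul, Multiset.toFinsupp_toMultiset]

open Classical in
theorem tau_prod [DecidableEq V] (A : Finset V) (m : Multiset (Sym2 V)) :
    tau A ((m.map (J R)).prod) = if TreeOn A m then 1 else 0 := by
  rw [prod_J, tau_mk, tau0_prod]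

theorem tau_one [DecidableEq V] (x : V) : tau {x} (1 : Q V R) = 1 := by
  have h := tau_prod (R := R) {x} (0 : Multiset (Sym2 V))
  rw [Multiset.map_zero, Multiset.prod_zero] at h
  rw [h, if_pos]
  refine ⟨by simp, fun e he => absurd he (Multiset.notMem_zero _), ?_⟩
  intro a ha b hb
  rw [Finset.mem_singleton] at ha hb
  rw [ha, hb]
  exact Relation.EqvGen.refl _

private theorem free_induction (v : V) {P : Q V R → Prop}
    (h0 : P 0) (hadd : ∀ x y, P x → P y → P (x + y)) (hsmul : ∀ (r : R) x, P x → P (r • x))
    (hprod : ∀ m : Multiset (Sym2 V), (∀ e ∈ m, v ∉ e) → P (m.map (J R)).prod)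
    (ξ : Q V R) (hξ : ξ ∈ Free R v) : P ξ := by
  have h2 : ∀ x ∈ Submonoid.closure {x : Q V R | ∃ e : Sym2 V, v ∉ e ∧ x = J R e},
      ∃ m : Multiset (Sym2 V), (∀ e ∈ m, v ∉ e) ∧ x = (m.map (J R)).prod := by
    intro x hx
    induction hx using Submonoid.closure_induction with
    | mem x hx =>
      obtain ⟨e, he, rfl⟩ := hx
      refine ⟨{e}, ?_, by simp⟩
      intro e' he'
      rw [Multiset.mem_singleton] at he'
      rw [he']
      exact he
    | one => exact ⟨0, fun e he => absurd he (Multiset.notMem_zero _), by simp⟩
    | mul x y _ _ hx hy =>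
      obtain ⟨m, hm, rfl⟩ := hx
      obtain ⟨m', hm', rfl⟩ := hy
      refine ⟨m + m', ?_, by rw [Multiset.map_add, Multiset.prod_add]⟩
      intro e he
      rw [Multiset.mem_add] at he
      rcases he with he | he
      · exact hm e he
      · exact hm' e he
  have h1 : ξ ∈ Submodule.span R
      (Submonoid.closure {x : Q V R | ∃ e : Sym2 V, v ∉ e ∧ x = J R e} : Set (Q V R)) := by
    rw [← Algebra.adjoin_eq_span]
    exact hξ
  clear hξ
  induction h1 using Submodule.span_induction with
  | mem x hx =>
    obtain ⟨m, hm, rfl⟩ := h2 x hx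
    exact hprod m hm
  | zero => exact h0
  | add x y _ _ hx hy => exact hadd x y hx hy
  | smul r x _ hx => exact hsmul r x hx

private theorem conn_isolated {m : Multiset (Sym2 V)} {v : V} (hm : ∀ e ∈ m, v ∉ e) {x y : V}
    (hc : Conn m x y) : x = v ↔ y = v := by
  induction hc with
  | rel a b hab =>
    have h1 := hm _ hab
    rw [Sym2.mem_iff, not_or] at h1
    exact ⟨fun h => absurd h.symm h1.1, fun h => absurd h.symm h1.2⟩
  | refl a => rfl
  | symm a b _ ih => exact ih.symm
  | trans a b c _ _ ih1 ih2 => exact ih1.trans ih2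

theorem tau_elim0 [DecidableEq V] (A : Finset V) (v : V) (hv : v ∈ A) (hA : 2 ≤ A.card)
    (ξ : Q V R) (hξ : ξ ∈ Free R v) : tau A ξ = 0 := by
  refine free_induction v (P := fun ξ => tau A ξ = 0) ?_ ?_ ?_ ?_ ξ hξ
  · exact map_zero _
  · intro x y hx hy
    rw [map_add, hx, hy, add_zero]
  · intro r x hx
    rw [map_smul, hx, smul_zero]
  · intro m hm
    rw [tau_prod, if_neg]
    rintro ⟨_, _, h3⟩
    obtain ⟨y, hy, hyv⟩ : ∃ y ∈ A, y ≠ v := by
      by_contra hcon
      push Not at hcon
      have h4 : A ⊆ {v} := fun y hy => by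
        rw [Finset.mem_singleton]
        exact hcon y hy
      have := Finset.card_le_card h4
      rw [Finset.card_singleton] at this
      omega
    exact hyv ((conn_isolated hm (h3 v hv y hy)).1 rfl)

theorem tau_elim1 [DecidableEq V] (A : Finset V) (v u : V) (hv : v ∈ A) (hu : u ∈ A)
    (huv : u ≠ v) (ξ : Q V R) (hξ : ξ ∈ Free R v) :
    tau A (J R s(v, u) * ξ) = tau (A.erase v) ξ := by
  refine free_induction v (P := fun ξ => tau A (J R s(v, u) * ξ) = tau (A.erase v) ξ)
    ?_ ?_ ?_ ?_ ξ hξ
  · rw [mul_zero, map_zero, map_zero]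
  · intro x y hx hy
    rw [mul_add, map_add, map_add, hx, hy]
  · intro r x hx
    rw [mul_smul_comm, map_smul, map_smul, hx]
  · intro m hm
    have h1 : J R s(v, u) * (m.map (J R)).prod = ((s(v, u) ::ₘ m).map (J R)).prod := by
      rw [Multiset.map_cons, Multiset.prod_cons]
    rw [h1, tau_prod, tau_prod]
    have key : TreeOn A (s(v, u) ::ₘ m) ↔ TreeOn (A.erase v) m := by
      constructor
      · rintro ⟨t1, t2, t3⟩
        refine ⟨?_, ?_, ?_⟩
        · rw [Multiset.card_cons] at t1
          rw [Finset.card_erase_of_mem hv]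
          omega
        · intro e he x hx
          rw [Finset.mem_erase]
          refine ⟨?_, t2 e (Multiset.mem_cons_of_mem he) x hx⟩
          rintro rfl
          exact hm e he hx
        · intro x hx y hy
          rw [Finset.mem_erase] at hx hy
          have h2 : Conn m (if x = v then u else x) (if y = v then u else y) := by
            refine Conn.lift' (fun z => if z = v then u else z) ?_ (t3 x hx.2 y hy.2)
            intro a b hab
            rw [Multiset.mem_cons] at hab
            rcases hab with hab | hab
            · have : (if a = v then u else a) = if b = v then u else b := by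
                rw [Sym2.eq_iff] at hab
                rcases hab with ⟨rfl, rfl⟩ | ⟨rfl, rfl⟩
                · rw [if_pos rfl, if_neg huv]
                · rw [if_pos rfl, if_neg huv]
              rw [this]
              exact Relation.EqvGen.refl _
            · have h3 := hm _ hab
              rw [Sym2.mem_iff, not_or] at h3
              rw [if_neg (Ne.symm h3.1), if_neg (Ne.symm h3.2)]
              exact Conn.of_mem hab
          rwa [if_neg hx.1, if_neg hy.1] at h2
      · rintro ⟨t1, t2, t3⟩
        refine ⟨?_, ?_, ?_⟩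
        · rw [Multiset.card_cons]
          rw [Finset.card_erase_of_mem hv] at t1
          have : 0 < A.card := Finset.card_pos.2 ⟨v, hv⟩
          omega
        · intro e he x hx
          rw [Multiset.mem_cons] at he
          rcases he with rfl | he
          · rw [Sym2.mem_iff] at hx
            rcases hx with rfl | rfl
            · exact hv
            · exact hu
          · exact (Finset.mem_erase.1 (t2 e he x hx)).2
        · have h2 : ∀ x ∈ A, Conn (s(v, u) ::ₘ m) x u := by
            intro x hx
            by_cases hxv : x = v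
            · rw [hxv]
              exact Conn.of_mem (Multiset.mem_cons_self _ _)
            · refine Conn.mono' ?_ (t3 x (Finset.mem_erase.2 ⟨hxv, hx⟩) u
                (Finset.mem_erase.2 ⟨huv, hu⟩))
              intro a b hab
              exact Conn.of_mem (Multiset.mem_cons_of_mem hab)
          intro x hx y hy
          exact (h2 x hx).trans' (h2 y hy).symm'
    by_cases h : TreeOn A (s(v, u) ::ₘ m)
    · rw [if_pos h, if_pos (key.1 h)]
    · rw [if_neg h, if_neg (fun h' => h (key.2 h'))]

end

end MP06b.CX
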