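import Pool.Agent.Lib.MP_06b34c_co.CX.LeftRing
import Pool.Agent.Lib.MP_06b34c_co.CX.Tau

/-! # MP_06b34c, counterexample: elimination of the inner vertices of one half

The inner vertices are eliminated in the order `v2, vd, v9, v0, va`. In each step the product is
written as `(c_0 + sum over the edges e at v of J e * c_e) * ξ` with all `c`'s and `ξ` free of `v`
(the ring identities are in `LeftRing`), and `elim4` replaces it by `(sum of the c_e) * ξ`.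
The computation is done in an abstract commutative algebra `S` with a family of linear forms. -/

namespace MP06b.CX

open Finset

section abs
variable {V : Type*} {R S : Type*} [CommRing R] [CommRing S] [Algebra R S]

/-- abstract version of the algebra of forests -/
structure Forest (V R S : Type*) [DecidableEq V] [CommRing R] [CommRing S] [Algebra R S] where
  j : Sym2 V → S
  F : V → Subalgebra R S
  T : Finset V → S →ₗ[R] R
  rel : ∀ a b c : V, j s(a, b) * j s(a, c) = j s(a, b) * j s(b, c)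
  slf : ∀ a : V, j s(a, a) = 0
  fj : ∀ (x : V) (e : Sym2 V), x ∉ e → j e ∈ F x
  elim0 : ∀ (A : Finset V) (v : V), v ∈ A → 2 ≤ A.card → ∀ ξ ∈ F v, T A ξ = 0
  elim1 : ∀ (A : Finset V) (v u : V), v ∈ A → u ∈ A → u ≠ v → ∀ ξ ∈ F v,
    T A (j s(v, u) * ξ) = T (A.erase v) ξ

variable [DecidableEq V] (W : Forest V R S)

/-- the product over the 13 edges, abstract version -/
def Forest.leftProd (w5 w7 wB v0 v9 va v2 vd : V) (w : Fin 13 → S) : S :=
  (w 0 + W.j s(w5, w7)) * (w 1 + W.j s(w5, va)) *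
  (w 2 + W.j s(w7, va)) * (w 3 + W.j s(v9, wB)) *
  (w 4 + W.j s(vd, wB)) * (w 5 + W.j s(vd, v0)) *
  (w 6 + W.j s(vd, va)) * (w 7 + W.j s(w7, v0)) *
  (w 8 + W.j s(v2, va)) * (w 9 + W.j s(w5, v9)) *
  (w 10 + W.j s(v2, v0)) * (w 11 + W.j s(v2, v9)) *
  (w 12 + W.j s(v0, v9))

theorem Forest.rel' (e1 e2 e3 : Sym2 V) (a b c : V) (h1 : e1 = s(a, b)) (h2 : e2 = s(a, c))
    (h3 : e3 = s(b, c)) : W.j e1 * W.j e2 = W.j e1 * W.j e3 := by
  subst h1 h2 h3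
  exact W.rel a b c

theorem Forest.sq (e : Sym2 V) : W.j e * W.j e = 0 := by
  induction e using Sym2.ind with
  | _ a b =>
    have h := W.rel a b b
    rwa [W.slf, mul_zero] at h

theorem Forest.elim4 (A : Finset V) (v u1 u2 u3 u4 : V) (e1 e2 e3 e4 : Sym2 V)
    (he1 : e1 = s(v, u1)) (he2 : e2 = s(v, u2)) (he3 : e3 = s(v, u3)) (he4 : e4 = s(v, u4))
    (hv : v ∈ A)
    (h1 : u1 ∈ A) (h2 : u2 ∈ A) (h3 : u3 ∈ A) (h4 : u4 ∈ A) (n1 : u1 ≠ v) (n2 : u2 ≠ v)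
    (n3 : u3 ≠ v) (n4 : u4 ≠ v) (c0 c1 c2 c3 c4 ξ : S) (f0 : c0 ∈ W.F v)
    (f1 : c1 ∈ W.F v) (f2 : c2 ∈ W.F v) (f3 : c3 ∈ W.F v) (f4 : c4 ∈ W.F v)
    (fξ : ξ ∈ W.F v) :
    W.T A ((c0 + W.j e1 * c1 + W.j e2 * c2 + W.j e3 * c3 +
      W.j e4 * c4) * ξ) = W.T (A.erase v) ((c1 + c2 + c3 + c4) * ξ) := by
  subst he1 he2 he3 he4
  have hA : 2 ≤ A.card := by
    have : ({v, u1} : Finset V) ⊆ A := by
      intro x hx
      simp only [Finset.mem_insert, Finset.mem_singleton] at hx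
      rcases hx with rfl | rfl <;> assumption
    have h := Finset.card_le_card this
    rwa [Finset.card_pair n1.symm] at h
  simp only [add_mul, map_add, mul_assoc]
  rw [W.elim0 A v hv hA _ (mul_mem f0 fξ), W.elim1 A v u1 hv h1 n1 _ (mul_mem f1 fξ),
    W.elim1 A v u2 hv h2 n2 _ (mul_mem f2 fξ), W.elim1 A v u3 hv h3 n3 _ (mul_mem f3 fξ),
    W.elim1 A v u4 hv h4 n4 _ (mul_mem f4 fξ), zero_add]

theorem Forest.elim3 (A : Finset V) (v u1 u2 u3 : V) (e1 e2 e3 : Sym2 V)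
    (he1 : e1 = s(v, u1)) (he2 : e2 = s(v, u2)) (he3 : e3 = s(v, u3)) (hv : v ∈ A)
    (h1 : u1 ∈ A) (h2 : u2 ∈ A) (h3 : u3 ∈ A) (n1 : u1 ≠ v) (n2 : u2 ≠ v)
    (n3 : u3 ≠ v) (c0 c1 c2 c3 ξ : S) (f0 : c0 ∈ W.F v)
    (f1 : c1 ∈ W.F v) (f2 : c2 ∈ W.F v) (f3 : c3 ∈ W.F v)
    (fξ : ξ ∈ W.F v) :
    W.T A ((c0 + W.j e1 * c1 + W.j e2 * c2 + W.j e3 * c3) * ξ) =
      W.T (A.erase v) ((c1 + c2 + c3) * ξ) := by
  have h := W.elim4 A v u1 u2 u3 u3 e1 e2 e3 e3 he1 he2 he3 he3 hv h1 h2 h3 h3 n1 n2 n3 n3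
    c0 c1 c2 c3 0 ξ f0 f1 f2 f3 (zero_mem _) fξ
  rwa [mul_zero, add_zero, add_zero] at h

omit [DecidableEq V] in
theorem perm13 {S : Type*} [CommRing S] (a0 a1 a2 a3 a4 a5 a6 a7 a8 a9 a10 a11 a12 ξ : S) :
    a0 * a1 * a2 * a3 * a4 * a5 * a6 * a7 * a8 * a9 * a10 * a11 * a12 * ξ =
      (a10 * a11 * a8) * ((a5 * a6 * a4) * (a12 * ((a3 * a9) * (a7 * ((a1 * a2) * (a0 * ξ)))))) := by
  ring

theorem Forest.step1 (A : Finset V) (w5 w7 wB v0 v9 va v2 vd : V)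
    (A0 : v0 ∈ A) (A9 : v9 ∈ A) (Aa : va ∈ A) (A2 : v2 ∈ A)
    (n52 : w5 ≠ v2) (n72 : w7 ≠ v2) (nB2 : wB ≠ v2)
    (n02 : v0 ≠ v2) (n92 : v9 ≠ v2) (na2 : va ≠ v2) (n2d : v2 ≠ vd)
    (w : Fin 13 → S) (hwF : ∀ x i, w i ∈ W.F x) (ξ : S) (ξ2 : ξ ∈ W.F v2) :
    W.T A (W.leftProd w5 w7 wB v0 v9 va v2 vd w * ξ) = W.T (A.erase v2)
      (((w 11 + W.j s(v0, v9)) * (w 8 + W.j s(v0, va)) + w 10 * (w 8 + W.j s(v9, va)) +
        w 10 * w 11) *
      (((w 5 + W.j s(vd, v0)) * (w 6 + W.j s(vd, va)) * (w 4 + W.j s(vd, wB))) *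
      ((w 12 + W.j s(v0, v9)) * (((w 3 + W.j s(v9, wB)) * (w 9 + W.j s(w5, v9))) *
      ((w 7 + W.j s(w7, v0)) * (((w 1 + W.j s(w5, va)) * (w 2 + W.j s(w7, va))) *
      ((w 0 + W.j s(w5, w7)) * ξ))))))) := by
  have e0 : W.leftProd w5 w7 wB v0 v9 va v2 vd w * ξ =
      ((w 10 + W.j s(v2, v0)) * (w 11 + W.j s(v2, v9)) * (w 8 + W.j s(v2, va))) *
      (((w 5 + W.j s(vd, v0)) * (w 6 + W.j s(vd, va)) * (w 4 + W.j s(vd, wB))) *
      ((w 12 + W.j s(v0, v9)) * (((w 3 + W.j s(v9, wB)) * (w 9 + W.j s(w5, v9))) *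
      ((w 7 + W.j s(w7, v0)) * (((w 1 + W.j s(w5, va)) * (w 2 + W.j s(w7, va))) *
      ((w 0 + W.j s(w5, w7)) * ξ)))))) := by
    exact perm13 _ _ _ _ _ _ _ _ _ _ _ _ _ _
  rw [e0, k1 (w 10) (w 11) (w 8) (W.j s(v2, v0)) (W.j s(v2, v9)) (W.j s(v2, va))
    (W.j s(v0, v9)) (W.j s(v0, va)) (W.j s(v9, va)) (W.rel v2 v0 v9) (W.rel v2 v0 va)
    (W.rel v2 v9 va)]
  rw [W.elim3 A v2 v0 v9 va _ _ _ rfl rfl rfl A2 A0 A9 Aa n02 n92 na2]
  all_goals
    repeat' first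
      | assumption
      | exact hwF _ _
      | apply add_mem
      | apply mul_mem
      | exact W.fj _ _ (by
          rw [Sym2.mem_iff, not_or]
          constructor <;> first
            | assumption
            | (intro h; exact absurd h.symm (by assumption)))

omit [DecidableEq V] in
theorem perm2 {S : Type*} [CommRing S] (a b c d : S) : a * (b * (c * d)) = b * ((a * c) * d) := by
  ring

theorem Forest.step2 (A : Finset V) (w5 w7 wB v0 v9 va _v2 vd : V)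
    (AB : wB ∈ A) (A0 : v0 ∈ A) (Aa : va ∈ A) (Ad : vd ∈ A)
    (n5d : w5 ≠ vd) (n7d : w7 ≠ vd) (nBd : wB ≠ vd)
    (n0d : v0 ≠ vd) (n9d : v9 ≠ vd) (nad : va ≠ vd)
    (w : Fin 13 → S) (hwF : ∀ x i, w i ∈ W.F x) (ξ : S) (ξd : ξ ∈ W.F vd) :
    W.T A
      (((w 11 + W.j s(v0, v9)) * (w 8 + W.j s(v0, va)) + w 10 * (w 8 + W.j s(v9, va)) +
        w 10 * w 11) *
      (((w 5 + W.j s(vd, v0)) * (w 6 + W.j s(vd, va)) * (w 4 + W.j s(vd, wB))) *
      ((w 12 + W.j s(v0, v9)) * (((w 3 + W.j s(v9, wB)) * (w 9 + W.j s(w5, v9))) *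
      ((w 7 + W.j s(w7, v0)) * (((w 1 + W.j s(w5, va)) * (w 2 + W.j s(w7, va))) *
      ((w 0 + W.j s(w5, w7)) * ξ))))))) = W.T (A.erase vd)
      ((zz (w 4) (w 5) (w 6) + w 4 * W.j s(v0, va) + w 6 * W.j s(v0, wB) + w 5 * W.j s(va, wB) +
        W.j s(v0, va) * W.j s(v0, wB)) *
      (((B13 w).c0 + (B13 w).c09 * W.j s(v0, v9) + (B13 w).c0a * W.j s(v0, va) +
        (B13 w).c9a * W.j s(v9, va) + (B13 w).c1 * (W.j s(v0, v9) * W.j s(v0, va))) *
      (((w 3 + W.j s(v9, wB)) * (w 9 + W.j s(w5, v9))) *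
      ((w 7 + W.j s(w7, v0)) * (((w 1 + W.j s(w5, va)) * (w 2 + W.j s(w7, va))) *
      ((w 0 + W.j s(w5, w7)) * ξ)))))) := by
  have hT1 : ((w 11 + W.j s(v0, v9)) * (w 8 + W.j s(v0, va)) + w 10 * (w 8 + W.j s(v9, va)) +
        w 10 * w 11) * (w 12 + W.j s(v0, v9)) =
      (B13 w).c0 + (B13 w).c09 * W.j s(v0, v9) + (B13 w).c0a * W.j s(v0, va) +
        (B13 w).c9a * W.j s(v9, va) + (B13 w).c1 * (W.j s(v0, v9) * W.j s(v0, va)) :=
    kT1 (w 7) (w 8) (w 9) (w 10) (w 11) (w 12) _ _ _ (W.sq _)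
      (W.rel' _ _ _ v9 v0 va Sym2.eq_swap rfl rfl)
  have hT2 : (w 6 + W.j s(v0, va)) * (w 4 + W.j s(v0, wB)) + w 5 * (w 4 + W.j s(va, wB)) +
        w 5 * w 6 =
      zz (w 4) (w 5) (w 6) + w 4 * W.j s(v0, va) + w 6 * W.j s(v0, wB) + w 5 * W.j s(va, wB) +
        W.j s(v0, va) * W.j s(v0, wB) := by
    unfold zz
    ring
  rw [perm2, hT1, k1 (w 5) (w 6) (w 4) (W.j s(vd, v0)) (W.j s(vd, va)) (W.j s(vd, wB))
    (W.j s(v0, va)) (W.j s(v0, wB)) (W.j s(va, wB)) (W.rel vd v0 va) (W.rel vd v0 wB)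
    (W.rel vd va wB)]
  have hB0 : (B13 w).c0 ∈ W.F vd := by
    change w 12 * (w 10 * w 11 + w 10 * w 8 + w 11 * w 8) ∈ _
    exact mul_mem (hwF _ _) (add_mem (add_mem (mul_mem (hwF _ _) (hwF _ _))
      (mul_mem (hwF _ _) (hwF _ _))) (mul_mem (hwF _ _) (hwF _ _)))
  have hB09 : (B13 w).c09 ∈ W.F vd := by
    change w 12 * w 8 + (w 10 * w 11 + w 10 * w 8 + w 11 * w 8) ∈ _
    exact add_mem (mul_mem (hwF _ _) (hwF _ _)) (add_mem (add_mem (mul_mem (hwF _ _) (hwF _ _))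
      (mul_mem (hwF _ _) (hwF _ _))) (mul_mem (hwF _ _) (hwF _ _)))
  have hB0a : (B13 w).c0a ∈ W.F vd := mul_mem (hwF _ _) (hwF _ _)
  have hB9a : (B13 w).c9a ∈ W.F vd := mul_mem (hwF _ _) (hwF _ _)
  have hB1 : (B13 w).c1 ∈ W.F vd := add_mem (add_mem (hwF _ _) (hwF _ _)) (hwF _ _)
  rw [W.elim3 A vd v0 va wB _ _ _ rfl rfl rfl Ad A0 Aa AB n0d nad nBd]
  · rw [hT2]
  all_goals
    repeat' first
      | assumption
      | exact hwF _ _
      | apply add_mem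
      | apply mul_mem
      | exact W.fj _ _ (by
          rw [Sym2.mem_iff, not_or]
          constructor <;> first
            | assumption
            | (intro h; exact absurd h.symm (by assumption)))

theorem Forest.step3 (A : Finset V) (w5 w7 wB v0 v9 va : V)
    (A5 : w5 ∈ A) (AB : wB ∈ A) (A0 : v0 ∈ A) (A9 : v9 ∈ A) (Aa : va ∈ A)
    (n59 : w5 ≠ v9) (n79 : w7 ≠ v9) (nB9 : wB ≠ v9)
    (n09 : v0 ≠ v9) (n9a : v9 ≠ va) (z yB y0 ya c0 c09 c0a c9a c1 t p r : S)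
    (hz : z ∈ W.F v9) (hyB : yB ∈ W.F v9) (hy0 : y0 ∈ W.F v9) (hya : ya ∈ W.F v9)
    (h0 : c0 ∈ W.F v9) (h09 : c09 ∈ W.F v9) (h0a : c0a ∈ W.F v9) (h9a : c9a ∈ W.F v9)
    (h1 : c1 ∈ W.F v9) (ht : t ∈ W.F v9) (hp : p ∈ W.F v9) (hr : r ∈ W.F v9)
    (ξ : S) (ξ9 : ξ ∈ W.F v9) :
    W.T A
      ((z + yB * W.j s(v0, va) + ya * W.j s(v0, wB) + y0 * W.j s(va, wB) +
        W.j s(v0, va) * W.j s(v0, wB)) *
      ((c0 + c09 * W.j s(v0, v9) + c0a * W.j s(v0, va) +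
        c9a * W.j s(v9, va) + c1 * (W.j s(v0, v9) * W.j s(v0, va))) *
      (((t + W.j s(v9, wB)) * (p + W.j s(w5, v9))) *
      ((r + W.j s(w7, v0)) * ξ)))) = W.T (A.erase v9)
      (((c0 + c0a * W.j s(v0, va)) * t + (c0 + c0a * W.j s(v0, va)) * (p + W.j s(w5, wB)) +
        (c09 + c1 * W.j s(v0, va)) * (t + W.j s(v0, wB)) * (p + W.j s(v0, w5)) +
        c9a * (t + W.j s(va, wB)) * (p + W.j s(w5, va))) *
      ((z + yB * W.j s(v0, va) + ya * W.j s(v0, wB) + y0 * W.j s(va, wB) +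
        W.j s(v0, va) * W.j s(v0, wB)) *
      ((r + W.j s(w7, v0)) * ξ))) := by
  have hp' : ∀ a b c d : S, a * (b * (c * d)) = (b * c) * (a * d) := by intros; ring
  rw [hp', k3 c0 c09 c0a c9a c1 t p (W.j s(v0, va)) (W.j s(v0, v9)) (W.j s(v9, va))
    (W.j s(v9, wB)) (W.j s(w5, v9)) (W.j s(w5, wB)) (W.j s(v0, wB)) (W.j s(v0, w5))
    (W.j s(va, wB)) (W.j s(w5, va))
    (W.rel' _ _ _ v9 wB w5 rfl Sym2.eq_swap Sym2.eq_swap)
    (W.rel' _ _ _ v9 v0 wB Sym2.eq_swap rfl rfl)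
    (W.rel' _ _ _ v9 v0 w5 Sym2.eq_swap Sym2.eq_swap rfl)
    (W.rel' _ _ _ v9 va wB rfl rfl rfl)
    (W.rel' _ _ _ v9 va w5 rfl Sym2.eq_swap Sym2.eq_swap)]
  rw [W.elim4 A v9 w5 wB v0 va _ _ _ _ Sym2.eq_swap rfl Sym2.eq_swap rfl A9 A5 AB A0 Aa n59 nB9
    n09 n9a.symm]
  all_goals
    repeat' first
      | assumption
      | apply add_mem
      | apply mul_mem
      | exact W.fj _ _ (by
          rw [Sym2.mem_iff, not_or]
          constructor <;> first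
            | assumption
            | (intro h; exact absurd h.symm (by assumption)))

theorem Forest.step4 (A : Finset V) (w5 w7 wB v0 va : V)
    (A5 : w5 ∈ A) (A7 : w7 ∈ A) (AB : wB ∈ A) (A0 : v0 ∈ A) (Aa : va ∈ A)
    (n50 : w5 ≠ v0) (n70 : w7 ≠ v0) (nB0 : wB ≠ v0)
    (n0a : v0 ≠ va) (z yB y0 ya c0 c09 c0a c9a c1 t p r : S)
    (hz : z ∈ W.F v0) (hyB : yB ∈ W.F v0) (hy0 : y0 ∈ W.F v0) (hya : ya ∈ W.F v0)
    (h0 : c0 ∈ W.F v0) (h09 : c09 ∈ W.F v0) (h0a : c0a ∈ W.F v0) (h9a : c9a ∈ W.F v0)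
    (h1 : c1 ∈ W.F v0) (ht : t ∈ W.F v0) (hp : p ∈ W.F v0) (hr : r ∈ W.F v0)
    (ξ : S) (ξ0 : ξ ∈ W.F v0) (B0 Ba BB B5 C0 C7 Ca CB : S)
    (hB0 : B0 = c0 * (p + t + W.j s(w5, wB)) + c9a * (t + W.j s(va, wB)) * (p + W.j s(w5, va)) +
      c09 * t * p)
    (hBa : Ba = c0a * (p + t + W.j s(w5, wB)) + c1 * (t + W.j s(va, wB)) * (p + W.j s(w5, va)))
    (hBB : BB = c09 * (p + W.j s(w5, wB))) (hB5 : B5 = c09 * t)
    (hC0 : C0 = r * (z + y0 * W.j s(va, wB))) (hC7 : C7 = z + y0 * W.j s(va, wB))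
    (hCa : Ca = (yB + W.j s(va, wB)) * (r + W.j s(w7, va))) (hCB : CB = ya * (r + W.j s(w7, wB))) :
    W.T A
      (((c0 + c0a * W.j s(v0, va)) * t + (c0 + c0a * W.j s(v0, va)) * (p + W.j s(w5, wB)) +
        (c09 + c1 * W.j s(v0, va)) * (t + W.j s(v0, wB)) * (p + W.j s(v0, w5)) +
        c9a * (t + W.j s(va, wB)) * (p + W.j s(w5, va))) *
      ((z + yB * W.j s(v0, va) + ya * W.j s(v0, wB) + y0 * W.j s(va, wB) +
        W.j s(v0, va) * W.j s(v0, wB)) *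
      ((r + W.j s(w7, v0)) * ξ))) = W.T (A.erase v0)
      (((Ba * C0 + B0 * Ca + Ba * C7 * W.j s(w7, va) + (Ba * CB + BB * Ca) * W.j s(va, wB)) +
        (BB * C0 + B0 * CB + BB * C7 * W.j s(w7, wB)) +
        (B5 * C0 + B5 * C7 * W.j s(w5, w7) + B5 * Ca * W.j s(w5, va) +
          B5 * CB * W.j s(w5, wB)) + B0 * C7) * ξ) := by
  have hp' : ∀ a b c d : S, a * (b * (c * d)) = (a * (b * c)) * d := by intros; ring
  have fB0 : B0 ∈ W.F v0 := by
    rw [hB0]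
    repeat' first
      | assumption
      | apply add_mem
      | apply mul_mem
      | exact W.fj _ _ (by
          rw [Sym2.mem_iff, not_or]
          constructor <;> first
            | assumption
            | (intro h; exact absurd h.symm (by assumption)))
  have fBa : Ba ∈ W.F v0 := by
    rw [hBa]
    repeat' first
      | assumption
      | apply add_mem
      | apply mul_mem
      | exact W.fj _ _ (by
          rw [Sym2.mem_iff, not_or]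
          constructor <;> first
            | assumption
            | (intro h; exact absurd h.symm (by assumption)))
  have fBB : BB ∈ W.F v0 := by
    rw [hBB]
    repeat' first
      | assumption
      | apply add_mem
      | apply mul_mem
      | exact W.fj _ _ (by
          rw [Sym2.mem_iff, not_or]
          constructor <;> first
            | assumption
            | (intro h; exact absurd h.symm (by assumption)))
  have fB5 : B5 ∈ W.F v0 := by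
    rw [hB5]
    exact mul_mem h09 ht
  have fC7 : C7 ∈ W.F v0 := by
    rw [hC7]
    repeat' first
      | assumption
      | apply add_mem
      | apply mul_mem
      | exact W.fj _ _ (by
          rw [Sym2.mem_iff, not_or]
          constructor <;> first
            | assumption
            | (intro h; exact absurd h.symm (by assumption)))
  have fC0 : C0 ∈ W.F v0 := by
    rw [hC0, ← hC7]
    exact mul_mem hr fC7
  have fCa : Ca ∈ W.F v0 := by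
    rw [hCa]
    repeat' first
      | assumption
      | apply add_mem
      | apply mul_mem
      | exact W.fj _ _ (by
          rw [Sym2.mem_iff, not_or]
          constructor <;> first
            | assumption
            | (intro h; exact absurd h.symm (by assumption)))
  have fCB : CB ∈ W.F v0 := by
    rw [hCB]
    repeat' first
      | assumption
      | apply add_mem
      | apply mul_mem
      | exact W.fj _ _ (by
          rw [Sym2.mem_iff, not_or]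
          constructor <;> first
            | assumption
            | (intro h; exact absurd h.symm (by assumption)))
  rw [hp', k4a c0 c09 c0a c9a c1 t p (W.j s(v0, va)) (W.j s(w5, wB)) (W.j s(v0, wB))
      (W.j s(v0, w5)) (W.j s(va, wB)) (W.j s(w5, va))
      (W.rel' _ _ _ v0 va wB rfl rfl rfl) (W.rel' _ _ _ v0 va w5 rfl rfl Sym2.eq_swap)
      (W.rel' _ _ _ v0 wB w5 rfl rfl Sym2.eq_swap),
    k4b z yB y0 ya r (W.j s(v0, va)) (W.j s(v0, wB)) (W.j s(w7, v0)) (W.j s(va, wB))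
      (W.j s(w7, va)) (W.j s(w7, wB))
      (W.rel' _ _ _ v0 va wB rfl rfl rfl) (W.rel' _ _ _ v0 va w7 rfl Sym2.eq_swap Sym2.eq_swap)
      (W.rel' _ _ _ v0 wB w7 rfl Sym2.eq_swap Sym2.eq_swap),
    ← hB0, ← hBa, ← hBB, ← hB5, ← hC0, ← hC7, ← hCa, ← hCB,
    k4c B0 Ba BB B5 C0 C7 Ca CB (W.j s(v0, va)) (W.j s(v0, wB)) (W.j s(v0, w5)) (W.j s(w7, v0))
      (W.j s(w7, va)) (W.j s(va, wB)) (W.j s(w7, wB)) (W.j s(w5, w7)) (W.j s(w5, va))
      (W.j s(w5, wB))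
      (W.rel' _ _ _ v0 va wB rfl rfl rfl) (W.rel' _ _ _ v0 va w7 rfl Sym2.eq_swap Sym2.eq_swap)
      (W.rel' _ _ _ v0 wB w7 rfl Sym2.eq_swap Sym2.eq_swap)
      (W.rel' _ _ _ v0 w5 w7 rfl Sym2.eq_swap rfl)
      (W.rel' _ _ _ v0 w5 va rfl rfl rfl) (W.rel' _ _ _ v0 w5 wB rfl rfl rfl) (W.sq _) (W.sq _)]
  rw [W.elim4 A v0 va wB w5 w7 _ _ _ _ rfl rfl rfl Sym2.eq_swap A0 Aa AB A5 A7 n0a.symm nB0
    n50 n70]
  all_goals
    repeat' first
      | assumption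
      | apply add_mem
      | apply mul_mem
      | exact W.fj _ _ (by
          rw [Sym2.mem_iff, not_or]
          constructor <;> first
            | assumption
            | (intro h; exact absurd h.symm (by assumption)))

theorem Forest.step5 (A : Finset V) (w5 w7 wB va : V)
    (A5 : w5 ∈ A) (A7 : w7 ∈ A) (AB : wB ∈ A) (Aa : va ∈ A)
    (n5a : w5 ≠ va) (n7a : w7 ≠ va) (nBa : wB ≠ va)
    (e q s c00 c05 c07 c0B : S)
    (he : e ∈ W.F va) (hq : q ∈ W.F va) (hs : s ∈ W.F va)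
    (h0 : c00 ∈ W.F va) (h05 : c05 ∈ W.F va) (h07 : c07 ∈ W.F va) (h0B : c0B ∈ W.F va)
    (ξ : S) (ξa : ξ ∈ W.F va) :
    W.T A
      ((c00 + W.j s(w5, va) * c05 + W.j s(w7, va) * c07 + W.j s(va, wB) * c0B) *
      (((q + W.j s(w5, va)) * (s + W.j s(w7, va))) *
      ((e + W.j s(w5, w7)) * ξ))) = W.T (A.erase va)
      (((q * s * c05 + s * (c00 + W.j s(w5, w7) * c07 + W.j s(w5, wB) * c0B) +
          W.j s(w5, w7) * c00 + W.j s(w5, w7) * W.j s(w5, wB) * c0B) +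
        (q * s * c07 + q * (c00 + W.j s(w5, w7) * c05 + W.j s(w7, wB) * c0B)) +
        q * s * c0B) * ((e + W.j s(w5, w7)) * ξ)) := by
  have hp' : ∀ a b c : S, a * (b * c) = (b * a) * c := by intros; ring
  rw [hp', k5b q s c00 c05 c07 c0B (W.j s(w5, w7)) (W.j s(w5, wB)) (W.j s(w7, wB))
    (W.j s(w5, va)) (W.j s(w7, va)) (W.j s(va, wB))
    (W.rel' _ _ _ va w5 w7 Sym2.eq_swap Sym2.eq_swap rfl)
    (W.rel' _ _ _ va w5 wB Sym2.eq_swap rfl rfl)
    (W.rel' _ _ _ va w7 w5 Sym2.eq_swap Sym2.eq_swap Sym2.eq_swap)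
    (W.rel' _ _ _ va w7 wB Sym2.eq_swap rfl rfl) (W.sq _) (W.sq _)]
  rw [W.elim3 A va w5 w7 wB _ _ _ Sym2.eq_swap Sym2.eq_swap rfl Aa A5 A7 AB n5a n7a nBa]
  all_goals
    repeat' first
      | assumption
      | apply add_mem
      | apply mul_mem
      | exact W.fj _ _ (by
          rw [Sym2.mem_iff, not_or]
          constructor <;> first
            | assumption
            | (intro h; exact absurd h.symm (by assumption)))

/-- `left_elim`, abstract version -/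
theorem Forest.left_elim (A : Finset V) (w5 w7 wB v0 v9 va v2 vd : V)
    (hn : [w5, w7, wB, v0, v9, va, v2, vd].Nodup)
    (hA : ∀ x ∈ [w5, w7, wB, v0, v9, va, v2, vd], x ∈ A)
    (w : Fin 13 → S) (hwF : ∀ x i, w i ∈ W.F x) (ξ : S)
    (hξ : ∀ x ∈ [v0, v9, va, v2, vd], ξ ∈ W.F x) :
    W.T A (W.leftProd w5 w7 wB v0 v9 va v2 vd w * ξ) =
      W.T (A \ {v0, v9, va, v2, vd})
        ((nt w * (W.j s(w5, w7) * W.j s(w7, wB)) + n5 w * W.j s(w7, wB) + n7 w * W.j s(w5, wB) +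
          nB w * W.j s(w5, w7) + nn w) * ξ) := by
  have A5 : w5 ∈ A := hA _ (by simp)
  have A7 : w7 ∈ A := hA _ (by simp)
  have AB : wB ∈ A := hA _ (by simp)
  have A0 : v0 ∈ A := hA _ (by simp)
  have A9 : v9 ∈ A := hA _ (by simp)
  have Aa : va ∈ A := hA _ (by simp)
  have A2 : v2 ∈ A := hA _ (by simp)
  have Ad : vd ∈ A := hA _ (by simp)
  simp only [List.nodup_cons, List.mem_cons, List.not_mem_nil, or_false, not_or,
    List.nodup_nil, and_true, not_false_eq_true] at hn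
  obtain ⟨⟨n57, n5B, n50, n59, n5a, n52, n5d⟩, ⟨n7B, n70, n79, n7a, n72, n7d⟩,
    ⟨nB0, nB9, nBa, nB2, nBd⟩, ⟨n09, n0a, n02, n0d⟩, ⟨n9a, n92, n9d⟩, ⟨na2, nad⟩, n2d⟩ := hn
  have ξ0 : ξ ∈ W.F v0 := hξ _ (by simp)
  have ξ9 : ξ ∈ W.F v9 := hξ _ (by simp)
  have ξa : ξ ∈ W.F va := hξ _ (by simp)
  have ξ2 : ξ ∈ W.F v2 := hξ _ (by simp)
  have ξd : ξ ∈ W.F vd := hξ _ (by simp)
  have hz : ∀ x, zz (w 4) (w 5) (w 6) ∈ W.F x := fun x =>
    add_mem (add_mem (mul_mem (hwF _ _) (hwF _ _)) (mul_mem (hwF _ _) (hwF _ _)))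
      (mul_mem (hwF _ _) (hwF _ _))
  have hB0 : ∀ x, (B13 w).c0 ∈ W.F x := fun x => by
    change w 12 * (w 10 * w 11 + w 10 * w 8 + w 11 * w 8) ∈ _
    exact mul_mem (hwF _ _) (add_mem (add_mem (mul_mem (hwF _ _) (hwF _ _))
      (mul_mem (hwF _ _) (hwF _ _))) (mul_mem (hwF _ _) (hwF _ _)))
  have hB09 : ∀ x, (B13 w).c09 ∈ W.F x := fun x => by
    change w 12 * w 8 + (w 10 * w 11 + w 10 * w 8 + w 11 * w 8) ∈ _
    exact add_mem (mul_mem (hwF _ _) (hwF _ _)) (add_mem (add_mem (mul_mem (hwF _ _) (hwF _ _))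
      (mul_mem (hwF _ _) (hwF _ _))) (mul_mem (hwF _ _) (hwF _ _)))
  have hB0a : ∀ x, (B13 w).c0a ∈ W.F x := fun x => mul_mem (hwF _ _) (hwF _ _)
  have hB9a : ∀ x, (B13 w).c9a ∈ W.F x := fun x => mul_mem (hwF _ _) (hwF _ _)
  have hB1 : ∀ x, (B13 w).c1 ∈ W.F x := fun x =>
    add_mem (add_mem (hwF _ _) (hwF _ _)) (hwF _ _)
  have fj : ∀ x a b : V, a ≠ x → b ≠ x → W.j s(a, b) ∈ W.F x := fun x a b ha hb =>
    W.fj x _ (by
      rw [Sym2.mem_iff, not_or]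
      exact ⟨fun h => ha h.symm, fun h => hb h.symm⟩)
  rw [W.step1 A w5 w7 wB v0 v9 va v2 vd A0 A9 Aa A2 n52 n72 nB2 n02 n92 na2 n2d w hwF ξ ξ2]
  rw [W.step2 (A.erase v2) w5 w7 wB v0 v9 va v2 vd (Finset.mem_erase.mpr ⟨nB2, AB⟩)
    (Finset.mem_erase.mpr ⟨n02, A0⟩) (Finset.mem_erase.mpr ⟨na2, Aa⟩)
    (Finset.mem_erase.mpr ⟨Ne.symm n2d, Ad⟩) n5d n7d nBd n0d n9d nad w hwF ξ ξd]
  rw [W.step3 ((A.erase v2).erase vd) w5 w7 wB v0 v9 va
    (Finset.mem_erase.mpr ⟨n5d, Finset.mem_erase.mpr ⟨n52, A5⟩⟩)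
    (Finset.mem_erase.mpr ⟨nBd, Finset.mem_erase.mpr ⟨nB2, AB⟩⟩)
    (Finset.mem_erase.mpr ⟨n0d, Finset.mem_erase.mpr ⟨n02, A0⟩⟩)
    (Finset.mem_erase.mpr ⟨n9d, Finset.mem_erase.mpr ⟨n92, A9⟩⟩)
    (Finset.mem_erase.mpr ⟨nad, Finset.mem_erase.mpr ⟨na2, Aa⟩⟩)
    n59 n79 nB9 n09 n9a _ _ _ _ _ _ _ _ _ _ _ _ (hz _) (hwF _ _) (hwF _ _) (hwF _ _)
    (hB0 _) (hB09 _) (hB0a _) (hB9a _) (hB1 _) (hwF _ _) (hwF _ _) (hwF _ _) _
    (mul_mem (mul_mem (add_mem (hwF _ _) (fj _ _ _ n59 (Ne.symm n9a)))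
      (add_mem (hwF _ _) (fj _ _ _ n79 (Ne.symm n9a))))
      (mul_mem (add_mem (hwF _ _) (fj _ _ _ n59 n79)) ξ9))]
  rw [W.step4 (((A.erase v2).erase vd).erase v9) w5 w7 wB v0 va
    (Finset.mem_erase.mpr ⟨n59, Finset.mem_erase.mpr ⟨n5d, Finset.mem_erase.mpr ⟨n52, A5⟩⟩⟩)
    (Finset.mem_erase.mpr ⟨n79, Finset.mem_erase.mpr ⟨n7d, Finset.mem_erase.mpr ⟨n72, A7⟩⟩⟩)
    (Finset.mem_erase.mpr ⟨nB9, Finset.mem_erase.mpr ⟨nBd, Finset.mem_erase.mpr ⟨nB2, AB⟩⟩⟩)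
    (Finset.mem_erase.mpr ⟨n09, Finset.mem_erase.mpr ⟨n0d, Finset.mem_erase.mpr ⟨n02, A0⟩⟩⟩)
    (Finset.mem_erase.mpr ⟨Ne.symm n9a,
      Finset.mem_erase.mpr ⟨nad, Finset.mem_erase.mpr ⟨na2, Aa⟩⟩⟩)
    n50 n70 nB0 n0a _ _ _ _ _ _ _ _ _ _ _ _ (hz _) (hwF _ _) (hwF _ _) (hwF _ _)
    (hB0 _) (hB09 _) (hB0a _) (hB9a _) (hB1 _) (hwF _ _) (hwF _ _) (hwF _ _) _
    (mul_mem (mul_mem (add_mem (hwF _ _) (fj _ _ _ n50 (Ne.symm n0a)))
      (add_mem (hwF _ _) (fj _ _ _ n70 (Ne.symm n0a))))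
      (mul_mem (add_mem (hwF _ _) (fj _ _ _ n50 n70)) ξ0))
    _ _ _ _ _ _ _ _ rfl rfl rfl rfl rfl rfl rfl rfl]
  have jr : ∀ (e1 e2 e3 : Sym2 V) (a b c : V), e1 = s(a, b) → e2 = s(a, c) →
      e3 = s(b, c) → W.j e1 * W.j e2 = W.j e1 * W.j e3 := W.rel'
  have h57B : W.j s(w5, w7) * W.j s(w5, wB) = W.j s(w5, w7) * W.j s(w7, wB) :=
    jr _ _ _ w5 w7 wB rfl rfl rfl
  have h5 := k5 (B13 w) (w 3) (w 4) (w 5) (w 6) (W.j s(w5, w7)) (W.j s(w5, wB)) (W.j s(w7, wB))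
    (W.j s(w5, va)) (W.j s(w7, va)) (W.j s(va, wB)) _ _ _ _ _ _ _ _ rfl rfl rfl rfl rfl rfl rfl
    rfl
    (by rw [mul_comm, mul_comm (W.j s(w5, w7)), jr s(w7, wB) s(w5, wB) s(w5, w7) wB w7 w5
      Sym2.eq_swap Sym2.eq_swap Sym2.eq_swap])
    (jr _ _ _ va w5 w7 Sym2.eq_swap Sym2.eq_swap rfl)
    (jr _ _ _ va w5 wB Sym2.eq_swap rfl rfl)
    h57B (W.sq _)
    (by rw [mul_comm, jr s(va, wB) s(w5, wB) s(w5, va) wB va w5 Sym2.eq_swap Sym2.eq_swap
          Sym2.eq_swap, mul_comm,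
        jr s(w5, va) s(va, wB) s(w5, wB) va w5 wB Sym2.eq_swap rfl rfl])
    (jr _ _ _ va w7 wB Sym2.eq_swap rfl rfl)
    (by rw [mul_comm, jr s(va, wB) s(w7, wB) s(w7, va) wB va w7 Sym2.eq_swap Sym2.eq_swap
          Sym2.eq_swap, mul_comm,
        jr s(w7, va) s(va, wB) s(w7, wB) va w7 wB Sym2.eq_swap rfl rfl])
    (by rw [jr s(w5, w7) s(w7, va) s(w5, va) w7 w5 va Sym2.eq_swap rfl rfl, mul_comm])
  simp only [show (B13 w).p = w 9 from rfl, show (B13 w).r = w 7 from rfl] at h5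
  rw [h5]
  have fzz : ∀ x, zz (w 4) (w 5) (w 6) ∈ W.F x := hz
  have ft : ∀ x, top (B13 w) (w 3) (w 4) (w 5) (w 6) ∈ W.F x := fun x => by
    have h1 := hB0 x; have h2 := hB09 x; have h3 := hB0a x; have h4 := hB9a x; have h5 := hB1 x
    have h6 := hz x; have h7 := hwF x
    unfold top
    repeat' first
      | assumption
      | exact h7 _
      | apply add_mem
      | apply mul_mem
  have fb : ∀ x, b1 (B13 w) (w 3) (w 4) (w 5) (w 6) ∈ W.F x := fun x => by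
    have h1 := hB0 x; have h2 := hB09 x; have h3 := hB0a x; have h4 := hB9a x; have h5 := hB1 x
    have h6 := hz x; have h7 := hwF x
    unfold b1
    repeat' first
      | assumption
      | exact h7 _
      | apply add_mem
      | apply mul_mem
  have fp : ∀ x, (B13 w).p ∈ W.F x := fun x => hwF x 9
  have fr : ∀ x, (B13 w).r ∈ W.F x := fun x => hwF x 7
  have f00 : C00 (B13 w) (w 3) (w 4) (w 5) (w 6) (W.j s(w5, w7)) (W.j s(w5, wB))
      (W.j s(w7, wB)) ∈ W.F va := by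
    have h1 := hB0 va; have h2 := hB09 va; have h3 := hB0a va; have h4 := hB9a va
    have h5 := hB1 va; have h6 := hz va; have h7 := hwF va; have h8 := ft va; have h9 := fb va
    have h10 := fp va; have h11 := fr va
    have h12 := fj va w5 w7 n5a n7a; have h13 := fj va w5 wB n5a nBa
    have h14 := fj va w7 wB n7a nBa
    unfold C00 Qall Y3 X3
    repeat' first
      | assumption
      | exact h7 _
      | apply add_mem
      | apply mul_mem
  have f05 : C05 (B13 w) (w 3) (w 4) (w 5) (w 6) (W.j s(w5, w7)) (W.j s(w5, wB))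
      (W.j s(w7, wB)) ∈ W.F va := by
    have h1 := hB0 va; have h2 := hB09 va; have h3 := hB0a va; have h4 := hB9a va
    have h5 := hB1 va; have h6 := hz va; have h7 := hwF va; have h8 := ft va; have h9 := fb va
    have h10 := fp va; have h11 := fr va
    have h12 := fj va w5 w7 n5a n7a; have h13 := fj va w5 wB n5a nBa
    have h14 := fj va w7 wB n7a nBa
    unfold C05 Q5a7
    repeat' first
      | assumption
      | exact h7 _
      | apply add_mem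
      | apply mul_mem
  have f07 : C07 (B13 w) (w 3) (w 4) (w 5) (w 6) (W.j s(w5, wB)) (W.j s(w7, wB)) ∈ W.F va := by
    have h1 := hB0 va; have h2 := hB09 va; have h3 := hB0a va; have h4 := hB9a va
    have h5 := hB1 va; have h6 := hz va; have h7 := hwF va; have h8 := ft va; have h9 := fb va
    have h10 := fp va; have h11 := fr va
    have h13 := fj va w5 wB n5a nBa
    have h14 := fj va w7 wB n7a nBa
    unfold C07 Q57a
    repeat' first
      | assumption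
      | exact h7 _
      | apply add_mem
      | apply mul_mem
  have f0B : C0B (B13 w) (w 3) (w 4) (w 5) (w 6) (W.j s(w5, w7)) ∈ W.F va := by
    have h1 := hB0 va; have h2 := hB09 va; have h3 := hB0a va; have h4 := hB9a va
    have h5 := hB1 va; have h6 := hz va; have h7 := hwF va; have h8 := ft va; have h9 := fb va
    have h10 := fp va; have h11 := fr va
    have h12 := fj va w5 w7 n5a n7a
    unfold C0B ZZ
    repeat' first
      | assumption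
      | exact h7 _
      | apply add_mem
      | apply mul_mem
  rw [W.step5 ((((A.erase v2).erase vd).erase v9).erase v0) w5 w7 wB va
    (Finset.mem_erase.mpr ⟨n50, Finset.mem_erase.mpr ⟨n59, Finset.mem_erase.mpr ⟨n5d,
      Finset.mem_erase.mpr ⟨n52, A5⟩⟩⟩⟩)
    (Finset.mem_erase.mpr ⟨n70, Finset.mem_erase.mpr ⟨n79, Finset.mem_erase.mpr ⟨n7d,
      Finset.mem_erase.mpr ⟨n72, A7⟩⟩⟩⟩)
    (Finset.mem_erase.mpr ⟨nB0, Finset.mem_erase.mpr ⟨nB9, Finset.mem_erase.mpr ⟨nBd,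
      Finset.mem_erase.mpr ⟨nB2, AB⟩⟩⟩⟩)
    (Finset.mem_erase.mpr ⟨Ne.symm n0a, Finset.mem_erase.mpr ⟨Ne.symm n9a,
      Finset.mem_erase.mpr ⟨nad, Finset.mem_erase.mpr ⟨na2, Aa⟩⟩⟩⟩)
    n5a n7a nBa _ _ _ _ _ _ _ (hwF _ _) (hwF _ _) (hwF _ _) f00 f05 f07 f0B _ ξa,
    k6a (B13 w) (w 1) (w 2) (w 3) (w 4) (w 5) (w 6) _ _ _ (W.sq _) h57B]
  have hp' : ∀ a b c : S, a * (b * c) = (b * a) * c := by intros; ring
  rw [hp', k6b _ _ _ _ _ _ _ _ _ (W.sq _) h57B]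
  have hset : ((((A.erase v2).erase vd).erase v9).erase v0).erase va = A \ {v0, v9, va, v2, vd} := by
    ext x
    simp only [Finset.mem_erase, Finset.mem_sdiff, Finset.mem_insert, Finset.mem_singleton]
    tauto
  rw [hset]
  rfl

end abs

section
variable {V : Type*} {R : Type*} [CommRing R]

/-- the product over the 13 edges of one half; terminals `w5, w7, wB`, inner vertices
`v0, v9, va, v2, vd` -/
noncomputable def leftProd (w5 w7 wB v0 v9 va v2 vd : V) (v : Fin 13 → R) : Q V R :=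
  (algebraMap R (Q V R) (v 0) + J R s(w5, w7)) * (algebraMap R (Q V R) (v 1) + J R s(w5, va)) *
  (algebraMap R (Q V R) (v 2) + J R s(w7, va)) * (algebraMap R (Q V R) (v 3) + J R s(v9, wB)) *
  (algebraMap R (Q V R) (v 4) + J R s(vd, wB)) * (algebraMap R (Q V R) (v 5) + J R s(vd, v0)) *
  (algebraMap R (Q V R) (v 6) + J R s(vd, va)) * (algebraMap R (Q V R) (v 7) + J R s(w7, v0)) *
  (algebraMap R (Q V R) (v 8) + J R s(v2, va)) * (algebraMap R (Q V R) (v 9) + J R s(w5, v9)) *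
  (algebraMap R (Q V R) (v 10) + J R s(v2, v0)) * (algebraMap R (Q V R) (v 11) + J R s(v2, v9)) *
  (algebraMap R (Q V R) (v 12) + J R s(v0, v9))

/-- a network with three terminals -/
noncomputable def net3 (w5 w7 wB : V) (ft f5 f7 fB fn : R) : Q V R :=
  algebraMap R (Q V R) ft * (J R s(w5, w7) * J R s(w7, wB)) +
    algebraMap R (Q V R) f5 * J R s(w7, wB) + algebraMap R (Q V R) f7 * J R s(w5, wB) +
    algebraMap R (Q V R) fB * J R s(w5, w7) + algebraMap R (Q V R) fn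

/-- the algebra of forests -/
noncomputable def forestQ (V R : Type*) [DecidableEq V] [CommRing R] : Forest V R (Q V R) where
  j := J R
  F := Free R
  T := tau
  rel a b c := by
    have h := J_tri (R := R) c a b
    rw [Sym2.eq_swap (a := c) (b := a), Sym2.eq_swap (a := c) (b := b)] at h
    rw [mul_comm, h, mul_comm]
  slf := J_self
  fj := Free_J
  elim0 A v hv hA ξ hξ := tau_elim0 A v hv hA ξ hξ
  elim1 A v u hv hu huv ξ hξ := tau_elim1 A v u hv hu huv ξ hξ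

theorem left_elim [DecidableEq V] (A : Finset V) (w5 w7 wB v0 v9 va v2 vd : V)
    (hn : [w5, w7, wB, v0, v9, va, v2, vd].Nodup)
    (hA : ∀ x ∈ [w5, w7, wB, v0, v9, va, v2, vd], x ∈ A) (v : Fin 13 → R) (ξ : Q V R)
    (hξ : ∀ x ∈ [v0, v9, va, v2, vd], ξ ∈ Free R x) :
    tau A (leftProd w5 w7 wB v0 v9 va v2 vd v * ξ) =
      tau (A \ {v0, v9, va, v2, vd})
        (net3 w5 w7 wB (nt v) (n5 v) (n7 v) (nB v) (nn v) * ξ) := by
  have h := (forestQ V R).left_elim A w5 w7 wB v0 v9 va v2 vd hn hA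
    (fun i => algebraMap R (Q V R) (v i)) (fun x i => algebraMap_mem _ _) ξ hξ
  unfold net3
  rw [map_nt, map_n5, map_n7, map_nB, map_nn]
  exact h

end

end MP06b.CX
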