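import Pool.Agent.Lib.MP_06b34c_co.CX.Kir
import Pool.Agent.Lib.MP_06b34c_co.CX.Left
import Pool.Agent.Lib.MP_06b34c_co.CX.HXDefs

/-! # MP_06b34c, counterexample: the graph `HX` and its Kirchhoff polynomial

`HX` has the vertices 0..14 and 28 edges: a left half (13 edges, inner vertices 0,9,10,2,12,
terminals 5,7,13), a right half (13 edges, inner vertices 4,14,3,1,11, terminals 8,6,13) and the
edges 5-6, 7-8.

Proof of `kirchhoff_HX`: `kirchhoff_eq_tau` gives `tau univ` of a product over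
`Fin 13 ⊕ Fin 13 ⊕ Fin 2`; `Fintype.prod_sum_type`, `Fin.prod_univ_succ` (or
`Fin.prod_univ_castSucc`) and `ring` give
`tau univ (leftProd 5 7 13 0 9 10 2 12 α * (leftProd 8 6 13 4 14 3 1 11 β * ((a+J56) * (b+J78))))`.
Apply `left_elim` twice (first the left half with
`ξ = leftProd 8 6 13 ... * (..)`, then the right half with `ξ = net3 5 7 13 .. * (..)`); there
remain the vertices `{5, 6, 7, 8, 13}`. Then eliminate the vertex 5: the expression
`(a + J56) * net3 5 7 13 (f)` is
`c0 + J56 * c6 + J57 * c7 + J5B * cB` with `c`'s free of 5 (for instance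
`J56 * J57 * J7B = J56 * J67 * J7B`), so `tau_elim0` and `tau_elim1` give
`net3 6 7 13` with the polynomials `(f_t, f_5 + a f_t, f_7, f_B, f_n + a (f_7 + f_B))`. In the same way
eliminate 7 with the edge `b = 78`: `net3 6 8 13` with
`(f_t, f_5 + a f_t, f_7 + b f_t, f_B, f_n + a (f_7 + f_B) + b (f_5 + a f_t + f_B))`.
There remain the vertices 6, 8, 13 and a product of two `net3`'s; expand, eliminate 6 and 8. -/

namespace MP06b.CX

open Finset MP06b

theorem mem_HX (i : Fin 13 ⊕ Fin 13 ⊕ Fin 2) : ends i ∈ HX.edgeSet := mem_edge ends ends_diag i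

section
variable {R : Type*} [CommRing R]

private theorem tau_smul {V : Type*} [DecidableEq V] (A : Finset V) (r : R) (ξ : Q V R) :
    tau A (algebraMap R (Q V R) r * ξ) = r * tau A ξ := by
  rw [← Algebra.smul_def, map_smul, smul_eq_mul]

/-- elimination of a vertex with three neighbours -/
private theorem elim3 {V : Type*} [DecidableEq V] (A : Finset V) (v u w x : V) (hv : v ∈ A)
    (hu : u ∈ A) (hw : w ∈ A) (hx : x ∈ A) (huv : u ≠ v) (hwv : w ≠ v) (hxv : x ≠ v)
    (c0 c1 c2 c3 : Q V R) (h0 : c0 ∈ Free R v) (h1 : c1 ∈ Free R v) (h2 : c2 ∈ Free R v)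
    (h3 : c3 ∈ Free R v) :
    tau A (c0 + J R s(v, u) * c1 + J R s(v, w) * c2 + J R s(v, x) * c3) =
      tau (A.erase v) (c1 + c2 + c3) := by
  have hA : 2 ≤ A.card := by
    rw [← Finset.card_pair huv]
    refine Finset.card_le_card ?_
    intro y hy
    rw [Finset.mem_insert, Finset.mem_singleton] at hy
    rcases hy with rfl | rfl
    · exact hu
    · exact hv
  rw [map_add, map_add, map_add, tau_elim0 A v hv hA c0 h0, tau_elim1 A v u hv hu huv c1 h1,
    tau_elim1 A v w hv hw hwv c2 h2, tau_elim1 A v x hv hx hxv c3 h3, map_add, map_add, zero_add]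

/-- elimination of the vertex `v` from an edge `v u` in series with a network -/
private theorem elim_first {V : Type*} [DecidableEq V] (A : Finset V) (v u w x : V) (hv : v ∈ A)
    (hu : u ∈ A) (hw : w ∈ A) (hx : x ∈ A) (huv : u ≠ v) (hwv : w ≠ v) (hxv : x ≠ v)
    (a ft f5 f7 fB fn : R) (W : Q V R) (hW : W ∈ Free R v) :
    tau A ((algebraMap R (Q V R) a + J R s(v, u)) * net3 v w x ft f5 f7 fB fn * W) =
      tau (A.erase v) (net3 u w x ft (f5 + a * ft) f7 fB (fn + a * (f7 + fB)) * W) := by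
  have e1 : J R s(v, u) * J R s(v, w) = J R s(v, u) * J R s(u, w) := by
    have := J_tri (R := R) w v u
    rw [Sym2.eq_swap (a := w) (b := v), Sym2.eq_swap (a := w) (b := u)] at this
    rw [mul_comm, this, mul_comm]
  have e2 : J R s(v, u) * J R s(v, x) = J R s(v, u) * J R s(u, x) := by
    have := J_tri (R := R) x v u
    rw [Sym2.eq_swap (a := x) (b := v), Sym2.eq_swap (a := x) (b := u)] at this
    rw [mul_comm, this, mul_comm]
  have nv : ∀ p q : V, p ≠ v → q ≠ v → v ∉ s(p, q) := by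
    intro p q hp hq h
    rw [Sym2.mem_iff] at h
    rcases h with h | h
    · exact hp h.symm
    · exact hq h.symm
  have hk := elim3 (R := R) A v u w x hv hu hw hx huv hwv hxv
    ((algebraMap R (Q V R) a * (algebraMap R (Q V R) f5 * J R s(w, x)) +
      algebraMap R (Q V R) a * algebraMap R (Q V R) fn) * W)
    (net3 u w x ft f5 f7 fB fn * W)
    ((algebraMap R (Q V R) a * (algebraMap R (Q V R) ft * J R s(w, x)) +
      algebraMap R (Q V R) a * algebraMap R (Q V R) fB) * W)
    (algebraMap R (Q V R) a * algebraMap R (Q V R) f7 * W)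
    (by
      refine mul_mem (add_mem (mul_mem (Subalgebra.algebraMap_mem _ _)
        (mul_mem (Subalgebra.algebraMap_mem _ _) (Free_J _ _ (nv _ _ hwv hxv))))
        (mul_mem (Subalgebra.algebraMap_mem _ _) (Subalgebra.algebraMap_mem _ _))) hW)
    (by
      unfold net3
      refine mul_mem (add_mem (add_mem (add_mem (add_mem
        (mul_mem (Subalgebra.algebraMap_mem _ _)
          (mul_mem (Free_J _ _ (nv _ _ huv hwv)) (Free_J _ _ (nv _ _ hwv hxv))))
        (mul_mem (Subalgebra.algebraMap_mem _ _) (Free_J _ _ (nv _ _ hwv hxv))))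
        (mul_mem (Subalgebra.algebraMap_mem _ _) (Free_J _ _ (nv _ _ huv hxv))))
        (mul_mem (Subalgebra.algebraMap_mem _ _) (Free_J _ _ (nv _ _ huv hwv))))
        (Subalgebra.algebraMap_mem _ _)) hW)
    (by
      refine mul_mem (add_mem (mul_mem (Subalgebra.algebraMap_mem _ _)
        (mul_mem (Subalgebra.algebraMap_mem _ _) (Free_J _ _ (nv _ _ hwv hxv))))
        (mul_mem (Subalgebra.algebraMap_mem _ _) (Subalgebra.algebraMap_mem _ _))) hW)
    (mul_mem (mul_mem (Subalgebra.algebraMap_mem _ _) (Subalgebra.algebraMap_mem _ _)) hW)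
  have e3 : J R s(v, w) * J R s(w, x) = J R s(v, w) * J R s(w, x) := rfl
  refine Eq.trans ?_ (hk.trans ?_)
  · congr 1
    unfold net3
    linear_combination (algebraMap R (Q V R) ft * J R s(w, x) * W +
      algebraMap R (Q V R) fB * W) * e1 + (algebraMap R (Q V R) f7 * W) * e2
  · congr 1
    unfold net3
    simp only [map_add, map_mul]
    ring

/-- a product of two networks on three vertices -/
private theorem elim_last {V : Type*} [DecidableEq V] (A : Finset V) (v w x : V) (hv : v ∈ A)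
    (hw : w ∈ A) (hx : x ∈ A) (hwv : w ≠ v) (hxv : x ≠ v) (hxw : x ≠ w)
    (hA : (A.erase v).erase w = {x})
    (gt g5 g7 gB gn ht h5 h7 hB hn : R) :
    tau A (net3 v w x gt g5 g7 gB gn * net3 v w x ht h5 h7 hB hn) =
      gt * hn + gn * ht + g5 * (h7 + hB) + g7 * (h5 + hB) + gB * (h5 + h7) := by
  have nv : ∀ p q : V, p ≠ v → q ≠ v → v ∉ s(p, q) := by
    intro p q hp hq h
    rw [Sym2.mem_iff] at h
    rcases h with h | h
    · exact hp h.symm
    · exact hq h.symm
  have e1 : J R s(v, w) * J R s(v, w) = 0 := by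
    have := J_tri (R := R) v w v
    rw [J_self, zero_mul, Sym2.eq_swap (a := w) (b := v)] at this
    exact this
  have e2 : J R s(w, x) * J R s(w, x) = 0 := by
    have := J_tri (R := R) w x w
    rw [J_self, zero_mul, Sym2.eq_swap (a := x) (b := w)] at this
    exact this
  have e3 : J R s(v, x) * J R s(v, x) = 0 := by
    have := J_tri (R := R) v x v
    rw [J_self, zero_mul, Sym2.eq_swap (a := x) (b := v)] at this
    exact this
  have e4 : J R s(v, x) * J R s(w, x) = J R s(v, w) * J R s(w, x) := by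
    have := J_tri (R := R) v x w
    rw [Sym2.eq_swap (a := x) (b := w)] at this
    exact this
  have e5 : J R s(v, w) * J R s(v, x) = J R s(v, w) * J R s(w, x) := by
    have := J_tri (R := R) w v x
    rw [Sym2.eq_swap (a := w) (b := v)] at this
    rw [this, mul_comm, e4]
  have hk := elim3 (R := R) A v w x x hv hw hx hx hwv hxv hxv
    (algebraMap R (Q V R) (g5 * hn + gn * h5) * J R s(w, x) + algebraMap R (Q V R) (gn * hn))
    (algebraMap R (Q V R) (gt * hn + gn * ht + g5 * (h7 + hB) + g7 * (h5 + hB) + gB * (h5 + h7)) *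
      J R s(w, x) + algebraMap R (Q V R) (gB * hn + gn * hB))
    (algebraMap R (Q V R) (g7 * hn + gn * h7)) 0
    (add_mem (mul_mem (Subalgebra.algebraMap_mem _ _) (Free_J _ _ (nv _ _ hwv hxv)))
      (Subalgebra.algebraMap_mem _ _))
    (add_mem (mul_mem (Subalgebra.algebraMap_mem _ _) (Free_J _ _ (nv _ _ hwv hxv)))
      (Subalgebra.algebraMap_mem _ _))
    (Subalgebra.algebraMap_mem _ _) (zero_mem _)
  refine Eq.trans ?_ (hk.trans ?_)
  · congr 1
    unfold net3
    simp only [map_add, map_mul]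
    generalize algebraMap R (Q V R) gt = cgt
    generalize algebraMap R (Q V R) g5 = cg5
    generalize algebraMap R (Q V R) g7 = cg7
    generalize algebraMap R (Q V R) gB = cgB
    generalize algebraMap R (Q V R) gn = cgn
    generalize algebraMap R (Q V R) ht = cht
    generalize algebraMap R (Q V R) h5 = ch5
    generalize algebraMap R (Q V R) h7 = ch7
    generalize algebraMap R (Q V R) hB = chB
    generalize algebraMap R (Q V R) hn = chn
    revert e1 e2 e3 e4 e5
    generalize J R s(v, w) = p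
    generalize J R s(w, x) = q
    generalize J R s(v, x) = r
    intro e1 e2 e3 e4 e5
    linear_combination (cgt * cht * q * q + cgt * chB * q + cgB * cht * q + cgB * chB) * e1 +
      (cgt * ch5 * p + cg5 * cht * p + cg5 * ch5) * e2 + cg7 * ch7 * e3 +
      (cg7 * ch5 + cg5 * ch7) * e4 + (cgt * ch7 * q + cg7 * cht * q + cgB * ch7 + cg7 * chB) * e5 +
      (cgt * ch7 * p + cg7 * cht * p) * e2
  · have hw' : w ∈ A.erase v := Finset.mem_erase.mpr ⟨hwv, hw⟩
    have hx' : x ∈ A.erase v := Finset.mem_erase.mpr ⟨hxv, hx⟩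
    have hc : 2 ≤ (A.erase v).card := by
      rw [← Finset.card_pair hxw]
      refine Finset.card_le_card ?_
      intro y hy
      rw [Finset.mem_insert, Finset.mem_singleton] at hy
      rcases hy with rfl | rfl
      · exact hx'
      · exact hw'
    have h1 : algebraMap R (Q V R)
        (gt * hn + gn * ht + g5 * (h7 + hB) + g7 * (h5 + hB) + gB * (h5 + h7)) * J R s(w, x) +
        algebraMap R (Q V R) (gB * hn + gn * hB) + algebraMap R (Q V R) (g7 * hn + gn * h7) + 0 =
        J R s(w, x) * algebraMap R (Q V R)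
          (gt * hn + gn * ht + g5 * (h7 + hB) + g7 * (h5 + hB) + gB * (h5 + h7)) +
        algebraMap R (Q V R) (gB * hn + gn * hB + (g7 * hn + gn * h7)) := by
      simp only [map_add, map_mul]
      ring
    rw [h1, map_add, tau_elim1 _ w x hw' hx' hxw _ (Subalgebra.algebraMap_mem _ _),
      tau_elim0 _ w hw' hc _ (Subalgebra.algebraMap_mem _ _), hA, add_zero]
    have h2 := tau_smul ({x} : Finset V)
      (gt * hn + gn * ht + g5 * (h7 + hB) + g7 * (h5 + hB) + gB * (h5 + h7)) (1 : Q V R)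
    rw [mul_one, tau_one, mul_one] at h2
    exact h2

private theorem net3_swap {V : Type*} (v w x : V) (ft f5 f7 fB fn : R) :
    net3 v w x ft f5 f7 fB fn = net3 w v x ft f7 f5 fB fn := by
  have e4 : J R s(v, w) * J R s(w, x) = J R s(v, w) * J R s(v, x) := by
    have := J_tri (R := R) w v x
    rw [Sym2.eq_swap (a := w) (b := v)] at this
    rw [this, J_tri v w x, mul_comm]
  unfold net3
  rw [Sym2.eq_swap (a := w) (b := v)]
  linear_combination algebraMap R (Q V R) ft * e4

private theorem prod13 {M : Type*} [CommMonoid M] (f : Fin 13 → M) :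
    ∏ i, f i = f 0 * f 1 * f 2 * f 3 * f 4 * f 5 * f 6 * f 7 * f 8 * f 9 * f 10 * f 11 * f 12 := by
  rw [Fin.prod_univ_castSucc, Fin.prod_univ_castSucc, Fin.prod_univ_castSucc,
    Fin.prod_univ_castSucc, Fin.prod_univ_castSucc, Fin.prod_univ_eight]
  rfl

/-- the two halves, the edges 5-6 and 7-8, after the elimination of the inner vertices -/
private theorem five (a b ft f5 f7 fB fn gt g8 g6 gB gn : R) :
    tau ((univ \ {0, 9, 10, 2, 12}) \ {4, 14, 3, 1, 11} : Finset (Fin 15))
      (net3 8 6 13 gt g8 g6 gB gn * (net3 5 7 13 ft f5 f7 fB fn *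
        ((algebraMap R (Q (Fin 15) R) a + J R s(5, 6)) *
          (algebraMap R (Q (Fin 15) R) b + J R s(7, 8))))) =
      psi ft f5 f7 fB fn gt g8 g6 gB gn a b := by
  have hfree : ∀ (v p q : Fin 15), v ∉ s(p, q) → J R s(p, q) ∈ Free R v :=
    fun v p q h => Free_J v _ h
  have hnet : ∀ (v p q x : Fin 15) (gt g8 g6 gB gn : R), v ∉ s(p, q) → v ∉ s(q, x) →
      v ∉ s(p, x) → net3 p q x gt g8 g6 gB gn ∈ Free R v := by
    intro v p q x gt g8 g6 gB gn h1 h2 h3
    unfold net3
    exact add_mem (add_mem (add_mem (add_mem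
        (mul_mem (Subalgebra.algebraMap_mem _ _)
          (mul_mem (hfree _ _ _ h1) (hfree _ _ _ h2)))
        (mul_mem (Subalgebra.algebraMap_mem _ _) (hfree _ _ _ h2)))
        (mul_mem (Subalgebra.algebraMap_mem _ _) (hfree _ _ _ h3)))
        (mul_mem (Subalgebra.algebraMap_mem _ _) (hfree _ _ _ h1)))
        (Subalgebra.algebraMap_mem _ _)
  have hA : ((univ \ {0, 9, 10, 2, 12}) \ {4, 14, 3, 1, 11} : Finset (Fin 15)) =
      {5, 6, 7, 8, 13} := by decide
  rw [hA]
  have s1 := elim_first (R := R) ({5, 6, 7, 8, 13} : Finset (Fin 15)) 5 6 7 13 (by decide)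
    (by decide) (by decide) (by decide) (by decide) (by decide) (by decide) a ft f5 f7 fB fn
    (net3 8 6 13 gt g8 g6 gB gn * (algebraMap R (Q (Fin 15) R) b + J R s(7, 8)))
    (mul_mem (hnet _ _ _ _ _ _ _ _ _ (by decide) (by decide) (by decide))
      (add_mem (Subalgebra.algebraMap_mem _ _) (hfree _ _ _ (by decide))))
  have hA1 : ({5, 6, 7, 8, 13} : Finset (Fin 15)).erase 5 = {6, 7, 8, 13} := by decide
  rw [hA1] at s1
  have s2 := elim_first (R := R) ({6, 7, 8, 13} : Finset (Fin 15)) 7 8 6 13 (by decide)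
    (by decide) (by decide) (by decide) (by decide) (by decide) (by decide) b ft f7 (f5 + a * ft)
    fB (fn + a * (f7 + fB)) (net3 8 6 13 gt g8 g6 gB gn)
    (hnet _ _ _ _ _ _ _ _ _ (by decide) (by decide) (by decide))
  have hA2 : ({6, 7, 8, 13} : Finset (Fin 15)).erase 7 = {6, 8, 13} := by decide
  rw [hA2] at s2
  have s3 := elim_last (R := R) ({6, 8, 13} : Finset (Fin 15)) 8 6 13 (by decide)
    (by decide) (by decide) (by decide) (by decide) (by decide) (by decide)
    gt g8 g6 gB gn ft (f7 + b * ft) (f5 + a * ft) fB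
    (fn + a * (f7 + fB) + b * (f5 + a * ft + fB))
  have t1 : net3 8 6 13 gt g8 g6 gB gn * (net3 5 7 13 ft f5 f7 fB fn *
        ((algebraMap R (Q (Fin 15) R) a + J R s(5, 6)) *
          (algebraMap R (Q (Fin 15) R) b + J R s(7, 8)))) =
        (algebraMap R (Q (Fin 15) R) a + J R s(5, 6)) * net3 5 7 13 ft f5 f7 fB fn *
        (net3 8 6 13 gt g8 g6 gB gn * (algebraMap R (Q (Fin 15) R) b + J R s(7, 8))) := by
    ring
  have t2 : net3 6 7 13 ft (f5 + a * ft) f7 fB (fn + a * (f7 + fB)) *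
          (net3 8 6 13 gt g8 g6 gB gn * (algebraMap R (Q (Fin 15) R) b + J R s(7, 8))) =
        (algebraMap R (Q (Fin 15) R) b + J R s(7, 8)) *
          net3 7 6 13 ft f7 (f5 + a * ft) fB (fn + a * (f7 + fB)) *
          net3 8 6 13 gt g8 g6 gB gn := by
    rw [net3_swap 6 7 13]
    ring
  rw [t1, s1, t2, s2, mul_comm, s3]
  unfold psi
  ring

end

theorem kirchhoff_HX {R : Type*} [CommRing R] (a : HX.edgeSet → R) :
    kirchhoff HX a =
      psi (nt fun i => a ⟨ends (Sum.inl i), mem_HX _⟩) (n5 fun i => a ⟨ends (Sum.inl i), mem_HX _⟩)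
        (n7 fun i => a ⟨ends (Sum.inl i), mem_HX _⟩) (nB fun i => a ⟨ends (Sum.inl i), mem_HX _⟩)
        (nn fun i => a ⟨ends (Sum.inl i), mem_HX _⟩)
        (nt fun i => a ⟨ends (Sum.inr (Sum.inl i)), mem_HX _⟩)
        (n5 fun i => a ⟨ends (Sum.inr (Sum.inl i)), mem_HX _⟩)
        (n7 fun i => a ⟨ends (Sum.inr (Sum.inl i)), mem_HX _⟩)
        (nB fun i => a ⟨ends (Sum.inr (Sum.inl i)), mem_HX _⟩)
        (nn fun i => a ⟨ends (Sum.inr (Sum.inl i)), mem_HX _⟩)
        (a ⟨ends (Sum.inr (Sum.inr 0)), mem_HX _⟩) (a ⟨ends (Sum.inr (Sum.inr 1)), mem_HX _⟩) := by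
  have h : kirchhoff HX a =
      tau univ (∏ i, (algebraMap R (Q (Fin 15) R) (a ⟨ends i, mem_HX i⟩) + J R (ends i))) :=
    kirchhoff_eq_tau ends ends_inj ends_diag a
  have hL : ∏ i : Fin 13, (algebraMap R (Q (Fin 15) R) (a ⟨ends (Sum.inl i), mem_HX _⟩) +
      J R (ends (Sum.inl i))) =
      leftProd 5 7 13 0 9 10 2 12 (fun i => a ⟨ends (Sum.inl i), mem_HX _⟩) := by
    rw [prod13]
    rfl
  have hR : ∏ i : Fin 13, (algebraMap R (Q (Fin 15) R) (a ⟨ends (Sum.inr (Sum.inl i)), mem_HX _⟩) +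
      J R (ends (Sum.inr (Sum.inl i)))) =
      leftProd 8 6 13 4 14 3 1 11 (fun i => a ⟨ends (Sum.inr (Sum.inl i)), mem_HX _⟩) := by
    rw [prod13]
    rfl
  have hS : ∏ i : Fin 2, (algebraMap R (Q (Fin 15) R) (a ⟨ends (Sum.inr (Sum.inr i)), mem_HX _⟩) +
      J R (ends (Sum.inr (Sum.inr i)))) =
      (algebraMap R (Q (Fin 15) R) (a ⟨ends (Sum.inr (Sum.inr 0)), mem_HX _⟩) + J R s(5, 6)) *
      (algebraMap R (Q (Fin 15) R) (a ⟨ends (Sum.inr (Sum.inr 1)), mem_HX _⟩) + J R s(7, 8)) := by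
    rw [Fin.prod_univ_two]
    rfl
  have hprod : ∀ (v w5 w7 wB v0 v9 va v2 vd : Fin 15) (c : Fin 13 → R),
      v ∉ [w5, w7, wB, v0, v9, va, v2, vd] →
      leftProd w5 w7 wB v0 v9 va v2 vd c ∈ Free R v := by
    intro v w5 w7 wB v0 v9 va v2 vd c hv
    simp only [List.mem_cons, List.not_mem_nil, or_false, not_or] at hv
    obtain ⟨h1, h2, h3, h4, h5, h6, h7, h8⟩ := hv
    have key : ∀ (r : R) (p q : Fin 15), v ≠ p → v ≠ q →
        algebraMap R (Q (Fin 15) R) r + J R s(p, q) ∈ Free R v := by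
      intro r p q hp hq
      refine add_mem (Subalgebra.algebraMap_mem _ _) (Free_J _ _ ?_)
      rw [Sym2.mem_iff]
      exact not_or.mpr ⟨hp, hq⟩
    unfold leftProd
    refine mul_mem (mul_mem (mul_mem (mul_mem (mul_mem (mul_mem (mul_mem (mul_mem (mul_mem
      (mul_mem (mul_mem (mul_mem ?_ ?_) ?_) ?_) ?_) ?_) ?_) ?_) ?_) ?_) ?_) ?_) ?_ <;>
    exact key _ _ _ (by assumption) (by assumption)
  have hedge : ∀ (v p q : Fin 15) (r : R), v ∉ s(p, q) →
      algebraMap R (Q (Fin 15) R) r + J R s(p, q) ∈ Free R v := by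
    intro v p q r hv
    exact add_mem (Subalgebra.algebraMap_mem _ _) (Free_J _ _ hv)
  have hnet : ∀ (v p q x : Fin 15) (gt g8 g6 gB gn : R), v ∉ s(p, q) → v ∉ s(q, x) →
      v ∉ s(p, x) → net3 p q x gt g8 g6 gB gn ∈ Free R v := by
    intro v p q x gt g8 g6 gB gn h1 h2 h3
    unfold net3
    exact add_mem (add_mem (add_mem (add_mem
        (mul_mem (Subalgebra.algebraMap_mem _ _)
          (mul_mem (Free_J _ _ h1) (Free_J _ _ h2)))
        (mul_mem (Subalgebra.algebraMap_mem _ _) (Free_J _ _ h2)))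
        (mul_mem (Subalgebra.algebraMap_mem _ _) (Free_J _ _ h3)))
        (mul_mem (Subalgebra.algebraMap_mem _ _) (Free_J _ _ h1)))
        (Subalgebra.algebraMap_mem _ _)
  rw [h, Fintype.prod_sum_type, Fintype.prod_sum_type, hL, hR, hS]
  rw [left_elim univ 5 7 13 0 9 10 2 12 (by decide) (fun x _ => mem_univ x) _ _ ?_]
  · rw [mul_left_comm]
    rw [left_elim _ 8 6 13 4 14 3 1 11 (by decide) (by decide) _ _ ?_]
    · exact five _ _ _ _ _ _ _ _ _ _ _ _
    · intro x hx
      simp only [List.mem_cons, List.not_mem_nil, or_false] at hx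
      rcases hx with rfl | rfl | rfl | rfl | rfl <;>
      exact mul_mem (hnet _ _ _ _ _ _ _ _ _ (by decide) (by decide) (by decide))
        (mul_mem (hedge _ _ _ _ (by decide)) (hedge _ _ _ _ (by decide)))
  · intro x hx
    simp only [List.mem_cons, List.not_mem_nil, or_false] at hx
    rcases hx with rfl | rfl | rfl | rfl | rfl <;>
    exact mul_mem (hprod _ _ _ _ _ _ _ _ _ _ (by decide))
      (mul_mem (hedge _ _ _ _ (by decide)) (hedge _ _ _ _ (by decide)))

end MP06b.CX
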