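import Pool.Agent.Lib.MP_06b34c_co.CX.Desc
import Pool.Agent.Lib.MP_06b34c_co.CX.HXDefs

/-! # MP_06b34c, counterexample: the graph part

`GX`: the graph on `Fin 16` with the edges of `HX` (castSucc) and the edges from 15 to 1, 2, 11, 12.
* `HX_fourPoint`: `GX` is connected and four-regular (`decide`, give a `DecidableRel` instance for
  the adjacency, e.g. by a Boolean matrix or a list of edges and a lemma that identifies it with
  `HX.Adj`), and `HX ≃g del GX 15`.
* `completion_unique`: if `G` is four-regular, `v : V` and `H = G - v`, then a vertex of `H` is adjacent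
  to `v` in `G` iff its degree in `H` is 3 (otherwise it is 4).
* `HX_not`: Suppose `φ : HX ≃g del G v`, `G` a descendant. By `desc_double` there are `a, b, c, d`. Map
  `ψ : V → Fin 16`, `v ↦ 15`, `x ↦ φ⁻¹ x` (castSucc). It preserves adjacency: for
  `x, y ≠ v` clear; for `x ≠ v`: `x` adjacent to `v` iff `ncard` of the neighbour set of `x` in
  `del G v` is 3, iff `ncard` of the neighbour set of `φ⁻¹ x` in `HX` is 3, iff `φ⁻¹ x ∈ {1, 2, 11, 12}`
  (`decide`), iff adjacent to 15 in `GX`. So `GX` has an edge in two different triangles, which is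
  false (`decide`: its triangles are 0 2 9, 1 4 14, 3 6 8, 5 7 10). -/

namespace MP06b.CX

/-- lists of neighbours in the completed graph -/
private def nb : Fin 16 → List (Fin 16) :=
  ![[12, 7, 2, 9], [3, 4, 14, 15], [10, 0, 9, 15], [8, 6, 11, 1], [11, 6, 1, 14], [7, 10, 9, 6],
    [8, 3, 4, 5], [5, 10, 0, 8], [6, 3, 14, 7], [13, 5, 2, 0], [5, 7, 12, 2], [13, 4, 3, 15],
    [13, 0, 10, 15], [9, 12, 14, 11], [13, 8, 1, 4], [1, 2, 11, 12]]

/-- adjacency in the completed graph -/
private def adj16 (x y : Fin 16) : Bool := (nb x).contains y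

/-- adjacency in `HX` -/
private def adj15 (x y : Fin 15) : Bool := adj16 x.castSucc y.castSucc

private theorem adj16_symm : ∀ x y : Fin 16, adj16 x y = true → adj16 y x = true := by
  decide +kernel

private theorem adj16_irrefl : ∀ x : Fin 16, ¬ adj16 x x = true := by
  decide +kernel

/-- the completed graph -/
private def GX : SimpleGraph (Fin 16) where
  Adj x y := adj16 x y = true
  symm := ⟨adj16_symm⟩
  loopless := ⟨adj16_irrefl⟩

private theorem HX_adj_aux : ∀ x y : Fin 15, ((∃ i, ends i = s(x, y)) ∧ x ≠ y) ↔ adj15 x y = true := by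
  decide +kernel

private theorem HX_adj (x y : Fin 15) : HX.Adj x y ↔ adj15 x y = true := by
  rw [← HX_adj_aux, HX, SimpleGraph.fromEdgeSet_adj, Set.mem_range]

private def par : Fin 16 → Fin 16 :=
  ![0, 15, 0, 1, 1, 7, 5, 0, 7, 0, 7, 13, 0, 9, 8, 2]

private def dep : Fin 16 → ℕ := ![0, 3, 1, 4, 4, 2, 3, 1, 2, 1, 2, 3, 1, 2, 3, 2]

private theorem par_spec : ∀ x : Fin 16, x = 0 ∨ (adj16 (par x) x = true ∧ dep (par x) < dep x) := by
  decide +kernel

private theorem GX_reach : ∀ (n : ℕ) (x : Fin 16), dep x ≤ n → GX.Reachable 0 x := by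
  intro n
  induction n with
  | zero =>
    intro x hx
    rcases par_spec x with h | ⟨_, h⟩
    · rw [h]
    · omega
  | succ n ih =>
    intro x hx
    rcases par_spec x with h | ⟨h1, h⟩
    · rw [h]
    · have h2 : GX.Adj (par x) x := h1
      exact (ih (par x) (by omega)).trans h2.reachable

private theorem GX_conn : GX.Connected :=
  ⟨fun x y => (GX_reach _ x le_rfl).symm.trans (GX_reach _ y le_rfl)⟩

private theorem card16 : ∀ x : Fin 16, (Finset.univ.filter fun y => adj16 x y = true).card = 4 := by
  decide +kernel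

private theorem GX_reg (x : Fin 16) : (GX.neighborSet x).ncard = 4 := by
  have h : GX.neighborSet x = ((Finset.univ.filter fun y => adj16 x y = true : Finset (Fin 16)) :
      Set (Fin 16)) := by
    ext y
    simp only [SimpleGraph.mem_neighborSet, Finset.coe_filter, Finset.mem_univ, true_and,
      Set.mem_ofPred_eq]
    rfl
  rw [h, Set.ncard_coe_finset, card16]

private theorem card15 : ∀ x : Fin 15, (Finset.univ.filter fun y => adj15 x y = true).card = 3 →
    adj16 x.castSucc 15 = true := by
  decide +kernel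

private theorem HX_three (x : Fin 15) (h : (HX.neighborSet x).ncard = 3) :
    GX.Adj x.castSucc 15 := by
  have h1 : HX.neighborSet x = ((Finset.univ.filter fun y => adj15 x y = true : Finset (Fin 15)) :
      Set (Fin 15)) := by
    ext y
    simp only [SimpleGraph.mem_neighborSet, Finset.coe_filter, Finset.mem_univ, true_and,
      Set.mem_ofPred_eq, HX_adj]
  rw [h1, Set.ncard_coe_finset] at h
  exact card15 x h

private theorem no_double : ∀ a b : Fin 16, adj16 a b = true → ∀ c : Fin 16, adj16 a c = true →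
    adj16 b c = true → ∀ d : Fin 16, adj16 a d = true → adj16 b d = true → c = d := by
  decide +kernel

theorem HX_fourPoint : IsFourPoint HX := by
  refine ⟨Fin 16, GX, 15, inferInstance, GX_conn, GX_reg, ⟨?_⟩⟩
  refine
    { toFun := fun x => ⟨x.castSucc, (Fin.castSucc_lt_last x).ne⟩
      invFun := fun y => y.1.castPred y.2
      left_inv := fun x => by simp
      right_inv := fun y => by simp
      map_rel_iff' := ?_ }
  intro x y
  rw [HX_adj]
  exact Iff.rfl

private theorem ncard_del {V : Type} [Finite V] (G : SimpleGraph V) (v x : V) (hx : x ≠ v)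
    (h : G.Adj x v) (h4 : (G.neighborSet x).ncard = 4) :
    ((del G v).neighborSet ⟨x, hx⟩).ncard = 3 := by
  have h1 : (Subtype.val '' ((del G v).neighborSet ⟨x, hx⟩) : Set V) = G.neighborSet x \ {v} := by
    ext y
    simp only [Set.mem_image, SimpleGraph.mem_neighborSet, Set.mem_sdiff, Set.mem_singleton_iff]
    constructor
    · rintro ⟨z, hz, rfl⟩
      exact ⟨hz, z.2⟩
    · rintro ⟨hy, hyv⟩
      exact ⟨⟨y, hyv⟩, hy, rfl⟩
  have h2 : (G.neighborSet x \ {v}).ncard + 1 = 4 := by
    rw [← h4]
    exact Set.ncard_sdiff_singleton_add_one h (Set.toFinite _)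
  rw [← h1, Set.ncard_image_of_injective _ Subtype.val_injective] at h2
  omega

private theorem ncard_iso {V W : Type} {G : SimpleGraph V} {H : SimpleGraph W} (e : G ≃g H) (x : V) :
    (H.neighborSet (e x)).ncard = (G.neighborSet x).ncard := by
  have h : H.neighborSet (e x) = e '' G.neighborSet x := by
    ext y
    simp only [SimpleGraph.mem_neighborSet, Set.mem_image]
    constructor
    · intro hy
      refine ⟨e.symm y, ?_, by simp⟩
      rw [← e.map_adj_iff]
      simpa using hy
    · rintro ⟨z, hz, rfl⟩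
      exact e.map_adj_iff.2 hz
  rw [h, Set.ncard_image_of_injective _ e.injective]

theorem HX_not : ¬ IsDecompletionOfDescendant HX := by
  rintro ⟨V, G, v, hG, ⟨φ⟩⟩
  classical
  have : Finite V := desc_finite hG
  let ψ : V → Fin 16 := fun x => if h : x ≠ v then (φ.symm ⟨x, h⟩).castSucc else 15
  have hψ1 : ∀ x (h : x ≠ v), ψ x = (φ.symm ⟨x, h⟩).castSucc := fun x h => dif_pos h
  have hψ2 : ψ v = 15 := dif_neg (by simp)
  have hinj : Function.Injective ψ := by
    intro x y hxy
    by_cases hx : x ≠ v
    · by_cases hy : y ≠ v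
      · rw [hψ1 x hx, hψ1 y hy] at hxy
        have h1 := φ.symm.injective (Fin.castSucc_injective _ hxy)
        exact congrArg Subtype.val h1
      · rw [not_not] at hy
        subst hy
        rw [hψ1 x hx, hψ2] at hxy
        exact absurd hxy (Fin.castSucc_lt_last _).ne
    · rw [not_not] at hx
      subst hx
      by_cases hy : y ≠ x
      · rw [hψ1 y hy, hψ2] at hxy
        exact absurd hxy.symm (Fin.castSucc_lt_last _).ne
      · rw [not_not] at hy
        exact hy.symm
  have hv : ∀ x, x ≠ v → G.Adj x v → GX.Adj (ψ x) (ψ v) := by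
    intro x hx h
    rw [hψ1 x hx, hψ2]
    refine HX_three _ ?_
    rw [← ncard_iso φ, φ.apply_symm_apply]
    exact ncard_del G v x hx h (desc_regular hG x)
  have hadj : ∀ x y, G.Adj x y → GX.Adj (ψ x) (ψ y) := by
    intro x y h
    by_cases hx : x = v
    · subst hx
      exact (hv y h.ne' h.symm).symm
    · by_cases hy : y = v
      · subst hy
        exact hv x hx h
      · rw [hψ1 x hx, hψ1 y hy]
        have h1 : (del G v).Adj ⟨x, hx⟩ ⟨y, hy⟩ := h
        have h2 : HX.Adj (φ.symm ⟨x, hx⟩) (φ.symm ⟨y, hy⟩) := φ.symm.map_adj_iff.2 h1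
        exact (HX_adj _ _).1 h2
  obtain ⟨a, b, c, d, hab, hcd, hac, hbc, had, hbd⟩ := desc_double hG
  exact hcd (hinj (no_double _ _ (hadj _ _ hab) _ (hadj _ _ hac) (hadj _ _ hbc) _ (hadj _ _ had)
    (hadj _ _ hbd)))

end MP06b.CX
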