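import Pool.Agent.Lib.MP_06b34c_co.GDefs

/-! # MP_06b34c: four point graphs and descendants of `K_5` -/

namespace MP06b.CX

open MP06b

/-- the double triangle expansion of `G` at `v₁, v₂, v₃, v₄`: the edges `v₁v₃` and `v₂v₄` are
subdivided and the two new vertices are identified (the new vertex is `none`) -/
def expansion {V : Type} (G : SimpleGraph V) (v₁ v₂ v₃ v₄ : V) : SimpleGraph (Option V) :=
  SimpleGraph.fromRel fun x y =>
    (∃ a b, x = some a ∧ y = some b ∧ G.Adj a b ∧ s(a, b) ≠ s(v₁, v₃) ∧ s(a, b) ≠ s(v₂, v₄)) ∨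
    (x = none ∧ (y = some v₁ ∨ y = some v₂ ∨ y = some v₃ ∨ y = some v₄))

/-- `K_5` descendants (up to isomorphism): the complete graph with five vertices, and with `G` every
double triangle expansion of `G`, that is for different vertices `v₁, v₂, v₃, v₄` such that
`v₁ v₂ v₃` is a triangle and `v₂ v₄` is an edge -/
inductive IsK5Descendant : {V : Type} → SimpleGraph V → Prop
  | base {V : Type} (G : SimpleGraph V) (e : G ≃g (⊤ : SimpleGraph (Fin 5))) : IsK5Descendant G
  | step {V W : Type} (G : SimpleGraph V) (G' : SimpleGraph W) (v₁ v₂ v₃ v₄ : V)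
      (h : IsK5Descendant G) (hd : [v₁, v₂, v₃, v₄].Nodup)
      (h12 : G.Adj v₁ v₂) (h23 : G.Adj v₂ v₃) (h13 : G.Adj v₁ v₃) (h24 : G.Adj v₂ v₄)
      (e : G' ≃g expansion G v₁ v₂ v₃ v₄) : IsK5Descendant G'

/-- a four point graph: a decompletion of a finite connected four-regular graph -/
def IsFourPoint {W : Type} (H : SimpleGraph W) : Prop :=
  ∃ (V : Type) (G : SimpleGraph V) (v : V), Finite V ∧ G.Connected ∧
    (∀ x, (G.neighborSet x).ncard = 4) ∧ Nonempty (H ≃g del G v)

/-- every set of at least two vertices whose complement has at least two vertices is left by at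
least six edges -/
def InternallySix {V : Type} (G : SimpleGraph V) : Prop :=
  ∀ S : Set V, 2 ≤ S.encard → 2 ≤ Sᶜ.encard →
    6 ≤ {e | e ∈ G.edgeSet ∧ ∃ x ∈ S, ∃ y ∈ Sᶜ, e = s(x, y)}.encard

/-- a decompletion of a finite connected four-regular graph which is internally
six-edge-connected -/
def IsPrimitiveFourPoint {W : Type} (H : SimpleGraph W) : Prop :=
  ∃ (V : Type) (G : SimpleGraph V) (v : V), Finite V ∧ G.Connected ∧
    (∀ x, (G.neighborSet x).ncard = 4) ∧ InternallySix G ∧ Nonempty (H ≃g del G v)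

/-- a decompletion of a `K_5` descendant -/
def IsDecompletionOfDescendant {W : Type} (H : SimpleGraph W) : Prop :=
  ∃ (V : Type) (G : SimpleGraph V) (v : V), IsK5Descendant G ∧ Nonempty (H ≃g del G v)

end MP06b.CX
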