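import Pool.Agent.Lib.MP_06b34c_co.GDefs
import Pool.Agent.Lib.MP_06b34c_co.CX.Tau

/-! # MP_06b34c, counterexample: the Kirchhoff polynomial and `tau`

For a graph `H` whose edges are the different values of `E : ι → Sym2 W` (no loops):
`kirchhoff H a = tau univ (∏ i, (a_i + J (E i)))`.

Proof. `Finset.prod_add` expands the product: the sum over the subsets `t` of `ι` of
`∏_{i ∈ t} J (E i) * ∏_{i ∉ t} a_i` (use commutativity of the two summands first). By linearity
and `tau_prod` its value is the sum over `t` of `∏_{i ∉ t} a_i` if `TreeOn univ (t.val.map E)`.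
And `TreeOn univ (t.val.map E) ↔ (fromEdgeSet (image of t)).IsTree` by
`SimpleGraph.isTree_iff_connected_and_card` (the edge set of `fromEdgeSet` is the image of `t`,
there are no loops) and since `Conn m x y` is reachability. Finally reindex the subsets of the
edge set by the subsets of `ι` with `Equiv.ofInjective`. -/

namespace MP06b.CX

open Finset MP06b

theorem mem_edge {W ι : Type*} (E : ι → Sym2 W) (hd : ∀ i, ¬ (E i).IsDiag) (i : ι) :
    E i ∈ (SimpleGraph.fromEdgeSet (Set.range E)).edgeSet := by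
  rw [SimpleGraph.edgeSet_fromEdgeSet]
  exact ⟨⟨i, rfl⟩, hd i⟩

private theorem conn_iff_reach {W : Type*} (S : Set (Sym2 W)) (m : Multiset (Sym2 W))
    (hm : ∀ e, e ∈ m ↔ e ∈ S) (x y : W) :
    Conn m x y ↔ (SimpleGraph.fromEdgeSet S).Reachable x y := by
  constructor
  · intro h
    induction h with
    | rel a b hab =>
      by_cases h : a = b
      · subst h
        exact SimpleGraph.Reachable.refl _
      · apply SimpleGraph.Adj.reachable
        rw [SimpleGraph.fromEdgeSet_adj]
        exact ⟨(hm _).1 hab, h⟩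
    | refl a => exact SimpleGraph.Reachable.refl _
    | symm a b _ ih => exact ih.symm
    | trans a b c _ _ ih1 ih2 => exact ih1.trans ih2
  · rintro ⟨w⟩
    induction w with
    | nil => exact Relation.EqvGen.refl _
    | cons h _ ih =>
      rw [SimpleGraph.fromEdgeSet_adj] at h
      exact Relation.EqvGen.trans _ _ _ (Relation.EqvGen.rel _ _ ((hm _).2 h.1)) ih

private theorem tree_iff {W ι : Type*} [Fintype W] [DecidableEq W]
    (E : ι → Sym2 W) (hE : Function.Injective E) (hd : ∀ i, ¬ (E i).IsDiag) (t : Finset ι) :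
    (SimpleGraph.fromEdgeSet (E '' (t : Set ι))).IsTree ↔
      TreeOn (univ : Finset W) (t.val.map E) := by
  have hm : ∀ e, e ∈ t.val.map E ↔ e ∈ E '' (t : Set ι) := by
    intro e
    simp [Multiset.mem_map]
  have hes : (SimpleGraph.fromEdgeSet (E '' (t : Set ι))).edgeSet = E '' (t : Set ι) := by
    rw [SimpleGraph.edgeSet_fromEdgeSet]
    ext e
    constructor
    · exact fun h => h.1
    · rintro ⟨i, hi, rfl⟩
      exact ⟨⟨i, hi, rfl⟩, hd i⟩
  have hcard : Nat.card (SimpleGraph.fromEdgeSet (E '' (t : Set ι))).edgeSet = t.card := by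
    rw [hes, Nat.card_image_of_injective hE]
    simp
  rw [SimpleGraph.isTree_iff_connected_and_card, hcard, Nat.card_eq_fintype_card]
  unfold TreeOn
  rw [Multiset.card_map, Finset.card_univ]
  constructor
  · rintro ⟨h1, h2⟩
    refine ⟨h2, fun _ _ x _ => mem_univ x, fun x _ y _ => ?_⟩
    rw [conn_iff_reach _ _ hm]
    exact h1.preconnected x y
  · rintro ⟨h1, -, h3⟩
    have hne : Nonempty W := by
      rw [← Fintype.card_pos_iff]
      omega
    refine ⟨⟨fun x y => ?_⟩, h1⟩
    rw [← conn_iff_reach _ _ hm]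
    exact h3 x (mem_univ x) y (mem_univ y)

private theorem kir_aux {W ι R : Type*} [Fintype W] [DecidableEq W] [Fintype ι] [DecidableEq ι]
    [CommRing R] (H : SimpleGraph W) (E : ι → Sym2 W) (hE : Function.Injective E)
    (hd : ∀ i, ¬ (E i).IsDiag) (f : ι ≃ H.edgeSet) (hfi : ∀ i, (f i : Sym2 W) = E i)
    (a : H.edgeSet → R) :
    kirchhoff H a = tau univ (∏ i, (J R (E i) + algebraMap R (Q W R) (a (f i)))) := by
  classical
  rw [Finset.prod_add, map_sum, Finset.powerset_univ]
  unfold kirchhoff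
  symm
  apply Fintype.sum_equiv f.finsetCongr
  intro t
  symm
  have h2 : (∏ i ∈ univ \ t, algebraMap R (Q W R) (a (f i))) =
      algebraMap R (Q W R) (∏ i ∈ tᶜ, a (f i)) := by
    rw [map_prod, Finset.compl_eq_univ_sdiff]
  have h3 : (∏ i ∈ t, J R (E i)) = ((t.val.map E).map (J R)).prod := by
    rw [Multiset.map_map]
    rfl
  rw [h2, mul_comm, ← Algebra.smul_def, map_smul, h3, tau_prod, smul_eq_mul]
  have h4 : ((fun e : H.edgeSet => (e : Sym2 W)) '' (f.finsetCongr t : Set H.edgeSet)) =
      E '' (t : Set ι) := by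
    ext e
    simp only [Equiv.finsetCongr_apply, Finset.coe_map, Set.mem_image, Finset.mem_coe,
      Equiv.coe_toEmbedding]
    constructor
    · rintro ⟨_, ⟨i, hi, rfl⟩, rfl⟩
      exact ⟨i, hi, (hfi i).symm⟩
    · rintro ⟨i, hi, rfl⟩
      exact ⟨_, ⟨i, hi, rfl⟩, hfi i⟩
  have h5 : ∀ S : Finset H.edgeSet, (∀ e, e ∈ S ↔ e ∉ f.finsetCongr t) →
      (∏ e ∈ S, a e) = ∏ i ∈ tᶜ, a (f i) := by
    intro S hS
    have h6 : S = (tᶜ).map f.toEmbedding := by
      ext e
      rw [hS]
      simp [Equiv.finsetCongr_apply]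
    rw [h6, Finset.prod_map]
    rfl
  simp only [h4]
  by_cases h7 : TreeOn (univ : Finset W) (t.val.map E)
  · rw [if_pos h7, if_pos ((tree_iff E hE hd t).2 h7), mul_one]
    apply h5
    intro e
    simp only [Finset.mem_compl]
  · rw [if_neg h7, if_neg (fun h => h7 ((tree_iff E hE hd t).1 h)), mul_zero]

theorem kirchhoff_eq_tau {W ι R : Type*} [Fintype W] [DecidableEq W] [Fintype ι] [DecidableEq ι]
    [CommRing R] (E : ι → Sym2 W) (hE : Function.Injective E) (hd : ∀ i, ¬ (E i).IsDiag)
    (a : (SimpleGraph.fromEdgeSet (Set.range E)).edgeSet → R) :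
    kirchhoff (SimpleGraph.fromEdgeSet (Set.range E)) a =
      tau univ (∏ i, (algebraMap R (Q W R) (a ⟨E i, mem_edge E hd i⟩) + J R (E i))) := by
  have hbij : Function.Bijective
      (fun i : ι => (⟨E i, mem_edge E hd i⟩ : (SimpleGraph.fromEdgeSet (Set.range E)).edgeSet)) := by
    constructor
    · intro i j h
      exact hE (congrArg Subtype.val h)
    · rintro ⟨e, he⟩
      rw [SimpleGraph.edgeSet_fromEdgeSet] at he
      obtain ⟨i, hi⟩ := he.1
      exact ⟨i, Subtype.ext hi⟩
  rw [kir_aux _ E hE hd (Equiv.ofBijective _ hbij) (fun i => rfl) a]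
  congr 1
  apply Finset.prod_congr rfl
  intro i _
  rw [add_comm]
  rfl

end MP06b.CX
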