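import Pool.Agent.Lib.MP_06b34c_co.CX.Poly

/-! # MP_06b34c, counterexample: ring identities for the elimination of the inner vertices -/

namespace MP06b.CX

section
variable {S : Type*} [CommRing S]

theorem k1 (x0 x9 xa j20 j29 j2a j09 j0a j9a : S)
    (h1 : j20 * j29 = j20 * j09) (h2 : j20 * j2a = j20 * j0a) (h3 : j29 * j2a = j29 * j9a) :
    (x0 + j20) * (x9 + j29) * (xa + j2a) =
      x0 * x9 * xa + j20 * ((x9 + j09) * (xa + j0a)) + j29 * (x0 * (xa + j9a)) +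
        j2a * (x0 * x9) := by
  linear_combination (xa + j2a) * h1 + (x9 + j09) * h2 + x0 * h3

theorem kT1 (r xa p x0 x9 u j09 j0a j9a : S) (hs : j09 * j09 = 0) (ht : j09 * j9a = j09 * j0a) :
    ((x9 + j09) * (xa + j0a) + x0 * (xa + j9a) + x0 * x9) * (u + j09) =
      (mkB r xa p x0 x9 u).c0 + (mkB r xa p x0 x9 u).c09 * j09 + (mkB r xa p x0 x9 u).c0a * j0a +
        (mkB r xa p x0 x9 u).c9a * j9a + (mkB r xa p x0 x9 u).c1 * (j09 * j0a) := by
  simp only [mkB]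
  linear_combination (xa + j0a) * hs + x0 * ht

theorem k3 (c0 c09 c0a c9a c1 t p j0a j09 j9a j9B j59 j5B j0B j05 jaB j5a : S)
    (a1 : j9B * j59 = j9B * j5B) (a2 : j09 * j9B = j09 * j0B) (a3 : j09 * j59 = j09 * j05)
    (a4 : j9a * j9B = j9a * jaB) (a5 : j9a * j59 = j9a * j5a) :
    (c0 + c09 * j09 + c0a * j0a + c9a * j9a + c1 * (j09 * j0a)) * ((t + j9B) * (p + j59)) =
      (c0 + c0a * j0a) * (t * p) + j59 * ((c0 + c0a * j0a) * t) +
        j9B * ((c0 + c0a * j0a) * (p + j5B)) +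
        j09 * ((c09 + c1 * j0a) * (t + j0B) * (p + j05)) +
        j9a * (c9a * (t + jaB) * (p + j5a)) := by
  linear_combination (c0 + c0a * j0a) * a1 + (c09 + c1 * j0a) * ((p + j59) * a2 + (t + j0B) * a3) +
    c9a * ((p + j59) * a4 + (t + jaB) * a5)

theorem k4a (c0 c09 c0a c9a c1 t p j0a j5B j0B j05 jaB j5a : S)
    (b1 : j0a * j0B = j0a * jaB) (b2 : j0a * j05 = j0a * j5a) (b3 : j0B * j05 = j0B * j5B) :
    (c0 + c0a * j0a) * t + (c0 + c0a * j0a) * (p + j5B) +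
        (c09 + c1 * j0a) * (t + j0B) * (p + j05) + c9a * (t + jaB) * (p + j5a) =
      (c0 * (p + t + j5B) + c9a * (t + jaB) * (p + j5a) + c09 * t * p) +
        j0a * (c0a * (p + t + j5B) + c1 * (t + jaB) * (p + j5a)) + j0B * (c09 * (p + j5B)) +
        j05 * (c09 * t) := by
  linear_combination c09 * b3 + c1 * ((p + j05) * b1 + (t + jaB) * b2)

theorem k4b (z yB y0 ya r j0a j0B j07 jaB j7a j7B : S)
    (b1 : j0a * j0B = j0a * jaB) (b4 : j0a * j07 = j0a * j7a) (b5 : j0B * j07 = j0B * j7B) :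
    (z + yB * j0a + ya * j0B + y0 * jaB + j0a * j0B) * (r + j07) =
      r * (z + y0 * jaB) + j07 * (z + y0 * jaB) + j0a * ((yB + jaB) * (r + j7a)) +
        j0B * (ya * (r + j7B)) := by
  linear_combination (yB + jaB) * b4 + ya * b5 + (r + j07) * b1

theorem k4c (B0 Ba BB B5 C0 C7 Ca CB j0a j0B j05 j07 j7a jaB j7B j57 j5a j5B : S)
    (b1 : j0a * j0B = j0a * jaB) (b4 : j0a * j07 = j0a * j7a) (b5 : j0B * j07 = j0B * j7B)
    (b6 : j05 * j07 = j05 * j57) (b7 : j05 * j0a = j05 * j5a) (b8 : j05 * j0B = j05 * j5B)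
    (s1 : j0a * j0a = 0) (s2 : j0B * j0B = 0) :
    (B0 + j0a * Ba + j0B * BB + j05 * B5) * (C0 + j07 * C7 + j0a * Ca + j0B * CB) =
      B0 * C0 + j0a * (Ba * C0 + B0 * Ca + Ba * C7 * j7a + (Ba * CB + BB * Ca) * jaB) +
        j0B * (BB * C0 + B0 * CB + BB * C7 * j7B) +
        j05 * (B5 * C0 + B5 * C7 * j57 + B5 * Ca * j5a + B5 * CB * j5B) + j07 * (B0 * C7) := by
  linear_combination (Ba * C7) * b4 + (Ba * Ca) * s1 + (Ba * CB) * b1 + (BB * C7) * b5 +
    (BB * Ca) * b1 + (BB * CB) * s2 + (B5 * C7) * b6 + (B5 * Ca) * b7 + (B5 * CB) * b8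

/-- the coefficients after the elimination of `0` (and `9`, `2`, `d`) -/
def C00 (B : B7 S) (t yB y0 ya j57 j5B j7B : S) : S :=
  Qall B t yB y0 ya + B.c09 * zz yB y0 ya * t * j57 + Y3 B t yB y0 ya * j5B +
    X3 B t yB y0 ya * j7B + (B.c09 * (ya * t + zz yB y0 ya) + B.c0 * ya) * j57 * j7B

def C05 (B : B7 S) (t yB y0 ya j57 j5B j7B : S) : S :=
  Q5a7 B t yB y0 ya + B.c9a * ya * t * j7B + b1 B t yB y0 ya * j57 +
    (B.r * top B t yB y0 ya + B.c9a * (y0 * t + zz yB y0 ya) + B.c0 * y0) * j5B +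
    top B t yB y0 ya * j57 * j7B

def C07 (B : B7 S) (t yB y0 ya j5B j7B : S) : S :=
  Q57a B t yB y0 ya + (B.c0a * zz yB y0 ya + B.c0 * yB) * j5B +
    (B.p * top B t yB y0 ya + t * (B.c0a * (ya + y0) + B.c0)) * j7B

def C0B (B : B7 S) (t yB y0 ya j57 : S) : S :=
  ZZ B t yB y0 ya + B.c09 * y0 * t * j57

theorem k5 (B : B7 S) (t yB y0 ya j57 j5B j7B j5a j7a jaB B0 Ba BB B5 C0 C7 Ca CB : S)
    (hB0 : B0 = B.c0 * (B.p + t + j5B) + B.c9a * (t + jaB) * (B.p + j5a) + B.c09 * t * B.p)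
    (hBa : Ba = B.c0a * (B.p + t + j5B) + B.c1 * (t + jaB) * (B.p + j5a))
    (hBB : BB = B.c09 * (B.p + j5B)) (hB5 : B5 = B.c09 * t)
    (hC0 : C0 = B.r * (zz yB y0 ya + y0 * jaB)) (hC7 : C7 = zz yB y0 ya + y0 * jaB)
    (hCa : Ca = (yB + jaB) * (B.r + j7a)) (hCB : CB = ya * (B.r + j7B))
    (t_5B_7B : j5B * j7B = j57 * j7B) (t_5a_7a : j5a * j7a = j5a * j57) (t_5a_aB : j5a * jaB = j5a * j5B) (t_57_5B : j57 * j5B = j57 * j7B) (saB : jaB * jaB = 0) (t_5B_aB : j5B * jaB = j5a * j5B) (t_7a_aB : j7a * jaB = j7a * j7B) (t_7B_aB : j7B * jaB = j7a * j7B) (t_57_7a : j57 * j7a = j5a * j57) :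
    (Ba * C0 + B0 * Ca + Ba * C7 * j7a + (Ba * CB + BB * Ca) * jaB) +
        (BB * C0 + B0 * CB + BB * C7 * j7B) +
        (B5 * C0 + B5 * C7 * j57 + B5 * Ca * j5a + B5 * CB * j5B) + B0 * C7 =
      C00 B t yB y0 ya j57 j5B j7B + j5a * C05 B t yB y0 ya j57 j5B j7B +
        j7a * C07 B t yB y0 ya j5B j7B + jaB * C0B B t yB y0 ya j57 := by
  subst hB0 hBa hBB hB5 hC0 hC7 hCa hCB
  obtain ⟨c0, c09, c0a, c9a, c1, p, r⟩ := B
  simp only [C00, C05, C07, C0B, top, b1, ZZ, X3, Y3, Q57a, Q5a7, Qall]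
  generalize zz yB y0 ya = z
  linear_combination
      (c0a * ya * jaB + c09 * y0 * jaB + c1 * ya * t * j5a + c9a * ya * j5a + c09 * ya * t +
      c09 * z + c0 * ya) * t_5B_7B + (c1 * y0 * t * jaB + c9a * t * jaB + c09 * t * jaB + c1 *
      z * jaB + c9a * yB * jaB + c09 * yB * j5B + c0a * y0 * j5B + c0 * j5B + c1 * z * t + c9a
      * yB * t + c09 * yB * t) * t_5a_7a + (c1 * ya * t * j7B + c9a * ya * j7B + c1 * y0 * t *
      j57 + c9a * t * j57 + c09 * t * j57 + c1 * z * j57 + c9a * yB * j57 + c1 * ya * t * r +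
      c1 * y0 * t * r + c9a * t * r + c09 * t * r + c1 * z * r + c9a * yB * r + c9a * ya * r +
      c9a * y0 * t + c9a * z) * t_5a_aB + (c1 * y0 * t * j5a + c9a * t * j5a + c09 * t * j5a +
      c1 * z * j5a + c9a * yB * j5a + c09 * yB * j5a + c0a * y0 * j5a + c0 * j5a) * t_57_5B +
      (c1 * y0 * j5a * j7a + c9a * j5a * j7a + c09 * j5B * j7a + c1 * y0 * p * j7a + c9a * p *
      j7a + c09 * p * j7a + c1 * ya * j7B * j5a + c1 * ya * r * j5a + c1 * y0 * r * j5a + c9a *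
      r * j5a + c9a * y0 * j5a + c1 * ya * p * j7B + c09 * r * j5B + c1 * ya * p * r + c1 * y0
      * p * r + c9a * p * r + c09 * p * r + c9a * y0 * p) * saB + (c09 * yB * j7a + c0a * y0 *
      j7a + c0 * j7a + c09 * yB * r + c0a * ya * r + c0a * y0 * r + c09 * y0 * r + c0 * r + c0
      * y0) * t_5B_aB + (c1 * y0 * t * p + c9a * t * p + c09 * t * p + c1 * z * p + c9a * yB *
      p + c09 * yB * p + c0a * y0 * p + c0 * p + c0a * y0 * t + c0 * t) * t_7a_aB + (c0a * ya *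
      j57 + c09 * y0 * j57 + c1 * ya * t * p + c9a * ya * p + c0a * ya * p + c09 * y0 * p + c0a
      * ya * t) * t_7B_aB + (c0a * ya * j7B + c09 * y0 * j7B) * t_57_7a

theorem k5b (q s c00 c05 c07 c0B j57 j5B j7B j5a j7a jaB : S)
    (d1 : j5a * j7a = j5a * j57) (d2 : j5a * jaB = j5a * j5B) (d3 : j7a * j5a = j7a * j57)
    (d4 : j7a * jaB = j7a * j7B) (s5 : j5a * j5a = 0) (s7 : j7a * j7a = 0) :
    ((q + j5a) * (s + j7a)) * (c00 + j5a * c05 + j7a * c07 + jaB * c0B) =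
      q * s * c00 +
        j5a * (q * s * c05 + s * (c00 + j57 * c07 + j5B * c0B) + j57 * c00 + j57 * j5B * c0B) +
        j7a * (q * s * c07 + q * (c00 + j57 * c05 + j7B * c0B)) + jaB * (q * s * c0B) := by
  linear_combination s * c05 * s5 + s * c07 * d1 + s * c0B * d2 + q * c05 * d3 + q * c07 * s7 +
    q * c0B * d4 + c00 * d1 + c05 * j7a * s5 + c07 * j5a * s7 + c0B * (jaB * d1 + j57 * d2)

theorem k6a (B : B7 S) (q s t yB y0 ya j57 j5B j7B : S)
    (s57 : j57 * j57 = 0) (t_57_5B : j57 * j5B = j57 * j7B) :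
    (q * s * C05 B t yB y0 ya j57 j5B j7B + s * (C00 B t yB y0 ya j57 j5B j7B +
        j57 * C07 B t yB y0 ya j5B j7B + j5B * C0B B t yB y0 ya j57) +
        j57 * C00 B t yB y0 ya j57 j5B j7B + j57 * j5B * C0B B t yB y0 ya j57) +
      (q * s * C07 B t yB y0 ya j5B j7B + q * (C00 B t yB y0 ya j57 j5B j7B +
        j57 * C05 B t yB y0 ya j57 j5B j7B + j7B * C0B B t yB y0 ya j57)) +
      q * s * C0B B t yB y0 ya j57 =
      mt B q s t yB y0 ya * (j57 * j7B) + m5 B q s t yB y0 ya * j7B + m7 B q s t yB y0 ya * j5B +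
        mB B q s t yB y0 ya * j57 + mn B q s t yB y0 ya := by
  obtain ⟨c0, c09, c0a, c9a, c1, p, r⟩ := B
  simp only [C00, C05, C07, C0B, mt, m5, m7, mB, mn, X1, Y1, U1, U2, U3, top, b1, ZZ, X3, Y3,
    Q57a, Q5a7, Qall]
  generalize zz yB y0 ya = z
  linear_combination
      (c1 * ya * t * q * j7B + c1 * y0 * t * q * j7B + c9a * t * q * j7B + c09 * t * q * j7B +
      c1 * z * q * j7B + c9a * yB * q * j7B + c09 * yB * q * j7B + c9a * ya * q * j7B + c0a *
      ya * q * j7B + c0a * y0 * q * j7B + c09 * y0 * q * j7B + c0 * q * j7B + c09 * ya * t *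
      j7B + c09 * z * j7B + c0 * ya * j7B + c09 * y0 * t * j5B + c1 * z * t * q + c9a * yB * t
      * q + c09 * yB * t * q + c09 * z * t) * s57 + (c09 * y0 * t * s + c0a * z * s + c0 * yB *
      s + c1 * ya * t * q * r + c1 * y0 * t * q * r + c9a * t * q * r + c09 * t * q * r + c1 *
      z * q * r + c9a * yB * q * r + c09 * yB * q * r + c9a * ya * q * r + c0a * ya * q * r +
      c0a * y0 * q * r + c09 * y0 * q * r + c0 * q * r + c1 * ya * t * p * r + c1 * y0 * t * p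
      * r + c9a * t * p * r + c09 * t * p * r + c1 * z * p * r + c9a * yB * p * r + c09 * yB *
      p * r + c9a * ya * p * r + c0a * ya * p * r + c0a * y0 * p * r + c09 * y0 * p * r + c0 *
      p * r + c0a * ya * t * r + c09 * ya * t * r + c0a * y0 * t * r + c09 * y0 * t * r + c0 *
      t * r + c0a * z * r + c09 * z * r + c0 * yB * r + c0 * ya * r + c9a * y0 * t * q + c9a *
      z * q + c0 * y0 * q + c9a * y0 * t * p + c09 * y0 * t * p + c9a * z * p + c0 * y0 * p +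
      c0 * y0 * t + c0 * z) * t_57_5B

theorem k6b (e a5 a7 aB at' an j57 j5B j7B : S) (s57 : j57 * j57 = 0)
    (t_57_5B : j57 * j5B = j57 * j7B) :
    (e + j57) * (at' * (j57 * j7B) + a5 * j7B + a7 * j5B + aB * j57 + an) =
      (e * at' + a5 + a7) * (j57 * j7B) + e * a5 * j7B + e * a7 * j5B + (e * aB + an) * j57 +
        e * an := by
  linear_combination (at' * j7B + aB) * s57 + a7 * t_57_5B

end

/-- all the polynomials are compatible with ring homomorphisms -/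
theorem map_nt {R S : Type*} [CommRing R] [CommRing S] (f : R →+* S) (v : Fin 13 → R) :
    f (nt v) = nt fun i => f (v i) := by
  simp only [nt, mt, m5, m7, X1, Y1, U1, U2, U3, top, b1, ZZ, X3, Y3, zz, B13, mkB, map_add,
    map_mul]

theorem map_n5 {R S : Type*} [CommRing R] [CommRing S] (f : R →+* S) (v : Fin 13 → R) :
    f (n5 v) = n5 fun i => f (v i) := by
  simp only [n5, m5, X1, top, ZZ, X3, zz, B13, mkB, map_add, map_mul]

theorem map_n7 {R S : Type*} [CommRing R] [CommRing S] (f : R →+* S) (v : Fin 13 → R) :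
    f (n7 v) = n7 fun i => f (v i) := by
  simp only [n7, m7, Y1, top, ZZ, Y3, zz, B13, mkB, map_add, map_mul]

theorem map_nB {R S : Type*} [CommRing R] [CommRing S] (f : R →+* S) (v : Fin 13 → R) :
    f (nB v) = nB fun i => f (v i) := by
  simp only [nB, mB, mn, Q5a7, Q57a, Qall, top, b1, ZZ, zz, B13, mkB, map_add, map_mul]

theorem map_nn {R S : Type*} [CommRing R] [CommRing S] (f : R →+* S) (v : Fin 13 → R) :
    f (nn v) = nn fun i => f (v i) := by
  simp only [nn, mn, Q5a7, Q57a, Qall, top, b1, ZZ, zz, B13, mkB, map_add, map_mul]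

end MP06b.CX
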