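import Pool.Agent.Lib.MP_06b34c_co.CX.Poly
import Pool.Agent.Lib.MP_06b34c_co.CX.Count

/-! # MP_06b34c, counterexample: counting, step 2

(short: `X1` for `X1 (B11 v) (v 1) (v 2) (v 3) (v 4)` etc.)
Write `w = Fin.cons q v`, `v = (s, t, yB, y0, ya, ...)` with 11 coordinates, and
`m5 = q * (s * X1 + (ZZ + X3)) + s * X3`, `m7 = q * (s * Y1 + Y3) + s * (ZZ + Y3)`.
`cnt_step2`: the count is `cnt (D = 0) - cnt (s * X1 + (ZZ + X3) = 0 ∧ s * Y1 + Y3 = 0)` with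
`D = (s * X1 + ZZ + X3) * (s * (ZZ + Y3)) - (s * X3) * (s * Y1 + Y3)
   = s * (s * (X1 * (ZZ + Y3) - X3 * Y1) + ZZ * (ZZ + X3 + Y3))`.
The second count is 0 by `cw2` (degrees 5 + 5 < 11). By `cnt_mul` (first factor `s`)
`cnt (D = 0) = cnt (s = 0) + cnt (s * U + V = 0) - cnt (s = 0 ∧ s * U + V = 0)` with
`U = X1 * (ZZ + Y3) - X3 * Y1`, `V = ZZ * (ZZ + X3 + Y3)` which do not depend on `s`
(10 variables). `cnt (s = 0) = 0` (`cw1`, 1 < 11). `cnt (s * U + V = 0) = - cnt (U = 0)` by `cnt_step1`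
`= 0` by `cw1` (degree 9 < 10). `cnt (s = 0 ∧ s * U + V = 0) = cnt (V = 0)` over 10 variables
(`cnt_cons`: for every `w` the inner count is 1 or 0), so the count is `- cnt (V = 0)`, and by `cnt_mul`
`cnt (V = 0) = cnt (ZZ = 0) + cnt (ZZ + X3 + Y3 = 0) - cnt (ZZ = 0 ∧ ZZ + X3 + Y3 = 0)`
with the first two 0 by `cw1` (5 < 10); the last condition is `ZZ = 0 ∧ X3 + Y3 = 0`.

Degrees: after `simp only` with all the definitions (`ZZ, top, zz, ...`, `B10, mkB`) the proof is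
`refine PD.mono (by repeat' first | exact PD.var _ | exact PD.const _ | apply PD.add | apply PD.sub |
apply PD.mul) (by decide)`. The passage from `w` to `Fin.cons q v` is `rfl` up to unfolding
(`(Fin.cons q v : Fin 12 → _) 5 = v 4` etc.). -/

namespace MP06b.CX

variable {p : ℕ} [Fact p.Prime]

private theorem s2_pdA : PD 11 5 (fun v : Fin 11 → ZMod p =>
    v 0 * X1 (B11 v) (v 1) (v 2) (v 3) (v 4) +
      (ZZ (B11 v) (v 1) (v 2) (v 3) (v 4) + X3 (B11 v) (v 1) (v 2) (v 3) (v 4))) := by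
  simp only [X1, ZZ, X3, top, zz, B11, mkB]
  refine PD.mono (by repeat' first | exact PD.var _ | exact PD.const _ | apply PD.add | apply PD.sub |
    apply PD.mul) (by decide)

private theorem s2_pdC : PD 11 5 (fun v : Fin 11 → ZMod p =>
    v 0 * Y1 (B11 v) (v 1) (v 2) (v 3) (v 4) + Y3 (B11 v) (v 1) (v 2) (v 3) (v 4)) := by
  simp only [Y1, Y3, top, zz, B11, mkB]
  refine PD.mono (by repeat' first | exact PD.var _ | exact PD.const _ | apply PD.add | apply PD.sub |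
    apply PD.mul) (by decide)

private theorem s2_pdU : PD 10 9 (fun w : Fin 10 → ZMod p =>
    X1 (B10 w) (w 0) (w 1) (w 2) (w 3) *
      (ZZ (B10 w) (w 0) (w 1) (w 2) (w 3) + Y3 (B10 w) (w 0) (w 1) (w 2) (w 3)) -
    X3 (B10 w) (w 0) (w 1) (w 2) (w 3) * Y1 (B10 w) (w 0) (w 1) (w 2) (w 3)) := by
  simp only [X1, ZZ, X3, Y1, Y3, top, zz, B10, mkB]
  refine PD.mono (by repeat' first | exact PD.var _ | exact PD.const _ | apply PD.add | apply PD.sub |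
    apply PD.mul) (by decide)

private theorem s2_pdZ : PD 10 5 (fun w : Fin 10 → ZMod p =>
    ZZ (B10 w) (w 0) (w 1) (w 2) (w 3)) := by
  simp only [ZZ, top, zz, B10, mkB]
  refine PD.mono (by repeat' first | exact PD.var _ | exact PD.const _ | apply PD.add | apply PD.sub |
    apply PD.mul) (by decide)

private theorem s2_pdW : PD 10 5 (fun w : Fin 10 → ZMod p =>
    ZZ (B10 w) (w 0) (w 1) (w 2) (w 3) +
      (X3 (B10 w) (w 0) (w 1) (w 2) (w 3) + Y3 (B10 w) (w 0) (w 1) (w 2) (w 3))) := by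
  simp only [ZZ, X3, Y3, top, zz, B10, mkB]
  refine PD.mono (by repeat' first | exact PD.var _ | exact PD.const _ | apply PD.add | apply PD.sub |
    apply PD.mul) (by decide)

/-- first variable zero -/
private theorem s2_zero {n : ℕ} (P : (Fin (n + 1) → ZMod p) → Prop)
    (U V : (Fin n → ZMod p) → ZMod p)
    (h : ∀ x w, P (Fin.cons x w) ↔ x = 0 ∧ x * U w + V w = 0) :
    cnt (ZMod p) P = cnt (ZMod p) (fun w => V w = 0) := by
  classical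
  rw [cnt_cons]
  have h1 : ∀ w : Fin n → ZMod p, cnt (ZMod p) (fun x : ZMod p => P (Fin.cons x w)) =
      if V w = 0 then 1 else 0 := by
    intro w
    rw [cnt_congr (Q := fun x => x = 0 ∧ V w = 0)]
    · unfold cnt
      by_cases hv : V w = 0 <;> simp [hv]
    · intro x
      rw [h x w]
      constructor
      · rintro ⟨h1, h2⟩
        refine ⟨h1, ?_⟩
        rw [h1, zero_mul, zero_add] at h2
        exact h2
      · rintro ⟨h1, h2⟩
        exact ⟨h1, by rw [h1, zero_mul, zero_add, h2]⟩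
  rw [Finset.sum_congr rfl fun w _ => h1 w]
  unfold cnt
  refine Finset.sum_congr rfl fun w _ => ?_
  congr

theorem S2 : cnt (ZMod p) (fun w : Fin 12 → ZMod p =>
      m5 (B12 w) (w 0) (w 1) (w 2) (w 3) (w 4) (w 5) = 0 ∧
      m7 (B12 w) (w 0) (w 1) (w 2) (w 3) (w 4) (w 5) = 0) =
    cnt (ZMod p) (fun w : Fin 10 → ZMod p =>
      ZZ (B10 w) (w 0) (w 1) (w 2) (w 3) = 0 ∧
      X3 (B10 w) (w 0) (w 1) (w 2) (w 3) + Y3 (B10 w) (w 0) (w 1) (w 2) (w 3) = 0) := by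
  classical
  have e1 := cnt_step2 (K := ZMod p) (n := 11) (fun w : Fin 12 → ZMod p =>
      m5 (B12 w) (w 0) (w 1) (w 2) (w 3) (w 4) (w 5) = 0 ∧
      m7 (B12 w) (w 0) (w 1) (w 2) (w 3) (w 4) (w 5) = 0)
    (fun v => v 0 * X1 (B11 v) (v 1) (v 2) (v 3) (v 4) +
      (ZZ (B11 v) (v 1) (v 2) (v 3) (v 4) + X3 (B11 v) (v 1) (v 2) (v 3) (v 4)))
    (fun v => v 0 * X3 (B11 v) (v 1) (v 2) (v 3) (v 4))
    (fun v => v 0 * Y1 (B11 v) (v 1) (v 2) (v 3) (v 4) + Y3 (B11 v) (v 1) (v 2) (v 3) (v 4))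
    (fun v => v 0 * (ZZ (B11 v) (v 1) (v 2) (v 3) (v 4) + Y3 (B11 v) (v 1) (v 2) (v 3) (v 4)))
    (by
      intro q v
      have a5 : m5 (B12 (Fin.cons q v : Fin 12 → ZMod p)) ((Fin.cons q v : Fin 12 → ZMod p) 0)
          ((Fin.cons q v : Fin 12 → ZMod p) 1) ((Fin.cons q v : Fin 12 → ZMod p) 2)
          ((Fin.cons q v : Fin 12 → ZMod p) 3) ((Fin.cons q v : Fin 12 → ZMod p) 4)
          ((Fin.cons q v : Fin 12 → ZMod p) 5) =
          m5 (B11 v) q (v 0) (v 1) (v 2) (v 3) (v 4) := rfl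
      have a7 : m7 (B12 (Fin.cons q v : Fin 12 → ZMod p)) ((Fin.cons q v : Fin 12 → ZMod p) 0)
          ((Fin.cons q v : Fin 12 → ZMod p) 1) ((Fin.cons q v : Fin 12 → ZMod p) 2)
          ((Fin.cons q v : Fin 12 → ZMod p) 3) ((Fin.cons q v : Fin 12 → ZMod p) 4)
          ((Fin.cons q v : Fin 12 → ZMod p) 5) =
          m7 (B11 v) q (v 0) (v 1) (v 2) (v 3) (v 4) := rfl
      have b5 : m5 (B11 v) q (v 0) (v 1) (v 2) (v 3) (v 4) =
          (v 0 * X1 (B11 v) (v 1) (v 2) (v 3) (v 4) +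
            (ZZ (B11 v) (v 1) (v 2) (v 3) (v 4) + X3 (B11 v) (v 1) (v 2) (v 3) (v 4))) * q +
          v 0 * X3 (B11 v) (v 1) (v 2) (v 3) (v 4) := by
        unfold m5; ring
      have b7 : m7 (B11 v) q (v 0) (v 1) (v 2) (v 3) (v 4) =
          (v 0 * Y1 (B11 v) (v 1) (v 2) (v 3) (v 4) + Y3 (B11 v) (v 1) (v 2) (v 3) (v 4)) * q +
          v 0 * (ZZ (B11 v) (v 1) (v 2) (v 3) (v 4) + Y3 (B11 v) (v 1) (v 2) (v 3) (v 4)) := by
        unfold m7; ring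
      rw [a5, a7, b5, b7])
  rw [e1, cw2 s2_pdA s2_pdC (by norm_num), sub_zero]
  -- the determinant
  have e2 : cnt (ZMod p) (fun v : Fin 11 → ZMod p =>
      (v 0 * X1 (B11 v) (v 1) (v 2) (v 3) (v 4) +
        (ZZ (B11 v) (v 1) (v 2) (v 3) (v 4) + X3 (B11 v) (v 1) (v 2) (v 3) (v 4))) *
        (v 0 * (ZZ (B11 v) (v 1) (v 2) (v 3) (v 4) + Y3 (B11 v) (v 1) (v 2) (v 3) (v 4))) -
      v 0 * X3 (B11 v) (v 1) (v 2) (v 3) (v 4) *
        (v 0 * Y1 (B11 v) (v 1) (v 2) (v 3) (v 4) + Y3 (B11 v) (v 1) (v 2) (v 3) (v 4)) = 0) =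
      cnt (ZMod p) (fun v : Fin 11 → ZMod p => v 0 * (v 0 *
        (X1 (B11 v) (v 1) (v 2) (v 3) (v 4) *
          (ZZ (B11 v) (v 1) (v 2) (v 3) (v 4) + Y3 (B11 v) (v 1) (v 2) (v 3) (v 4)) -
          X3 (B11 v) (v 1) (v 2) (v 3) (v 4) * Y1 (B11 v) (v 1) (v 2) (v 3) (v 4)) +
        ZZ (B11 v) (v 1) (v 2) (v 3) (v 4) * (ZZ (B11 v) (v 1) (v 2) (v 3) (v 4) +
          (X3 (B11 v) (v 1) (v 2) (v 3) (v 4) + Y3 (B11 v) (v 1) (v 2) (v 3) (v 4)))) = 0) := by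
    refine cnt_congr fun v => ?_
    rw [← sub_eq_zero (a := _ * _ - _) (b := (0 : ZMod p)), sub_zero]
    constructor
    · intro h
      rw [← h]; ring
    · intro h
      rw [← h]; ring
  rw [e2, cnt_mul, cw1 (PD.var (0 : Fin 11)) (by norm_num), zero_add]
  -- linear in `s`
  have e3 := cnt_step1 (K := ZMod p) (n := 10) (by norm_num) (fun v : Fin 11 → ZMod p => v 0 *
        (X1 (B11 v) (v 1) (v 2) (v 3) (v 4) *
          (ZZ (B11 v) (v 1) (v 2) (v 3) (v 4) + Y3 (B11 v) (v 1) (v 2) (v 3) (v 4)) -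
          X3 (B11 v) (v 1) (v 2) (v 3) (v 4) * Y1 (B11 v) (v 1) (v 2) (v 3) (v 4)) +
        ZZ (B11 v) (v 1) (v 2) (v 3) (v 4) * (ZZ (B11 v) (v 1) (v 2) (v 3) (v 4) +
          (X3 (B11 v) (v 1) (v 2) (v 3) (v 4) + Y3 (B11 v) (v 1) (v 2) (v 3) (v 4))) = 0)
    (fun w => X1 (B10 w) (w 0) (w 1) (w 2) (w 3) *
      (ZZ (B10 w) (w 0) (w 1) (w 2) (w 3) + Y3 (B10 w) (w 0) (w 1) (w 2) (w 3)) -
      X3 (B10 w) (w 0) (w 1) (w 2) (w 3) * Y1 (B10 w) (w 0) (w 1) (w 2) (w 3))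
    (fun w => ZZ (B10 w) (w 0) (w 1) (w 2) (w 3) * (ZZ (B10 w) (w 0) (w 1) (w 2) (w 3) +
      (X3 (B10 w) (w 0) (w 1) (w 2) (w 3) + Y3 (B10 w) (w 0) (w 1) (w 2) (w 3))))
    (by
      intro x w
      rw [mul_comm _ x]
      rfl)
  rw [e3, cw1 s2_pdU (by norm_num), neg_zero, zero_sub]
  have e4 := s2_zero (p := p) (n := 10) (fun v : Fin 11 → ZMod p => v 0 = 0 ∧ v 0 *
        (X1 (B11 v) (v 1) (v 2) (v 3) (v 4) *
          (ZZ (B11 v) (v 1) (v 2) (v 3) (v 4) + Y3 (B11 v) (v 1) (v 2) (v 3) (v 4)) -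
          X3 (B11 v) (v 1) (v 2) (v 3) (v 4) * Y1 (B11 v) (v 1) (v 2) (v 3) (v 4)) +
        ZZ (B11 v) (v 1) (v 2) (v 3) (v 4) * (ZZ (B11 v) (v 1) (v 2) (v 3) (v 4) +
          (X3 (B11 v) (v 1) (v 2) (v 3) (v 4) + Y3 (B11 v) (v 1) (v 2) (v 3) (v 4))) = 0)
    (fun w => X1 (B10 w) (w 0) (w 1) (w 2) (w 3) *
      (ZZ (B10 w) (w 0) (w 1) (w 2) (w 3) + Y3 (B10 w) (w 0) (w 1) (w 2) (w 3)) -
      X3 (B10 w) (w 0) (w 1) (w 2) (w 3) * Y1 (B10 w) (w 0) (w 1) (w 2) (w 3))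
    (fun w => ZZ (B10 w) (w 0) (w 1) (w 2) (w 3) * (ZZ (B10 w) (w 0) (w 1) (w 2) (w 3) +
      (X3 (B10 w) (w 0) (w 1) (w 2) (w 3) + Y3 (B10 w) (w 0) (w 1) (w 2) (w 3))))
    (fun x w => Iff.rfl)
  rw [e4, cnt_mul, cw1 s2_pdZ (by norm_num), cw1 s2_pdW (by norm_num), zero_add, zero_sub,
    neg_neg]
  refine cnt_congr fun w => ?_
  constructor
  · rintro ⟨h1, h2⟩
    exact ⟨h1, by rwa [h1, zero_add] at h2⟩
  · rintro ⟨h1, h2⟩
    exact ⟨h1, by rw [h1, zero_add, h2]⟩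

end MP06b.CX
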