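import Pool.Agent.Lib.MP_06b34c_co.CX.Poly
import Pool.Agent.Lib.MP_06b34c_co.CX.Count

/-! # MP_06b34c, counterexample: counting, step 3

Write `w = Fin.cons t v`, `v = (yB, y0, ya, ...)` with 9 coordinates. Then `ZZ = A * t + B` and
`X3 + Y3 = C * t + D` with (all in the variables of `v`; `G1` for `G1 (B9 v)` etc.)
`A = (y0 + ya) * G1 - ya * G5 + G2`, `C = ya * G5` (both without `yB`),
`B = yB * ((y0 + ya) * p * (r * c1 + c9a) + p * r * (c9a + c09)) + B0`,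
`D = yB * ((y0 + ya) * G3 + r * c0) + D0` (`B0`, `D0` without `yB`: read them off;
`D0 = ya * (y0 * G3 + c0 * (p + r))`).
`cnt_step2`: the count is `cnt (A * D - B * C = 0) - cnt (A = 0 ∧ C = 0)`; the second count is 0 by
`cnt_free` (no `yB`). And `A * D - B * C = yB * W1 + W0` with `W1 = FF * KK` (8 variables) by `ring`:
`W1 = A * ((y0 + ya) * G3 + r * c0) - C * ((y0 + ya) * p * (r * c1 + c9a) + p * r * (c9a + c09))`,
`W0 = A * D0 - C * B0`. By `cnt_step1` the count is `- cnt (FF * KK = 0)`, and by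
`cnt_mul` `cnt (FF * KK = 0) = cnt (FF = 0) + cnt (KK = 0) - cnt (FF = 0 ∧ KK = 0)`, the first two
are 0 by `cw1` (degree 4 < 8).

Degrees: after `simp only` with all the definitions (`FF, G1, ...`, `B8, mkB`) the proof is
`refine PD.mono (by repeat' first | exact PD.var _ | exact PD.const _ | apply PD.add | apply PD.sub |
apply PD.mul) (by decide)`. The passage from `w` to `Fin.cons t v` is `rfl` up to unfolding
(`(Fin.cons t v : Fin 10 → _) 5 = v 4` etc.). -/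

namespace MP06b.CX

variable {p : ℕ} [Fact p.Prime]

private theorem s3_pdF : PD 8 4 (fun w : Fin 8 → ZMod p => FF (B8 w) (w 0) (w 1)) := by
  simp only [FF, G1, G2, B8, mkB]
  refine PD.mono (by repeat' first | exact PD.var _ | exact PD.const _ | apply PD.add | apply PD.sub |
    apply PD.mul) (by decide)

private theorem s3_pdK : PD 8 4 (fun w : Fin 8 → ZMod p => KK (B8 w) (w 0) (w 1)) := by
  simp only [KK, G3, kap, B8, mkB]
  refine PD.mono (by repeat' first | exact PD.var _ | exact PD.const _ | apply PD.add | apply PD.sub |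
    apply PD.mul) (by decide)

/-- coefficient of `t` in `ZZ` -/
private def sA {R : Type*} [CommRing R] (B : B7 R) (y0 ya : R) : R :=
  (y0 + ya) * G1 B - ya * G5 B + G2 B

/-- `ZZ` at `t = 0`: coefficient of `yB` -/
private def sB1 {R : Type*} [CommRing R] (B : B7 R) (y0 ya : R) : R :=
  (y0 + ya) * (B.p * (B.r * B.c1 + B.c9a)) + B.p * B.r * (B.c9a + B.c09)

private def sB0 {R : Type*} [CommRing R] (B : B7 R) (y0 ya : R) : R :=
  B.p * B.r * (B.c1 * (y0 * ya) + ya * (B.c9a + B.c0a) + y0 * (B.c0a + B.c09) + B.c0) +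
    B.p * (B.c9a * (y0 * ya) + B.c0 * y0)

private def sC {R : Type*} [CommRing R] (B : B7 R) (ya : R) : R := ya * G5 B

private def sD1 {R : Type*} [CommRing R] (B : B7 R) (y0 ya : R) : R :=
  (y0 + ya) * G3 B + B.r * B.c0

private def sD0 {R : Type*} [CommRing R] (B : B7 R) (y0 ya : R) : R :=
  ya * (y0 * G3 B + B.c0 * (B.p + B.r))

private theorem s3_ZZ {R : Type*} [CommRing R] (B : B7 R) (t yB y0 ya : R) :
    ZZ B t yB y0 ya = sA B y0 ya * t + (sB1 B y0 ya * yB + sB0 B y0 ya) := by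
  simp only [ZZ, top, zz, sA, sB1, sB0, G1, G5, G2]
  ring

private theorem s3_XY {R : Type*} [CommRing R] (B : B7 R) (t yB y0 ya : R) :
    X3 B t yB y0 ya + Y3 B t yB y0 ya =
      sC B ya * t + (sD1 B y0 ya * yB + sD0 B y0 ya) := by
  simp only [X3, Y3, zz, sC, sD1, sD0, G5, G3]
  ring

private theorem s3_W1 {R : Type*} [CommRing R] (r xa p x0 x9 u y0 ya : R) :
    sA (mkB r xa p x0 x9 u) y0 ya * sD1 (mkB r xa p x0 x9 u) y0 ya -
      sB1 (mkB r xa p x0 x9 u) y0 ya * sC (mkB r xa p x0 x9 u) ya =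
    FF (mkB r xa p x0 x9 u) y0 ya * KK (mkB r xa p x0 x9 u) y0 ya := by
  simp only [sA, sB1, sC, sD1, FF, KK, G1, G2, G3, G5, kap, mkB]
  ring

theorem S3 : cnt (ZMod p) (fun w : Fin 10 → ZMod p =>
      ZZ (B10 w) (w 0) (w 1) (w 2) (w 3) = 0 ∧
      X3 (B10 w) (w 0) (w 1) (w 2) (w 3) + Y3 (B10 w) (w 0) (w 1) (w 2) (w 3) = 0) =
    cnt (ZMod p) (fun w : Fin 8 → ZMod p =>
      FF (B8 w) (w 0) (w 1) = 0 ∧ KK (B8 w) (w 0) (w 1) = 0) := by
  classical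
  have e1 := cnt_step2 (K := ZMod p) (n := 9) (fun w : Fin 10 → ZMod p =>
      ZZ (B10 w) (w 0) (w 1) (w 2) (w 3) = 0 ∧
      X3 (B10 w) (w 0) (w 1) (w 2) (w 3) + Y3 (B10 w) (w 0) (w 1) (w 2) (w 3) = 0)
    (fun v => sA (B9 v) (v 1) (v 2))
    (fun v => sB1 (B9 v) (v 1) (v 2) * v 0 + sB0 (B9 v) (v 1) (v 2))
    (fun v => sC (B9 v) (v 2))
    (fun v => sD1 (B9 v) (v 1) (v 2) * v 0 + sD0 (B9 v) (v 1) (v 2))
    (by
      intro t v
      have a1 : ZZ (B10 (Fin.cons t v : Fin 10 → ZMod p)) ((Fin.cons t v : Fin 10 → ZMod p) 0)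
          ((Fin.cons t v : Fin 10 → ZMod p) 1) ((Fin.cons t v : Fin 10 → ZMod p) 2)
          ((Fin.cons t v : Fin 10 → ZMod p) 3) = ZZ (B9 v) t (v 0) (v 1) (v 2) := rfl
      have a2 : X3 (B10 (Fin.cons t v : Fin 10 → ZMod p)) ((Fin.cons t v : Fin 10 → ZMod p) 0)
          ((Fin.cons t v : Fin 10 → ZMod p) 1) ((Fin.cons t v : Fin 10 → ZMod p) 2)
          ((Fin.cons t v : Fin 10 → ZMod p) 3) = X3 (B9 v) t (v 0) (v 1) (v 2) := rfl
      have a3 : Y3 (B10 (Fin.cons t v : Fin 10 → ZMod p)) ((Fin.cons t v : Fin 10 → ZMod p) 0)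
          ((Fin.cons t v : Fin 10 → ZMod p) 1) ((Fin.cons t v : Fin 10 → ZMod p) 2)
          ((Fin.cons t v : Fin 10 → ZMod p) 3) = Y3 (B9 v) t (v 0) (v 1) (v 2) := rfl
      rw [a1, a2, a3, s3_ZZ, s3_XY])
  have e2 : cnt (ZMod p) (fun v : Fin 9 → ZMod p =>
      sA (B9 v) (v 1) (v 2) = 0 ∧ sC (B9 v) (v 2) = 0) = 0 :=
    cnt_free (K := ZMod p) (n := 8) _
      (fun w : Fin 8 → ZMod p => sA (B8 w) (w 0) (w 1) = 0 ∧ sC (B8 w) (w 1) = 0)
      (fun x w => Iff.rfl)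
  rw [e1, e2, sub_zero]
  have e3 := cnt_step1 (K := ZMod p) (n := 8) (by norm_num) (fun v : Fin 9 → ZMod p =>
      sA (B9 v) (v 1) (v 2) * (sD1 (B9 v) (v 1) (v 2) * v 0 + sD0 (B9 v) (v 1) (v 2)) -
      (sB1 (B9 v) (v 1) (v 2) * v 0 + sB0 (B9 v) (v 1) (v 2)) * sC (B9 v) (v 2) = 0)
    (fun w => FF (B8 w) (w 0) (w 1) * KK (B8 w) (w 0) (w 1))
    (fun w => sA (B8 w) (w 0) (w 1) * sD0 (B8 w) (w 0) (w 1) -
      sB0 (B8 w) (w 0) (w 1) * sC (B8 w) (w 1))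
    (by
      intro x w
      have a1 : sA (B9 (Fin.cons x w : Fin 9 → ZMod p)) ((Fin.cons x w : Fin 9 → ZMod p) 1)
          ((Fin.cons x w : Fin 9 → ZMod p) 2) = sA (B8 w) (w 0) (w 1) := rfl
      have a2 : sD1 (B9 (Fin.cons x w : Fin 9 → ZMod p)) ((Fin.cons x w : Fin 9 → ZMod p) 1)
          ((Fin.cons x w : Fin 9 → ZMod p) 2) = sD1 (B8 w) (w 0) (w 1) := rfl
      have a3 : sD0 (B9 (Fin.cons x w : Fin 9 → ZMod p)) ((Fin.cons x w : Fin 9 → ZMod p) 1)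
          ((Fin.cons x w : Fin 9 → ZMod p) 2) = sD0 (B8 w) (w 0) (w 1) := rfl
      have a4 : sB1 (B9 (Fin.cons x w : Fin 9 → ZMod p)) ((Fin.cons x w : Fin 9 → ZMod p) 1)
          ((Fin.cons x w : Fin 9 → ZMod p) 2) = sB1 (B8 w) (w 0) (w 1) := rfl
      have a5 : sB0 (B9 (Fin.cons x w : Fin 9 → ZMod p)) ((Fin.cons x w : Fin 9 → ZMod p) 1)
          ((Fin.cons x w : Fin 9 → ZMod p) 2) = sB0 (B8 w) (w 0) (w 1) := rfl
      have a6 : sC (B9 (Fin.cons x w : Fin 9 → ZMod p)) ((Fin.cons x w : Fin 9 → ZMod p) 2) =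
          sC (B8 w) (w 1) := rfl
      have a7 : (Fin.cons x w : Fin 9 → ZMod p) 0 = x := rfl
      have h1 : sA (B8 w) (w 0) (w 1) * sD1 (B8 w) (w 0) (w 1) -
          sB1 (B8 w) (w 0) (w 1) * sC (B8 w) (w 1) = FF (B8 w) (w 0) (w 1) * KK (B8 w) (w 0) (w 1) :=
        s3_W1 (w 2) (w 3) (w 4) (w 5) (w 6) (w 7) (w 0) (w 1)
      rw [a1, a2, a3, a4, a5, a6, a7, ← h1]
      constructor
      · intro h
        rw [← h]; ring
      · intro h
        rw [← h]; ring)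
  rw [e3, cnt_mul, cw1 s3_pdF (by norm_num), cw1 s3_pdK (by norm_num), add_zero, zero_sub,
    neg_neg]

end MP06b.CX
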