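import Pool.Agent.Lib.MP_06b34c_co.CX.Poly
import Pool.Agent.Lib.MP_06b34c_co.CX.Count

/-! # MP_06b34c, counterexample: counting, steps 4 and 5

S4. Write `w = Fin.cons y0 v`, `v = (ya, r, xa, p, x0, x9, u)`. `FF = y0 * G1 + (ya * G1 + G2)` and
`KK = y0 * G3 + (ya * kap + r * c0)`. `cnt_step2`: the count is
`cnt (D = 0) - cnt (G1 = 0 ∧ G3 = 0)`, the second count is 0 by `cnt_free` (no `ya`), and
`D = G1 * (ya * kap + r * c0) - (ya * G1 + G2) * G3 = ya * (- (G1 * G5)) + (G1 * r * c0 - G2 * G3)`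
as `kap - G3 = - G5`. By `cnt_step1` (6 variables left) it is `- cnt (G1 * G5 = 0)`, and
`cnt (G1 * G5 = 0) = cnt (G1 = 0) + cnt (G5 = 0) - cnt (both)`, the first two are 0 by `cw1` (3 < 6).

S5. Variables `(r, xa, p, x0, x9, u)`. `G1 - G5 = r * S` with `S = p * c1 + c0a =
p * (u + x0 + x9) + u * x9`. So `G1 = 0 ∧ G5 = 0` iff `G5 = 0 ∧ r * S = 0`, and (`cnt_or`) the count is
`cnt (G5 = 0 ∧ r = 0) + cnt (G5 = 0 ∧ S = 0) - cnt (G5 = 0 ∧ r = 0 ∧ S = 0)`. The first is 0 by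
`cw2` (3 + 1 < 6), the second is 0 by `cw2` (3 + 2 < 6). In the third put `r = 0`
(`cnt_cons`): 5 variables `(xa, p, x0, x9, u)`, the conditions
`xa * A + B = 0`, `S = 0` with `A = p * (u + x0 + x9) + u * (x0 + x9)` and
`B = p * (x0 * x9) + p * u * x0 + u * x0 * x9`, and `S`, `A`, `B` without `xa`.
By `cnt_step2` (second equation `0 * xa + S = 0`) the third count is
`cnt (A * S - B * 0 = 0) - cnt (A = 0 ∧ 0 = 0)` over 4 variables `(p, x0, x9, u)`, which is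
(`cnt_mul`) `cnt (S = 0) - cnt (A = 0 ∧ S = 0) = - cnt (A = 0 ∧ S = 0)` (`cw1`, 2 < 4).
`A - S = u * x0`; so `cnt (A = 0 ∧ S = 0) = cnt (S = 0 ∧ (u = 0 ∨ x0 = 0))
= cnt (S = 0 ∧ u = 0) + cnt (S = 0 ∧ x0 = 0) - cnt (S = 0 ∧ u = 0 ∧ x0 = 0)`; the first two are 0 by
`cw2` (2 + 1 < 4), the third is the number of `(p, x9)` with `p * x9 = 0`, that is `2 p - 1 = - 1`
(e.g. `cnt_cons` and explicit sums, or inclusion and exclusion `0 + 0 - 1`). So the third count of the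
beginning is `- cnt (A = 0 ∧ S = 0) = - (0 + 0 + 1) = -1`, and the result is `0 + 0 - (-1) = 1`.

Degrees: after `simp only` with all the definitions (`G1, ...`, `B6, mkB`) the proof is
`refine PD.mono (by repeat' first | exact PD.var _ | exact PD.const _ | apply PD.add | apply PD.sub |
apply PD.mul) (by decide)`. The passage from `w` to `Fin.cons x v` is `rfl` up to unfolding. -/

namespace MP06b.CX

variable {p : ℕ} [Fact p.Prime]

private theorem pdG1 : PD 6 3 (fun w : Fin 6 → ZMod p => G1 (B6 w)) := by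
  simp only [G1, B6, mkB]
  exact PD.mono (by
      repeat' (first | exact PD.var _ | exact PD.const _ | apply PD.add | apply PD.sub | apply PD.mul))
      (by decide)

private theorem pdG5 : PD 6 3 (fun w : Fin 6 → ZMod p => G5 (B6 w)) := by
  simp only [G5, B6, mkB]
  exact PD.mono (by
      repeat' (first | exact PD.var _ | exact PD.const _ | apply PD.add | apply PD.sub | apply PD.mul))
      (by decide)

private theorem cnt_zero_cons {K : Type*} [Field K] [Fintype K] {n : ℕ}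
    (P : (Fin (n + 1) → K) → Prop) :
    cnt K (fun w => w 0 = 0 ∧ P w) = cnt K (fun v : Fin n → K => P (Fin.cons 0 v)) := by
  classical
  rw [cnt_cons]
  unfold cnt
  refine Finset.sum_congr rfl fun v _ => ?_
  rw [Finset.sum_eq_single (0 : K)]
  · by_cases h : P (Fin.cons 0 v) <;> simp [h]
  · intro x _ hx
    simp [hx]
  · intro h
    exact absurd (Finset.mem_univ _) h

theorem S4 : cnt (ZMod p) (fun w : Fin 8 → ZMod p =>
      FF (B8 w) (w 0) (w 1) = 0 ∧ KK (B8 w) (w 0) (w 1) = 0) =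
    cnt (ZMod p) (fun w : Fin 6 → ZMod p => G1 (B6 w) = 0 ∧ G5 (B6 w) = 0) := by
  rw [cnt_step2 (n := 7) (fun w : Fin 8 → ZMod p =>
      FF (B8 w) (w 0) (w 1) = 0 ∧ KK (B8 w) (w 0) (w 1) = 0)
    (fun v => G1 (B7' v)) (fun v => v 0 * G1 (B7' v) + G2 (B7' v)) (fun v => G3 (B7' v))
    (fun v => v 0 * kap (B7' v) + (B7' v).r * (B7' v).c0)
    (fun x w => by
      have e : (B8 (Fin.cons x w : Fin 8 → ZMod p)) = B7' w := rfl
      have e0 : (Fin.cons x w : Fin 8 → ZMod p) 0 = x := rfl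
      have e1 : (Fin.cons x w : Fin 8 → ZMod p) 1 = w 0 := rfl
      rw [e, e0, e1]
      have h1 : FF (B7' w) x (w 0) = G1 (B7' w) * x + (w 0 * G1 (B7' w) + G2 (B7' w)) := by
        simp only [FF]; ring
      have h2 : KK (B7' w) x (w 0) =
          G3 (B7' w) * x + (w 0 * kap (B7' w) + (B7' w).r * (B7' w).c0) := by
        simp only [KK]; ring
      rw [h1, h2])]
  rw [cnt_free (n := 6) (fun w : Fin 7 → ZMod p => G1 (B7' w) = 0 ∧ G3 (B7' w) = 0)
    (fun w => G1 (B6 w) = 0 ∧ G3 (B6 w) = 0) (fun x w => Iff.rfl), sub_zero]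
  rw [cnt_step1 (n := 6) (by norm_num) _ (fun w : Fin 6 → ZMod p => -(G1 (B6 w) * G5 (B6 w)))
    (fun w => G1 (B6 w) * ((B6 w).r * (B6 w).c0) - G2 (B6 w) * G3 (B6 w))
    (fun x w => by
      have e : (B7' (Fin.cons x w : Fin 7 → ZMod p)) = B6 w := rfl
      have e0 : (Fin.cons x w : Fin 7 → ZMod p) 0 = x := rfl
      rw [e, e0]
      have h1 : kap (B6 w) = G3 (B6 w) - G5 (B6 w) := by
        simp only [kap, G3, G5]; ring
      rw [h1]
      have h2 : G1 (B6 w) * (x * (G3 (B6 w) - G5 (B6 w)) + (B6 w).r * (B6 w).c0) -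
          (x * G1 (B6 w) + G2 (B6 w)) * G3 (B6 w) =
          -(G1 (B6 w) * G5 (B6 w)) * x +
            (G1 (B6 w) * ((B6 w).r * (B6 w).c0) - G2 (B6 w) * G3 (B6 w)) := by ring
      rw [h2])]
  rw [cnt_congr (Q := fun w : Fin 6 → ZMod p => G1 (B6 w) * G5 (B6 w) = 0)
    (fun w => neg_eq_zero), cnt_mul, cw1 pdG1 (by norm_num), cw1 pdG5 (by norm_num)]
  ring

private def SS (w : Fin 4 → ZMod p) : ZMod p := w 0 * (w 3 + w 1 + w 2) + w 3 * w 2

private def AA (w : Fin 4 → ZMod p) : ZMod p := w 0 * (w 3 + w 1 + w 2) + w 3 * (w 1 + w 2)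

private theorem last_count : cnt (ZMod p) (fun w : Fin 4 → ZMod p =>
    (SS w = 0 ∧ w 3 = 0) ∧ (SS w = 0 ∧ w 1 = 0)) = -1 := by
  classical
  have h1 : cnt (ZMod p) (fun w : Fin 4 → ZMod p =>
      (SS w = 0 ∧ w 3 = 0) ∧ (SS w = 0 ∧ w 1 = 0)) =
      cnt (ZMod p) (fun v : Fin 3 → ZMod p => v 0 = 0 ∧ (v 2 = 0 ∧ v 1 ≠ 0)) := by
    rw [cnt_cons]
    have key : ∀ v : Fin 3 → ZMod p, cnt (ZMod p) (fun x : ZMod p =>
        (SS (Fin.cons x v : Fin 4 → ZMod p) = 0 ∧ (Fin.cons x v : Fin 4 → ZMod p) 3 = 0) ∧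
        (SS (Fin.cons x v : Fin 4 → ZMod p) = 0 ∧ (Fin.cons x v : Fin 4 → ZMod p) 1 = 0)) =
        if v 0 = 0 ∧ (v 2 = 0 ∧ v 1 ≠ 0) then 1 else 0 := by
      intro v
      by_cases h02 : v 0 = 0 ∧ v 2 = 0
      · rw [cnt_congr (Q := fun x => v 1 * x + 0 = 0), cnt_lin]
        · by_cases h : v 1 = 0 <;> simp [h02.1, h02.2, h]
        · intro x
          have e : SS (Fin.cons x v : Fin 4 → ZMod p) = x * (v 2 + v 0 + v 1) + v 2 * v 1 := rfl
          have e3 : (Fin.cons x v : Fin 4 → ZMod p) 3 = v 2 := rfl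
          have e1 : (Fin.cons x v : Fin 4 → ZMod p) 1 = v 0 := rfl
          rw [e, e3, e1, h02.1, h02.2]
          constructor
          · rintro ⟨⟨h, _⟩, _⟩
            linear_combination h
          · intro h
            have : x * (0 + 0 + v 1) + 0 * v 1 = 0 := by linear_combination h
            exact ⟨⟨this, rfl⟩, this, rfl⟩
      · rw [cnt_congr (Q := fun _ => False)]
        · unfold cnt
          rw [if_neg (fun h => h02 ⟨h.1, h.2.1⟩)]
          simp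
        · intro x
          have e3 : (Fin.cons x v : Fin 4 → ZMod p) 3 = v 2 := rfl
          have e1 : (Fin.cons x v : Fin 4 → ZMod p) 1 = v 0 := rfl
          rw [e3, e1]
          constructor
          · rintro ⟨⟨_, h⟩, _, h'⟩
            exact h02 ⟨h', h⟩
          · exact False.elim
    rw [Finset.sum_congr rfl fun v _ => key v]
    unfold cnt
    refine Finset.sum_congr rfl fun v _ => ?_
    congr
  rw [h1, cnt_zero_cons (fun v : Fin 3 → ZMod p => v 2 = 0 ∧ v 1 ≠ 0), cnt_cons]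
  have key : ∀ t : Fin 1 → ZMod p, cnt (ZMod p) (fun x : ZMod p =>
      (Fin.cons 0 (Fin.cons x t : Fin 2 → ZMod p) : Fin 3 → ZMod p) 2 = 0 ∧
      (Fin.cons 0 (Fin.cons x t : Fin 2 → ZMod p) : Fin 3 → ZMod p) 1 ≠ 0) =
      if t 0 = 0 then -1 else 0 := by
    intro t
    have e2 : ∀ x, (Fin.cons 0 (Fin.cons x t : Fin 2 → ZMod p) : Fin 3 → ZMod p) 2 = t 0 :=
      fun x => rfl
    have e1 : ∀ x, (Fin.cons 0 (Fin.cons x t : Fin 2 → ZMod p) : Fin 3 → ZMod p) 1 = x :=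
      fun x => rfl
    simp only [e2, e1]
    by_cases ht : t 0 = 0
    · rw [if_pos ht, cnt_congr (Q := fun x => ¬ (1 * x + 0 = 0)) (fun x => by simp [ht]), cnt_not,
        cnt_lin, FiniteField.cast_card_eq_zero]
      simp
    · rw [if_neg ht]
      unfold cnt
      simp [ht]
  rw [Finset.sum_congr rfl fun t _ => key t]
  rw [Finset.sum_eq_single (0 : Fin 1 → ZMod p)]
  · simp
  · intro t _ ht
    rw [if_neg]
    intro h
    apply ht
    funext i
    rw [Subsingleton.elim i 0, h]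
    rfl
  · intro h
    exact absurd (Finset.mem_univ _) h

theorem S5 : cnt (ZMod p) (fun w : Fin 6 → ZMod p => G1 (B6 w) = 0 ∧ G5 (B6 w) = 0) = 1 := by
  -- first splitting
  have pS6 : PD 6 2 (fun w : Fin 6 → ZMod p =>
      w 2 * (w 5 + w 3 + w 4) + w 5 * w 4) := by
    exact PD.mono (by
      repeat' (first | exact PD.var _ | exact PD.const _ | apply PD.add | apply PD.sub | apply PD.mul))
      (by decide)
  have pr : PD 6 1 (fun w : Fin 6 → ZMod p => w 0) := PD.var 0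
  rw [cnt_congr (Q := fun w : Fin 6 → ZMod p => (G5 (B6 w) = 0 ∧ w 0 = 0) ∨
    (G5 (B6 w) = 0 ∧ w 2 * (w 5 + w 3 + w 4) + w 5 * w 4 = 0))
    (fun w => by
      have h : G1 (B6 w) = G5 (B6 w) + w 0 * (w 2 * (w 5 + w 3 + w 4) + w 5 * w 4) := by
        simp only [G1, G5, B6, mkB]; ring
      rw [h]
      constructor
      · rintro ⟨h1, h2⟩
        rw [h2, zero_add] at h1
        rcases mul_eq_zero.mp h1 with h3 | h3
        · exact Or.inl ⟨h2, h3⟩
        · exact Or.inr ⟨h2, h3⟩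
      · rintro (⟨h1, h2⟩ | ⟨h1, h2⟩)
        · exact ⟨by rw [h1, h2]; ring, h1⟩
        · exact ⟨by rw [h1, h2]; ring, h1⟩)]
  rw [cnt_or, cw2 pdG5 pr (by norm_num), cw2 pdG5 pS6 (by norm_num)]
  -- the third count
  rw [cnt_congr (P := fun w : Fin 6 → ZMod p => (G5 (B6 w) = 0 ∧ w 0 = 0) ∧
    (G5 (B6 w) = 0 ∧ w 2 * (w 5 + w 3 + w 4) + w 5 * w 4 = 0))
    (Q := fun w : Fin 6 → ZMod p => w 0 = 0 ∧
      (G5 (B6 w) = 0 ∧ w 2 * (w 5 + w 3 + w 4) + w 5 * w 4 = 0))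
    (fun w => by tauto),
    cnt_zero_cons (fun w : Fin 6 → ZMod p =>
      G5 (B6 w) = 0 ∧ w 2 * (w 5 + w 3 + w 4) + w 5 * w 4 = 0)]
  rw [cnt_step2 (n := 4) (fun v : Fin 5 → ZMod p => G5 (B6 (Fin.cons 0 v)) = 0 ∧
      (Fin.cons 0 v : Fin 6 → ZMod p) 2 * ((Fin.cons 0 v : Fin 6 → ZMod p) 5 +
        (Fin.cons 0 v : Fin 6 → ZMod p) 3 + (Fin.cons 0 v : Fin 6 → ZMod p) 4) +
        (Fin.cons 0 v : Fin 6 → ZMod p) 5 * (Fin.cons 0 v : Fin 6 → ZMod p) 4 = 0)
    AA (fun w => w 0 * (w 1 * w 2) + w 0 * w 3 * w 1 + w 3 * w 1 * w 2)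
    (fun _ => 0) SS
    (fun x w => by
      have h1 : G5 (B6 (Fin.cons 0 (Fin.cons x w : Fin 5 → ZMod p) : Fin 6 → ZMod p)) =
          AA w * x + (w 0 * (w 1 * w 2) + w 0 * w 3 * w 1 + w 3 * w 1 * w 2) := by
        have e : B6 (Fin.cons 0 (Fin.cons x w : Fin 5 → ZMod p) : Fin 6 → ZMod p) =
          mkB 0 x (w 0) (w 1) (w 2) (w 3) := rfl
        rw [e]
        simp only [G5, mkB, AA]
        ring
      have h2 : (Fin.cons 0 (Fin.cons x w : Fin 5 → ZMod p) : Fin 6 → ZMod p) 2 *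
          ((Fin.cons 0 (Fin.cons x w : Fin 5 → ZMod p) : Fin 6 → ZMod p) 5 +
          (Fin.cons 0 (Fin.cons x w : Fin 5 → ZMod p) : Fin 6 → ZMod p) 3 +
          (Fin.cons 0 (Fin.cons x w : Fin 5 → ZMod p) : Fin 6 → ZMod p) 4) +
          (Fin.cons 0 (Fin.cons x w : Fin 5 → ZMod p) : Fin 6 → ZMod p) 5 *
          (Fin.cons 0 (Fin.cons x w : Fin 5 → ZMod p) : Fin 6 → ZMod p) 4 = 0 * x + SS w := by
        have e : (Fin.cons 0 (Fin.cons x w : Fin 5 → ZMod p) : Fin 6 → ZMod p) 2 *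
          ((Fin.cons 0 (Fin.cons x w : Fin 5 → ZMod p) : Fin 6 → ZMod p) 5 +
          (Fin.cons 0 (Fin.cons x w : Fin 5 → ZMod p) : Fin 6 → ZMod p) 3 +
          (Fin.cons 0 (Fin.cons x w : Fin 5 → ZMod p) : Fin 6 → ZMod p) 4) +
          (Fin.cons 0 (Fin.cons x w : Fin 5 → ZMod p) : Fin 6 → ZMod p) 5 *
          (Fin.cons 0 (Fin.cons x w : Fin 5 → ZMod p) : Fin 6 → ZMod p) 4 = SS w := rfl
        rw [e]
        ring
      rw [h1, h2])]
  have pS4 : PD 4 2 (SS : (Fin 4 → ZMod p) → ZMod p) := by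
    show PD 4 2 (fun w : Fin 4 → ZMod p => w 0 * (w 3 + w 1 + w 2) + w 3 * w 2)
    exact PD.mono (by
      repeat' (first | exact PD.var _ | exact PD.const _ | apply PD.add | apply PD.sub | apply PD.mul))
      (by decide)
  have p3 : PD 4 1 (fun w : Fin 4 → ZMod p => w 3) := PD.var 3
  have p1 : PD 4 1 (fun w : Fin 4 → ZMod p => w 1) := PD.var 1
  have hAS : cnt (ZMod p) (fun w : Fin 4 → ZMod p => AA w = 0 ∧ SS w = 0) = 1 := by
    rw [cnt_congr (Q := fun w : Fin 4 → ZMod p => (SS w = 0 ∧ w 3 = 0) ∨ (SS w = 0 ∧ w 1 = 0))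
      (fun w => by
        have h : AA w = SS w + w 3 * w 1 := by simp only [AA, SS]; ring
        rw [h]
        constructor
        · rintro ⟨h1, h2⟩
          rw [h2, zero_add] at h1
          rcases mul_eq_zero.mp h1 with h3 | h3
          · exact Or.inl ⟨h2, h3⟩
          · exact Or.inr ⟨h2, h3⟩
        · rintro (⟨h1, h2⟩ | ⟨h1, h2⟩)
          · exact ⟨by rw [h1, h2]; ring, h1⟩
          · exact ⟨by rw [h1, h2]; ring, h1⟩)]
    rw [cnt_or, cw2 pS4 p3 (by norm_num), cw2 pS4 p1 (by norm_num), last_count]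
    ring
  rw [cnt_congr (P := fun w : Fin 4 → ZMod p => AA w * SS w -
      (w 0 * (w 1 * w 2) + w 0 * w 3 * w 1 + w 3 * w 1 * w 2) * 0 = 0)
    (Q := fun w : Fin 4 → ZMod p => AA w * SS w = 0) (fun w => by rw [mul_zero, sub_zero]),
    cnt_mul, hAS, cw1 pS4 (by norm_num),
    cnt_congr (P := fun w : Fin 4 → ZMod p => AA w = 0 ∧ (0 : ZMod p) = 0)
      (Q := fun w : Fin 4 → ZMod p => AA w = 0) (fun w => by simp)]
  ring

end MP06b.CX
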