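import Pool.Agent.Lib.MP_06b34c_co.CX.S1
import Pool.Agent.Lib.MP_06b34c_co.CX.S2
import Pool.Agent.Lib.MP_06b34c_co.CX.S3
import Pool.Agent.Lib.MP_06b34c_co.CX.S4

/-! # MP_06b34c, counterexample: the count for one half

`rho`: `cnt (nt ≠ 0 ∧ nB = c * nt) = cnt (nB - c * nt = 0) - cnt (nt = 0 ∧ nB = 0)` (the points with
`nB = c * nt` and `nt = 0` are those with `nt = nB = 0`); the first is 0 by `cw1` (degree 7 < 13),
the second is `-1` by `S1 ... S5`. -/

namespace MP06b.CX

variable {p : ℕ} [Fact p.Prime]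

private theorem deg_line (c : ZMod p) : PD 13 7 (fun v : Fin 13 → ZMod p => nB v - c * nt v) := by
  simp only [nB, nt, mB, mn, mt, m5, m7, X1, Y1, U1, U2, U3, top, b1, ZZ, X3, Y3, Q57a, Q5a7,
    Qall, zz, B13, mkB]
  refine PD.mono (by
    repeat' first
      | exact PD.var _
      | exact PD.const _
      | apply PD.add
      | apply PD.sub
      | apply PD.mul) (by decide)

theorem rho (c : ZMod p) :
    cnt (ZMod p) (fun v : Fin 13 → ZMod p => nt v ≠ 0 ∧ nB v = c * nt v) = 1 := by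
  classical
  have h1 : cnt (ZMod p) (fun v : Fin 13 → ZMod p => nB v - c * nt v = 0) = 0 :=
    cw1 (deg_line c) (by norm_num)
  have h2 : cnt (ZMod p) (fun v : Fin 13 → ZMod p => nt v = 0 ∧ nB v = 0) = -1 := by
    rw [S1, S2, S3, S4, S5]
  have h3 : cnt (ZMod p) (fun v : Fin 13 → ZMod p => nB v - c * nt v = 0) =
      cnt (ZMod p) (fun v : Fin 13 → ZMod p => nt v ≠ 0 ∧ nB v = c * nt v) +
        cnt (ZMod p) (fun v : Fin 13 → ZMod p => nt v = 0 ∧ nB v = 0) := by
    unfold cnt
    rw [← Finset.sum_add_distrib]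
    refine Finset.sum_congr rfl fun v _ => ?_
    by_cases ht : nt v = 0
    · by_cases hB : nB v = 0 <;> simp [ht, hB]
    · by_cases hB : nB v - c * nt v = 0
      · have hB' : nB v = c * nt v := sub_eq_zero.mp hB
        simp [ht, hB']
      · have hB' : ¬ nB v = c * nt v := fun h => hB (sub_eq_zero.mpr h)
        simp [ht, hB, hB']
  rw [h1, h2] at h3
  linear_combination -h3

end MP06b.CX
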