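import Pool.Agent.Lib.MP_06b34c_co.CX.Form
import Pool.Agent.Lib.MP_06b34c_co.CX.Rho
import Pool.Agent.Lib.MP_06b34c_co.CX.CardU
import Pool.Agent.Lib.MP_06b34c_co.CX.CardDel
import Pool.Agent.Lib.MP_06b34c_co.CX.Fin

/-! # MP_06b34c, counterexample: `c_2 = -1` for all primes -/

namespace MP06b.CX

open MP06b

/-- the edges of `HX` -/
private noncomputable def eE : (Fin 13 ⊕ Fin 13 ⊕ Fin 2) ≃ HX.edgeSet :=
  Equiv.ofBijective (fun i => ⟨ends i, mem_HX i⟩) (by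
    constructor
    · intro i j hij
      exact ends_inj (congrArg Subtype.val hij)
    · rintro ⟨e, he⟩
      have h1 : e ∈ (SimpleGraph.fromEdgeSet (Set.range ends)).edgeSet := he
      rw [SimpleGraph.edgeSet_fromEdgeSet] at h1
      obtain ⟨i, hi⟩ := h1.1
      exact ⟨i, Subtype.ext hi⟩)

/-- the coordinates -/
private noncomputable def eA (Z : Type*) : (HX.edgeSet → Z) ≃
    (Fin 13 → Z) × (Fin 13 → Z) × Z × Z :=
  ((eE.arrowCongr (Equiv.refl Z)).symm.trans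
    (Equiv.sumArrowEquivProdArrow (Fin 13) (Fin 13 ⊕ Fin 2) Z)).trans
    ((Equiv.refl (Fin 13 → Z)).prodCongr
      ((Equiv.sumArrowEquivProdArrow (Fin 13) (Fin 2) Z).trans
        ((Equiv.refl (Fin 13 → Z)).prodCongr (finTwoArrowEquiv Z))))

private theorem eA_apply {Z : Type*} (a : HX.edgeSet → Z) : eA Z a =
    ((fun i => a ⟨ends (Sum.inl i), mem_HX _⟩), (fun i => a ⟨ends (Sum.inr (Sum.inl i)), mem_HX _⟩),
      a ⟨ends (Sum.inr (Sum.inr 0)), mem_HX _⟩, a ⟨ends (Sum.inr (Sum.inr 1)), mem_HX _⟩) :=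
  rfl

theorem zeros_HX (p : ℕ) [Fact p.Prime] : ∃ k : ℕ, zeros p HX + p ^ 2 = p ^ 3 * k := by
  obtain ⟨k, hk⟩ := final_count (p := p) (A := Fin 13 → ZMod p) nt n5 n7 nB nn
    (fun v => n_rel v) card_U
    (fun c => by
      have h := rho (p := p) c
      rw [cnt_eq_card] at h
      exact h)
    (fun c5 c7 cB h => by
      have h1 := card_Del (p := p) c5 c7 cB h
      rw [cnt_eq_card] at h1
      exact h1)
  refine ⟨k, ?_⟩
  rw [← hk]
  congr 1
  unfold zeros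
  refine Nat.card_congr ((eA (ZMod p)).subtypeEquiv fun a => ?_)
  rw [kirchhoff_HX, eA_apply]

theorem c2_HX (p : ℕ) (hp : p.Prime) : p ^ 2 ∣ zeros p HX ∧ c2 p HX = -1 := by
  haveI : Fact p.Prime := ⟨hp⟩
  obtain ⟨k, hk⟩ := zeros_HX p
  have hp2 : 0 < p ^ 2 := pow_pos hp.pos 2
  have hk0 : k ≠ 0 := by
    rintro rfl
    rw [mul_zero] at hk
    omega
  have hpk : 1 ≤ p * k := Nat.one_le_iff_ne_zero.2 (mul_ne_zero hp.pos.ne' hk0)
  have h1 : zeros p HX = p ^ 2 * (p * k - 1) := by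
    have h2 : p ^ 2 * (p * k - 1) + p ^ 2 = p ^ 3 * k := by
      have h3 : p ^ 2 * (p * k - 1) + p ^ 2 = p ^ 2 * ((p * k - 1) + 1) := by ring
      rw [h3, Nat.sub_add_cancel hpk]
      ring
    omega
  refine ⟨⟨_, h1⟩, ?_⟩
  unfold c2
  rw [h1, Nat.mul_div_cancel_left _ hp2, Nat.cast_sub hpk, Nat.cast_mul, ZMod.natCast_self]
  simp

end MP06b.CX
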