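import Mathlib

/-! # MP_06b34c, counterexample: the polynomials of one half

The half is a network with three terminals `5, 7, B`. Its 13 edge variables are
`v = (e, q, s, t, yB, y0, ya, r, xa, p, x0, x9, u)`. `nt` is the sum over the spanning trees of the
products of the variables outside; `n5`, `n7`, `nB` are the sums over the spanning 2-forests that
isolate the terminal `5`, `7`, `B` from the two others; `nn` is the sum over the spanning
3-forests that isolate the three terminals. -/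

namespace MP06b.CX

variable {R : Type*} [CommRing R]

/-- the coefficients of the inner network (terminals `0, 9, a`) and the variables `p`, `r` -/
structure B7 (R : Type*) where
  (c0 c09 c0a c9a c1 p r : R)

/-- the coefficients of the network with a star `x0, x9, xa` and an edge `u` between `0` and `9` -/
def mkB (r xa p x0 x9 u : R) : B7 R where
  c0 := u * (x0 * x9 + x0 * xa + x9 * xa)
  c09 := u * xa + (x0 * x9 + x0 * xa + x9 * xa)
  c0a := u * x9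
  c9a := u * x0
  c1 := u + x0 + x9
  p := p
  r := r

theorem mkB_rel (r xa p x0 x9 u : R) :
    (mkB r xa p x0 x9 u).c0 * (mkB r xa p x0 x9 u).c1 =
      (mkB r xa p x0 x9 u).c09 * (mkB r xa p x0 x9 u).c0a +
      (mkB r xa p x0 x9 u).c09 * (mkB r xa p x0 x9 u).c9a +
      (mkB r xa p x0 x9 u).c0a * (mkB r xa p x0 x9 u).c9a := by
  simp only [mkB]; ring

def G1 (B : B7 R) : R := B.p * B.r * B.c1 + B.p * (B.c9a + B.c09) + B.r * (B.c0a + B.c09) + B.c0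
def G2 (B : B7 R) : R := B.p * B.r * (B.c9a + B.c09) + B.r * B.c0
def G3 (B : B7 R) : R := B.r * (B.c0a + B.c09) + B.p * B.c09 + B.c0
def kap (B : B7 R) : R := B.r * B.c0a - B.p * B.c9a
def G5 (B : B7 R) : R := (B.r + B.p) * B.c09 + B.p * B.c9a + B.c0
def FF (B : B7 R) (y0 ya : R) : R := (y0 + ya) * G1 B + G2 B
def KK (B : B7 R) (y0 ya : R) : R := y0 * G3 B + ya * kap B + B.r * B.c0

def zz (yB y0 ya : R) : R := y0 * ya + y0 * yB + ya * yB

def top (B : B7 R) (t yB y0 ya : R) : R :=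
  B.c1 * (t * (ya + y0) + zz yB y0 ya) + t * (B.c9a + B.c09) + yB * (B.c9a + B.c09) +
    ya * (B.c9a + B.c0a) + y0 * (B.c0a + B.c09) + B.c0

def b1 (B : B7 R) (t yB y0 ya : R) : R :=
  B.c1 * zz yB y0 ya * t + (B.c9a + B.c09) * yB * t

def ZZ (B : B7 R) (t yB y0 ya : R) : R :=
  B.p * B.r * top B t yB y0 ya + B.r * t * (B.c0a * (ya + y0) + B.c09 * y0 + B.c0) +
    B.p * (t * y0 * (B.c9a + B.c09) + B.c9a * zz yB y0 ya + B.c0 * y0) + B.c0 * y0 * t

def X3 (B : B7 R) (t yB y0 ya : R) : R :=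
  B.p * (ya * t * (B.c9a + B.c09) + B.c09 * zz yB y0 ya + B.c0 * ya) + B.c0 * ya * t

def Y3 (B : B7 R) (t yB y0 ya : R) : R :=
  B.r * (B.c09 * ya * t + (B.c0a + B.c09) * zz yB y0 ya + B.c0 * (yB + ya)) +
    B.c0 * zz yB y0 ya

def X1 (B : B7 R) (t yB y0 ya : R) : R :=
  B.p * top B t yB y0 ya + t * (B.c0a * (ya + y0) + B.c0) + B.c9a * ya * t

def Y1 (B : B7 R) (t yB y0 ya : R) : R :=
  B.r * top B t yB y0 ya + B.c9a * (y0 * t + zz yB y0 ya) + B.c0 * y0 +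
    B.c0a * zz yB y0 ya + B.c0 * yB

def Q57a (B : B7 R) (t yB y0 ya : R) : R :=
  B.p * b1 B t yB y0 ya + (B.p + t) * (B.c0a * zz yB y0 ya + B.c0 * yB)

def Q5a7 (B : B7 R) (t yB y0 ya : R) : R :=
  B.r * (b1 B t yB y0 ya + B.c9a * ya * t) + B.c9a * zz yB y0 ya * t

def Qall (B : B7 R) (t yB y0 ya : R) : R :=
  B.p * B.r * (b1 B t yB y0 ya + (B.c9a + B.c09) * ya * t + (B.c0a + B.c09) * zz yB y0 ya +
      B.c0 * (yB + ya)) +
    B.r * t * ((B.c0a + B.c09) * zz yB y0 ya + B.c0 * yB + B.c0 * ya) +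
    B.p * t * zz yB y0 ya * (B.c9a + B.c09) + B.p * B.c0 * zz yB y0 ya +
    B.c0 * zz yB y0 ya * t

def U1 (B : B7 R) (t yB y0 ya : R) : R :=
  B.c9a * (y0 * t + zz yB y0 ya) + B.c0 * y0 + B.c09 * (ya * t + zz yB y0 ya) + B.c0 * ya +
    B.c09 * y0 * t + B.c9a * ya * t

def U2 (B : B7 R) (t yB y0 ya : R) : R :=
  B.c0a * t * (ya + y0) + B.c0 * t + B.c09 * (ya * t + zz yB y0 ya) + B.c0 * ya +
    B.c09 * y0 * t + B.c0a * zz yB y0 ya + B.c0 * yB

def U3 (B : B7 R) (t yB y0 ya : R) : R :=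
  B.c0 * ya * t + B.c0 * zz yB y0 ya + B.c0 * y0 * t

/-- the polynomials without the edge `e` -/
def mt (B : B7 R) (q s t yB y0 ya : R) : R :=
  (B.p + q) * (B.r + s) * top B t yB y0 ya + (B.p + q) * U1 B t yB y0 ya +
    (B.r + s) * U2 B t yB y0 ya + U3 B t yB y0 ya

def m5 (B : B7 R) (q s t yB y0 ya : R) : R :=
  q * s * X1 B t yB y0 ya + q * (ZZ B t yB y0 ya + X3 B t yB y0 ya) + s * X3 B t yB y0 ya

def m7 (B : B7 R) (q s t yB y0 ya : R) : R :=
  q * s * Y1 B t yB y0 ya + s * (ZZ B t yB y0 ya + Y3 B t yB y0 ya) + q * Y3 B t yB y0 ya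

def mB (B : B7 R) (q s t yB y0 ya : R) : R :=
  q * s * (b1 B t yB y0 ya + B.c09 * y0 * t) +
    s * (Q57a B t yB y0 ya + B.c09 * zz yB y0 ya * t) +
    q * (Q5a7 B t yB y0 ya + B.c09 * zz yB y0 ya * t) + Qall B t yB y0 ya

def mn (B : B7 R) (q s t yB y0 ya : R) : R :=
  q * s * (Q5a7 B t yB y0 ya + Q57a B t yB y0 ya + ZZ B t yB y0 ya) +
    (q + s) * Qall B t yB y0 ya

/-- the inner data of a point with 13 coordinates -/
def B13 (v : Fin 13 → R) : B7 R := mkB (v 7) (v 8) (v 9) (v 10) (v 11) (v 12)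

def B12 (v : Fin 12 → R) : B7 R := mkB (v 6) (v 7) (v 8) (v 9) (v 10) (v 11)
def B11 (v : Fin 11 → R) : B7 R := mkB (v 5) (v 6) (v 7) (v 8) (v 9) (v 10)
def B10 (v : Fin 10 → R) : B7 R := mkB (v 4) (v 5) (v 6) (v 7) (v 8) (v 9)
def B9 (v : Fin 9 → R) : B7 R := mkB (v 3) (v 4) (v 5) (v 6) (v 7) (v 8)
def B8 (v : Fin 8 → R) : B7 R := mkB (v 2) (v 3) (v 4) (v 5) (v 6) (v 7)
def B7' (v : Fin 7 → R) : B7 R := mkB (v 1) (v 2) (v 3) (v 4) (v 5) (v 6)
def B6 (v : Fin 6 → R) : B7 R := mkB (v 0) (v 1) (v 2) (v 3) (v 4) (v 5)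

def nt (v : Fin 13 → R) : R :=
  v 0 * mt (B13 v) (v 1) (v 2) (v 3) (v 4) (v 5) (v 6) +
    m5 (B13 v) (v 1) (v 2) (v 3) (v 4) (v 5) (v 6) +
    m7 (B13 v) (v 1) (v 2) (v 3) (v 4) (v 5) (v 6)

def n5 (v : Fin 13 → R) : R := v 0 * m5 (B13 v) (v 1) (v 2) (v 3) (v 4) (v 5) (v 6)

def n7 (v : Fin 13 → R) : R := v 0 * m7 (B13 v) (v 1) (v 2) (v 3) (v 4) (v 5) (v 6)

def nB (v : Fin 13 → R) : R :=
  v 0 * mB (B13 v) (v 1) (v 2) (v 3) (v 4) (v 5) (v 6) +
    mn (B13 v) (v 1) (v 2) (v 3) (v 4) (v 5) (v 6)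

def nn (v : Fin 13 → R) : R := v 0 * mn (B13 v) (v 1) (v 2) (v 3) (v 4) (v 5) (v 6)

/-- the Kirchhoff polynomial of the whole graph in terms of the two halves: the left half has the
terminals `5, 7, B`, the right half `8, 6, B` (in this order), and there are the edges
`a = 56`, `b = 78` -/
def psi (ft f5 f7 fB fn gt g8 g6 gB gn a b : R) : R :=
  ft * (a * b * gt + a * (g8 + gB) + b * (g6 + gB) + gn) + f5 * (b * gt + g8 + gB) +
    f7 * (a * gt + g6 + gB) + fB * ((a + b) * gt + g6 + g8) + fn * gt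

end MP06b.CX
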