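import Pool.Agent.Lib.MP_06b34c_co.CX.GraphDefs
import Pool.Agent.Lib.MP_06b34c_co.CX.HXDefs

/-! # MP_06b34c, counterexample: the completed graph is internally six-edge-connected

`InternallySix GX`: a depth first search that assigns the vertices `0, 1, ...` in turn and
stops when six edges are already cut (3203 nodes, kernel computation). -/

namespace MP06b.CX

/-- lists of neighbours in the completed graph -/
private def nb : Fin 16 → List (Fin 16) :=
  ![[12, 7, 2, 9], [3, 4, 14, 15], [10, 0, 9, 15], [8, 6, 11, 1], [11, 6, 1, 14], [7, 10, 9, 6],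
    [8, 3, 4, 5], [5, 10, 0, 8], [6, 3, 14, 7], [13, 5, 2, 0], [5, 7, 12, 2], [13, 4, 3, 15],
    [13, 0, 10, 15], [9, 12, 14, 11], [13, 8, 1, 4], [1, 2, 11, 12]]

/-- adjacency in the completed graph -/
private def adj16 (x y : Fin 16) : Bool := (nb x).contains y

/-- adjacency in `HX` -/
private def adj15 (x y : Fin 15) : Bool := adj16 x.castSucc y.castSucc

private theorem adj16_symm : ∀ x y : Fin 16, adj16 x y = true → adj16 y x = true := by
  decide +kernel

private theorem adj16_irrefl : ∀ x : Fin 16, ¬ adj16 x x = true := by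
  decide +kernel

/-- the completed graph -/
private def GX : SimpleGraph (Fin 16) where
  Adj x y := adj16 x y = true
  symm := ⟨adj16_symm⟩
  loopless := ⟨adj16_irrefl⟩

private theorem HX_adj_aux : ∀ x y : Fin 15, ((∃ i, ends i = s(x, y)) ∧ x ≠ y) ↔ adj15 x y = true := by
  decide +kernel

private theorem HX_adj (x y : Fin 15) : HX.Adj x y ↔ adj15 x y = true := by
  rw [← HX_adj_aux, HX, SimpleGraph.fromEdgeSet_adj, Set.mem_range]

private def par : Fin 16 → Fin 16 :=
  ![0, 15, 0, 1, 1, 7, 5, 0, 7, 0, 7, 13, 0, 9, 8, 2]

private def dep : Fin 16 → ℕ := ![0, 3, 1, 4, 4, 2, 3, 1, 2, 1, 2, 3, 1, 2, 3, 2]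

private theorem par_spec : ∀ x : Fin 16, x = 0 ∨ (adj16 (par x) x = true ∧ dep (par x) < dep x) := by
  decide +kernel

private theorem GX_reach : ∀ (n : ℕ) (x : Fin 16), dep x ≤ n → GX.Reachable 0 x := by
  intro n
  induction n with
  | zero =>
    intro x hx
    rcases par_spec x with h | ⟨_, h⟩
    · rw [h]
    · omega
  | succ n ih =>
    intro x hx
    rcases par_spec x with h | ⟨h1, h⟩
    · rw [h]
    · have h2 : GX.Adj (par x) x := h1
      exact (ih (par x) (by omega)).trans h2.reachable

private theorem GX_conn : GX.Connected :=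
  ⟨fun x y => (GX_reach _ x le_rfl).symm.trans (GX_reach _ y le_rfl)⟩

private theorem card16 : ∀ x : Fin 16, (Finset.univ.filter fun y => adj16 x y = true).card = 4 := by
  decide +kernel

private theorem GX_reg (x : Fin 16) : (GX.neighborSet x).ncard = 4 := by
  have h : GX.neighborSet x = ((Finset.univ.filter fun y => adj16 x y = true : Finset (Fin 16)) :
      Set (Fin 16)) := by
    ext y
    simp only [SimpleGraph.mem_neighborSet, Finset.coe_filter, Finset.mem_univ, true_and,
      Set.mem_ofPred_eq]
    rfl
  rw [h, Set.ncard_coe_finset, card16]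

/-! ### six edges -/

private def edges : List (Fin 16 × Fin 16) :=
  [(0, 2), (1, 3), (1, 4), (3, 6), (4, 6), (5, 6), (0, 7), (5, 7), (3, 8), (6, 8), (7, 8),
    (0, 9), (2, 9), (5, 9), (2, 10), (5, 10), (7, 10), (3, 11), (4, 11), (0, 12), (10, 12),
    (9, 13), (11, 13), (12, 13), (1, 14), (4, 14), (8, 14), (13, 14), (1, 15), (2, 15),
    (11, 15), (12, 15)]

private theorem edges_adj : ∀ e ∈ edges, adj16 e.1 e.2 = true := by
  decide +kernel

private theorem edges_nodup : (edges.map fun e => s(e.1, e.2)).Nodup := by
  decide +kernel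

/-- for each vertex `k` the positions of the neighbours `j < k` in the list `k-1, ..., 1, 0` -/
private def offs : List (List ℕ) :=
  [[], [], [1], [1], [2], [], [2, 1, 0], [6, 1], [4, 1, 0], [8, 6, 3], [7, 4, 2], [7, 6],
    [11, 1], [3, 1, 0], [12, 9, 5, 0], [13, 12, 3, 2]]

private def w (a b : Bool) : ℕ := if a = b then 0 else 1

private def cc (bs : List Bool) (b : Bool) : List ℕ → ℕ
  | [] => 0
  | d :: l => w (bs.getD d false) b + cc bs b l

/-- depth first search over the vertex sets, stopped when six edges are cut -/
private def run : List (List ℕ) → List Bool → ℕ → ℕ → Bool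
  | [], _, cut, ones => decide (6 ≤ cut) || (decide (ones ≤ 1) || decide (15 ≤ ones))
  | l :: ls, bs, cut, ones => decide (6 ≤ cut) ||
    (run ls (false :: bs) (cut + cc bs false l) ones &&
      run ls (true :: bs) (cut + cc bs true l) (ones + 1))

private def tot : List (List ℕ) → List Bool → List Bool → ℕ
  | l :: ls, bs, b :: t => cc bs b l + tot ls (b :: bs) t
  | _, _, _ => 0

private def cnt : List Bool → ℕ
  | [] => 0
  | b :: t => (if b = true then 1 else 0) + cnt t

private theorem run_sound (ls : List (List ℕ)) : ∀ (bs : List Bool) (cut ones : ℕ),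
    run ls bs cut ones = true → ∀ t : List Bool, t.length = ls.length →
      6 ≤ cut + tot ls bs t ∨ ones + cnt t ≤ 1 ∨ 15 ≤ ones + cnt t := by
  induction ls with
  | nil =>
    intro bs cut ones h t ht
    have h0 : t = [] := List.length_eq_zero_iff.1 ht
    subst h0
    simp only [run, Bool.or_eq_true, decide_eq_true_eq] at h
    simp only [tot, cnt]
    omega
  | cons l ls ih =>
    intro bs cut ones h t ht
    cases t with
    | nil => simp at ht
    | cons b t =>
      have ht' : t.length = ls.length := by simpa using ht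
      simp only [run, Bool.or_eq_true, Bool.and_eq_true, decide_eq_true_eq] at h
      rcases h with h | ⟨h1, h2⟩
      · left
        omega
      · cases b with
        | false =>
          have := ih _ _ _ h1 t ht'
          simp only [tot, cnt]
          simp only [Bool.false_eq_true, if_false]
          omega
        | true =>
          have := ih _ _ _ h2 t ht'
          simp only [tot, cnt]
          simp only [if_true]
          omega

private theorem run_ok : run offs [] 0 0 = true := by
  decide +kernel

private theorem six_or (f : Fin 16 → Bool) :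
    6 ≤ edges.countP (fun e => f e.1 != f e.2) ∨ (Finset.univ.filter fun x => f x = true).card ≤ 1 ∨
      15 ≤ (Finset.univ.filter fun x => f x = true).card := by
  have h := run_sound offs [] 0 0 run_ok
    [f 0, f 1, f 2, f 3, f 4, f 5, f 6, f 7, f 8, f 9, f 10, f 11, f 12, f 13, f 14, f 15] rfl
  have h1 : ∀ l : List (Fin 16 × Fin 16), l.countP (fun e => f e.1 != f e.2) =
      (l.map fun e => w (f e.1) (f e.2)).sum := by
    intro l
    induction l with
    | nil => rfl
    | cons e l ih =>
      rw [List.countP_cons, ih, List.map_cons, List.sum_cons, add_comm]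
      congr 1
      unfold w
      by_cases he : f e.1 = f e.2
      · simp [he]
      · simp [he]
  have h2 : (edges.map fun e => w (f e.1) (f e.2)).sum = tot offs []
      [f 0, f 1, f 2, f 3, f 4, f 5, f 6, f 7, f 8, f 9, f 10, f 11, f 12, f 13, f 14, f 15] := by
    simp only [edges, offs, List.map_cons, List.map_nil, List.sum_cons, List.sum_nil, tot, cc,
      List.getD_cons_zero, List.getD_cons_succ]
    ring
  have h3 : (Finset.univ.filter fun x => f x = true).card = cnt
      [f 0, f 1, f 2, f 3, f 4, f 5, f 6, f 7, f 8, f 9, f 10, f 11, f 12, f 13, f 14, f 15] := by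
    rw [Finset.card_filter]
    simp only [Fin.sum_univ_succ, cnt]
    simp
  rw [h1, h2, h3]
  omega

private theorem GX_six : InternallySix GX := by
  classical
  intro S hS hSc
  set f : Fin 16 → Bool := fun x => decide (x ∈ S) with hf
  have e1 : S = ((Finset.univ.filter fun x => f x = true : Finset (Fin 16)) : Set (Fin 16)) := by
    ext x
    simp [hf]
  have e2 : Sᶜ = ((Finset.univ.filter fun x => ¬ f x = true : Finset (Fin 16)) :
      Set (Fin 16)) := by
    ext x
    simp [hf]
  have c1 : 2 ≤ (Finset.univ.filter fun x => f x = true).card := by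
    rw [e1, Set.encard_coe_eq_coe_finsetCard] at hS
    exact_mod_cast hS
  have c2 : 2 ≤ (Finset.univ.filter fun x => ¬ f x = true).card := by
    rw [e2, Set.encard_coe_eq_coe_finsetCard] at hSc
    exact_mod_cast hSc
  have c3 := Finset.card_filter_add_card_filter_not (s := (Finset.univ : Finset (Fin 16)))
    (fun x => f x = true)
  rw [Finset.card_univ, Fintype.card_fin] at c3
  have key : 6 ≤ edges.countP (fun e => f e.1 != f e.2) := by
    rcases six_or f with h | h | h
    · exact h
    · omega
    · omega
  set cutL := edges.filter (fun e => f e.1 != f e.2) with hcut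
  have k1 : ((cutL.map fun e => s(e.1, e.2)).toFinset).card = cutL.length := by
    rw [List.toFinset_card_of_nodup, List.length_map]
    exact edges_nodup.sublist (List.Sublist.map _ List.filter_sublist)
  have k2 : (((cutL.map fun e => s(e.1, e.2)).toFinset : Finset (Sym2 (Fin 16))) :
      Set (Sym2 (Fin 16))) ⊆ {e | e ∈ GX.edgeSet ∧ ∃ x ∈ S, ∃ y ∈ Sᶜ, e = s(x, y)} := by
    intro e he
    rw [Finset.mem_coe, List.mem_toFinset, List.mem_map] at he
    obtain ⟨⟨a, b⟩, hab, rfl⟩ := he
    rw [hcut, List.mem_filter] at hab
    obtain ⟨h1, h2⟩ := hab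
    refine ⟨edges_adj _ h1, ?_⟩
    simp only [hf, bne_iff_ne, ne_eq, decide_eq_decide] at h2
    by_cases ha : a ∈ S
    · have hb : b ∉ S := fun hb => h2 ⟨fun _ => hb, fun _ => ha⟩
      exact ⟨a, ha, b, hb, rfl⟩
    · have hb : b ∈ S := by
        by_contra hb
        exact h2 ⟨fun h => absurd h ha, fun h => absurd h hb⟩
      exact ⟨b, hb, a, ha, Sym2.eq_swap⟩
  refine le_trans ?_ (Set.encard_le_encard k2)
  rw [Set.encard_coe_eq_coe_finsetCard, k1]
  rw [List.countP_eq_length_filter] at key
  exact_mod_cast key

theorem HX_primitive : IsPrimitiveFourPoint HX := by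
  refine ⟨Fin 16, GX, 15, inferInstance, GX_conn, GX_reg, GX_six, ⟨?_⟩⟩
  refine
    { toFun := fun x => ⟨x.castSucc, (Fin.castSucc_lt_last x).ne⟩
      invFun := fun y => y.1.castPred y.2
      left_inv := fun x => by simp
      right_inv := fun y => by simp
      map_rel_iff' := ?_ }
  intro x y
  rw [HX_adj]
  exact Iff.rfl

end MP06b.CX
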