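import Pool.Agent.Lib.MP_06b34c_co.CX.Poly

/-! # MP_06b34c, counterexample: the quadratic relation -/

namespace MP06b.CX

variable {R : Type*} [CommRing R]

private theorem relA (B : B7 R) (t yB y0 ya : R) :
    B.p * B.r * top B t yB y0 ya + B.p * U1 B t yB y0 ya + B.r * U2 B t yB y0 ya +
      U3 B t yB y0 ya = ZZ B t yB y0 ya + X3 B t yB y0 ya + Y3 B t yB y0 ya := by
  simp only [top, ZZ, X3, Y3, U1, U2, U3, zz]
  ring

private theorem rel20 (B : B7 R)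
    (hB : B.c0 * B.c1 = B.c09 * B.c0a + B.c09 * B.c9a + B.c0a * B.c9a) (t yB y0 ya : R) :
    (B.r * top B t yB y0 ya + U1 B t yB y0 ya) * Qall B t yB y0 ya =
      (ZZ B t yB y0 ya + X3 B t yB y0 ya) * Y3 B t yB y0 ya +
      (ZZ B t yB y0 ya + X3 B t yB y0 ya + Y3 B t yB y0 ya) *
        (Q5a7 B t yB y0 ya + B.c09 * zz yB y0 ya * t) := by
  obtain ⟨c0, c09, c0a, c9a, c1, p, r⟩ := B
  simp only at hB
  simp only [top, b1, ZZ, X3, Y3, Q5a7, Qall, U1, zz]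
  linear_combination (r * t * ya) ^ 2 * hB

private theorem rel02 (B : B7 R)
    (hB : B.c0 * B.c1 = B.c09 * B.c0a + B.c09 * B.c9a + B.c0a * B.c9a) (t yB y0 ya : R) :
    (B.p * top B t yB y0 ya + U2 B t yB y0 ya) * Qall B t yB y0 ya =
      X3 B t yB y0 ya * (ZZ B t yB y0 ya + Y3 B t yB y0 ya) +
      (ZZ B t yB y0 ya + X3 B t yB y0 ya + Y3 B t yB y0 ya) *
        (Q57a B t yB y0 ya + B.c09 * zz yB y0 ya * t) := by
  obtain ⟨c0, c09, c0a, c9a, c1, p, r⟩ := B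
  simp only at hB
  simp only [top, b1, ZZ, X3, Y3, Q57a, Qall, U2, zz]
  linear_combination (p * (y0 * ya + y0 * yB + ya * yB)) ^ 2 * hB

private theorem rel11 (B : B7 R)
    (hB : B.c0 * B.c1 = B.c09 * B.c0a + B.c09 * B.c9a + B.c0a * B.c9a) (t yB y0 ya : R) :
    (ZZ B t yB y0 ya + X3 B t yB y0 ya + Y3 B t yB y0 ya) * ZZ B t yB y0 ya +
      (B.r * top B t yB y0 ya + U1 B t yB y0 ya + (B.p * top B t yB y0 ya + U2 B t yB y0 ya) -
        X1 B t yB y0 ya - Y1 B t yB y0 ya) * Qall B t yB y0 ya =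
      (ZZ B t yB y0 ya + X3 B t yB y0 ya) * (ZZ B t yB y0 ya + Y3 B t yB y0 ya) +
      X3 B t yB y0 ya * Y3 B t yB y0 ya +
      (ZZ B t yB y0 ya + X3 B t yB y0 ya + Y3 B t yB y0 ya) *
        (2 * (B.c09 * zz yB y0 ya * t)) := by
  have h1 : B.r * top B t yB y0 ya + U1 B t yB y0 ya + (B.p * top B t yB y0 ya +
      U2 B t yB y0 ya) - X1 B t yB y0 ya - Y1 B t yB y0 ya =
      2 * B.c09 * (ya * t + zz yB y0 ya + y0 * t) + 2 * B.c0 * ya := by
    simp only [top, X1, Y1, U1, U2, zz]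
    ring
  rw [h1]
  obtain ⟨c0, c09, c0a, c9a, c1, p, r⟩ := B
  simp only at hB
  simp only [top, b1, ZZ, X3, Y3, Qall, zz]
  linear_combination (2 * p * r * t * ya * (y0 * ya + y0 * yB + ya * yB)) * hB

private theorem rel21 (B : B7 R)
    (hB : B.c0 * B.c1 = B.c09 * B.c0a + B.c09 * B.c9a + B.c0a * B.c9a) (t yB y0 ya : R) :
    (B.r * top B t yB y0 ya + U1 B t yB y0 ya) *
        (Q5a7 B t yB y0 ya + Q57a B t yB y0 ya + ZZ B t yB y0 ya) +
      top B t yB y0 ya * Qall B t yB y0 ya =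
      X1 B t yB y0 ya * Y3 B t yB y0 ya +
      (ZZ B t yB y0 ya + X3 B t yB y0 ya) * Y1 B t yB y0 ya +
      (X1 B t yB y0 ya + Y1 B t yB y0 ya) * (Q5a7 B t yB y0 ya + B.c09 * zz yB y0 ya * t) +
      (ZZ B t yB y0 ya + X3 B t yB y0 ya + Y3 B t yB y0 ya) *
        (b1 B t yB y0 ya + B.c09 * y0 * t) := by
  obtain ⟨c0, c09, c0a, c9a, c1, p, r⟩ := B
  simp only at hB
  simp only [top, b1, ZZ, X1, Y1, X3, Y3, Q5a7, Q57a, Qall, U1, zz]
  linear_combination (-2 * r * t ^ 2 * y0 * ya) * hB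

private theorem rel12 (B : B7 R)
    (hB : B.c0 * B.c1 = B.c09 * B.c0a + B.c09 * B.c9a + B.c0a * B.c9a) (t yB y0 ya : R) :
    (B.p * top B t yB y0 ya + U2 B t yB y0 ya) *
        (Q5a7 B t yB y0 ya + Q57a B t yB y0 ya + ZZ B t yB y0 ya) +
      top B t yB y0 ya * Qall B t yB y0 ya =
      X1 B t yB y0 ya * (ZZ B t yB y0 ya + Y3 B t yB y0 ya) +
      X3 B t yB y0 ya * Y1 B t yB y0 ya +
      (X1 B t yB y0 ya + Y1 B t yB y0 ya) * (Q57a B t yB y0 ya + B.c09 * zz yB y0 ya * t) +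
      (ZZ B t yB y0 ya + X3 B t yB y0 ya + Y3 B t yB y0 ya) *
        (b1 B t yB y0 ya + B.c09 * y0 * t) := by
  obtain ⟨c0, c09, c0a, c9a, c1, p, r⟩ := B
  simp only at hB
  simp only [top, b1, ZZ, X1, Y1, X3, Y3, Q5a7, Q57a, Qall, U2, zz]
  linear_combination (-2 * p * t * y0 * (y0 * ya + y0 * yB + ya * yB)) * hB

private theorem rel22 (B : B7 R)
    (hB : B.c0 * B.c1 = B.c09 * B.c0a + B.c09 * B.c9a + B.c0a * B.c9a) (t yB y0 ya : R) :
    top B t yB y0 ya * (Q5a7 B t yB y0 ya + Q57a B t yB y0 ya + ZZ B t yB y0 ya) =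
      X1 B t yB y0 ya * Y1 B t yB y0 ya +
      (X1 B t yB y0 ya + Y1 B t yB y0 ya) * (b1 B t yB y0 ya + B.c09 * y0 * t) := by
  obtain ⟨c0, c09, c0a, c9a, c1, p, r⟩ := B
  simp only at hB
  simp only [top, b1, ZZ, X1, Y1, Q5a7, Q57a, zz]
  linear_combination (t ^ 2 * y0 ^ 2) * hB

theorem m_rel (B : B7 R) (hB : B.c0 * B.c1 = B.c09 * B.c0a + B.c09 * B.c9a + B.c0a * B.c9a)
    (q s t yB y0 ya : R) :
    mt B q s t yB y0 ya * mn B q s t yB y0 ya =
      m5 B q s t yB y0 ya * m7 B q s t yB y0 ya +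
      (m5 B q s t yB y0 ya + m7 B q s t yB y0 ya) * mB B q s t yB y0 ya := by
  have hA := relA B t yB y0 ya
  have h20 := rel20 B hB t yB y0 ya
  have h02 := rel02 B hB t yB y0 ya
  have h11 := rel11 B hB t yB y0 ya
  have h21 := rel21 B hB t yB y0 ya
  have h12 := rel12 B hB t yB y0 ya
  have h22 := rel22 B hB t yB y0 ya
  simp only [mt, mn, m5, m7, mB]
  generalize top B t yB y0 ya = T at *
  generalize U1 B t yB y0 ya = U1 at *
  generalize U2 B t yB y0 ya = U2 at *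
  generalize U3 B t yB y0 ya = U3 at *
  generalize ZZ B t yB y0 ya = Z at *
  generalize X1 B t yB y0 ya = X1 at *
  generalize Y1 B t yB y0 ya = Y1 at *
  generalize X3 B t yB y0 ya = X3 at *
  generalize Y3 B t yB y0 ya = Y3 at *
  generalize Q5a7 B t yB y0 ya = Qa at *
  generalize Q57a B t yB y0 ya = Qb at *
  generalize Qall B t yB y0 ya = Qc at *
  generalize b1 B t yB y0 ya = bb at *
  generalize zz yB y0 ya = z at *
  generalize B.p = p at *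
  generalize B.r = r at *
  generalize B.c09 = c at *
  linear_combination (q * s * (Qa + Qb + Z) + (q + s) * Qc) * hA + q ^ 2 * h20 + s ^ 2 * h02 +
    q * s * h11 + q ^ 2 * s * h21 + q * s ^ 2 * h12 + q ^ 2 * s ^ 2 * h22

theorem n_rel (v : Fin 13 → R) : nt v * nn v = n5 v * n7 v + (n5 v + n7 v) * nB v := by
  have h := m_rel (B13 v) (mkB_rel _ _ _ _ _ _) (v 1) (v 2) (v 3) (v 4) (v 5) (v 6)
  unfold nt nn n5 n7 nB
  linear_combination (v 0) ^ 2 * h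

end MP06b.CX
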