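import Pool.Agent.Lib.MP_06b34c_co.CX.Rel
import Pool.Agent.Lib.MP_06b34c_co.CX.Count

/-! # MP_06b34c, counterexample: counting, step 1

Write `v = Fin.cons e w`, `w` with 12 coordinates. Then `nt v = e * mt w + (m5 w + m7 w)` and
`nB v = e * mB w + mn w` (these are `rfl` or `simp`, short for `mt (B12 w) (w 0) ... (w 5)`).
`cnt_step2` with `A = mt`, `B = m5 + m7`, `C = mB`, `D = mn`: the count is
`cnt (mt * mn - (m5 + m7) * mB = 0) - cnt (mt = 0 ∧ mB = 0)`. The second count is 0 by `cw2`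
(degrees 5 + 6 < 12). By `m_rel` (with `mkB_rel`) `mt * mn - (m5 + m7) * mB = m5 * m7`, and by
`cnt_mul` `cnt (m5 * m7 = 0) = cnt (m5 = 0) + cnt (m7 = 0) - cnt (both = 0)`, the first two are 0 by
`cw1` (degree 6 < 12).

Degrees: after `simp only` with all the definitions (`mt, top, zz, ...`, `B12, mkB`) the proof is
`refine PD.mono (by repeat' first | exact PD.var _ | exact PD.const _ | apply PD.add | apply PD.sub |
apply PD.mul) (by decide)`. -/

namespace MP06b.CX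

variable {p : ℕ} [Fact p.Prime]

private theorem S1_mt : PD 12 5 (fun w : Fin 12 → ZMod p =>
    mt (B12 w) (w 0) (w 1) (w 2) (w 3) (w 4) (w 5)) := by
  simp only [mt, top, zz, U1, U2, U3, B12, mkB]
  refine PD.mono (by repeat' first | exact PD.var _ | exact PD.const _ | apply PD.add | apply PD.sub | apply PD.mul) (by decide)

private theorem S1_m5 : PD 12 6 (fun w : Fin 12 → ZMod p =>
    m5 (B12 w) (w 0) (w 1) (w 2) (w 3) (w 4) (w 5)) := by
  simp only [m5, X1, X3, ZZ, top, zz, B12, mkB]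
  refine PD.mono (by repeat' first | exact PD.var _ | exact PD.const _ | apply PD.add | apply PD.sub | apply PD.mul) (by decide)

private theorem S1_m7 : PD 12 6 (fun w : Fin 12 → ZMod p =>
    m7 (B12 w) (w 0) (w 1) (w 2) (w 3) (w 4) (w 5)) := by
  simp only [m7, Y1, Y3, ZZ, top, zz, B12, mkB]
  refine PD.mono (by repeat' first | exact PD.var _ | exact PD.const _ | apply PD.add | apply PD.sub | apply PD.mul) (by decide)

private theorem S1_mB : PD 12 6 (fun w : Fin 12 → ZMod p =>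
    mB (B12 w) (w 0) (w 1) (w 2) (w 3) (w 4) (w 5)) := by
  simp only [mB, b1, Q57a, Q5a7, Qall, zz, B12, mkB]
  refine PD.mono (by repeat' first | exact PD.var _ | exact PD.const _ | apply PD.add | apply PD.sub | apply PD.mul) (by decide)

private theorem S1_nt {R : Type*} [CommRing R] (x : R) (w : Fin 12 → R) :
    nt (Fin.cons x w : Fin 13 → R) = mt (B12 w) (w 0) (w 1) (w 2) (w 3) (w 4) (w 5) * x +
      (m5 (B12 w) (w 0) (w 1) (w 2) (w 3) (w 4) (w 5) +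
        m7 (B12 w) (w 0) (w 1) (w 2) (w 3) (w 4) (w 5)) := by
  change x * mt (B12 w) (w 0) (w 1) (w 2) (w 3) (w 4) (w 5) +
    m5 (B12 w) (w 0) (w 1) (w 2) (w 3) (w 4) (w 5) +
    m7 (B12 w) (w 0) (w 1) (w 2) (w 3) (w 4) (w 5) = _
  rw [mul_comm x, add_assoc]

private theorem S1_nB {R : Type*} [CommRing R] (x : R) (w : Fin 12 → R) :
    nB (Fin.cons x w : Fin 13 → R) = mB (B12 w) (w 0) (w 1) (w 2) (w 3) (w 4) (w 5) * x +
      mn (B12 w) (w 0) (w 1) (w 2) (w 3) (w 4) (w 5) := by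
  change x * mB (B12 w) (w 0) (w 1) (w 2) (w 3) (w 4) (w 5) +
    mn (B12 w) (w 0) (w 1) (w 2) (w 3) (w 4) (w 5) = _
  rw [mul_comm x]

theorem S1 : cnt (ZMod p) (fun v : Fin 13 → ZMod p => nt v = 0 ∧ nB v = 0) =
    - cnt (ZMod p) (fun w : Fin 12 → ZMod p =>
      m5 (B12 w) (w 0) (w 1) (w 2) (w 3) (w 4) (w 5) = 0 ∧
      m7 (B12 w) (w 0) (w 1) (w 2) (w 3) (w 4) (w 5) = 0) := by
  rw [cnt_step2 (fun v : Fin 13 → ZMod p => nt v = 0 ∧ nB v = 0)
    (fun w => mt (B12 w) (w 0) (w 1) (w 2) (w 3) (w 4) (w 5))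
    (fun w => m5 (B12 w) (w 0) (w 1) (w 2) (w 3) (w 4) (w 5) +
      m7 (B12 w) (w 0) (w 1) (w 2) (w 3) (w 4) (w 5))
    (fun w => mB (B12 w) (w 0) (w 1) (w 2) (w 3) (w 4) (w 5))
    (fun w => mn (B12 w) (w 0) (w 1) (w 2) (w 3) (w 4) (w 5))
    (fun x w => by rw [S1_nt, S1_nB])]
  rw [cw2 S1_mt S1_mB (by norm_num), sub_zero]
  rw [cnt_congr (Q := fun w : Fin 12 → ZMod p =>
    m5 (B12 w) (w 0) (w 1) (w 2) (w 3) (w 4) (w 5) *
      m7 (B12 w) (w 0) (w 1) (w 2) (w 3) (w 4) (w 5) = 0)]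
  · rw [cnt_mul, cw1 S1_m5 (by norm_num), cw1 S1_m7 (by norm_num)]
    rw [add_zero, zero_sub]
  · intro w
    have h := m_rel (B12 w) (mkB_rel _ _ _ _ _ _) (w 0) (w 1) (w 2) (w 3) (w 4) (w 5)
    have e : mt (B12 w) (w 0) (w 1) (w 2) (w 3) (w 4) (w 5) *
        mn (B12 w) (w 0) (w 1) (w 2) (w 3) (w 4) (w 5) -
        (m5 (B12 w) (w 0) (w 1) (w 2) (w 3) (w 4) (w 5) +
          m7 (B12 w) (w 0) (w 1) (w 2) (w 3) (w 4) (w 5)) *
          mB (B12 w) (w 0) (w 1) (w 2) (w 3) (w 4) (w 5) =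
        m5 (B12 w) (w 0) (w 1) (w 2) (w 3) (w 4) (w 5) *
          m7 (B12 w) (w 0) (w 1) (w 2) (w 3) (w 4) (w 5) := by
      rw [h, add_sub_cancel_right]
    rw [e]

end MP06b.CX
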